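import Mathlib

set_option autoImplicit false

open MeasureTheory Filter Topology

namespace Pool.Agent.H747R3.Moran

/-- the bases `M i = i + 3` -/
def M (i : ℕ) : ℕ := i + 3

/-- the digit sets `{1, ..., M i - 2}` -/
def D (i : ℕ) : Finset ℕ := Finset.Icc 1 (i + 1)

noncomputable def P (n : ℕ) : ℝ := ∏ i ∈ Finset.range n, ((M i : ℕ) : ℝ)

lemma P_zero : P 0 = 1 := by simp [P]

lemma P_succ (n : ℕ) : P (n + 1) = P n * ((n : ℝ) + 3) := by
  unfold P M
  rw [Finset.prod_range_succ]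
  push_cast
  ring

lemma P_pos (n : ℕ) : 0 < P n := by
  unfold P M
  apply Finset.prod_pos
  intro i _
  positivity

lemma P_ge (n : ℕ) : (3 : ℝ) ^ n ≤ P n := by
  induction n with
  | zero => simp [P_zero]
  | succ n ih =>
    rw [P_succ, pow_succ]
    have h1 : (0 : ℝ) ≤ n := Nat.cast_nonneg n
    have h2 : (0 : ℝ) < 3 ^ n := by positivity
    nlinarith

lemma P_mono : Monotone P := by
  apply monotone_nat_of_le_succ
  intro n
  rw [P_succ]
  have := P_pos n
  have h1 : (0 : ℝ) ≤ n := Nat.cast_nonneg n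
  nlinarith

/-- average of `f` over the points `∑_{i<n} d_i / P (i+1)` -/
noncomputable def A {E : Type*} [AddCommGroup E] [Module ℝ E] : ℕ → (ℝ → E) → E
  | 0, f => f 0
  | (n + 1), f => ((n : ℝ) + 1)⁻¹ • ∑ d ∈ D n, A n (fun x => f (x + (d : ℝ) / P (n + 1)))

/-- the points `∑_{i<n} d_i / P (i+1)` -/
def S : ℕ → Set ℝ
  | 0 => {0}
  | (n + 1) => {y | ∃ x ∈ S n, ∃ d ∈ D n, y = x + (d : ℝ) / P (n + 1)}

section lin
variable {E : Type*} [NormedAddCommGroup E] [NormedSpace ℝ E]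

lemma card_D (n : ℕ) : (D n).card = n + 1 := by simp [D]

lemma A_congr (n : ℕ) (f g : ℝ → E) (h : ∀ x ∈ S n, f x = g x) : A n f = A n g := by
  induction n generalizing f g with
  | zero => exact h 0 rfl
  | succ n ih =>
    unfold A
    congr 1
    apply Finset.sum_congr rfl
    intro d hd
    apply ih
    intro x hx
    exact h _ ⟨x, hx, d, hd, rfl⟩

lemma A_bound (n : ℕ) (f : ℝ → E) (B : ℝ) (h : ∀ x ∈ S n, ‖f x‖ ≤ B) : ‖A n f‖ ≤ B := by
  induction n generalizing f with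
  | zero => exact h 0 rfl
  | succ n ih =>
    unfold A
    have hn : (0 : ℝ) < (n : ℝ) + 1 := by positivity
    rw [norm_smul, norm_inv, Real.norm_of_nonneg hn.le]
    have h1 : ‖∑ d ∈ D n, A n (fun x => f (x + (d : ℝ) / P (n + 1)))‖ ≤ ∑ d ∈ D n, B := by
      refine norm_sum_le_of_le _ fun d hd => ?_
      apply ih
      intro x hx
      exact h _ ⟨x, hx, d, hd, rfl⟩
    rw [Finset.sum_const, card_D, nsmul_eq_mul] at h1
    rw [inv_mul_le_iff₀ hn]
    refine h1.trans (le_of_eq ?_)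
    push_cast
    ring

lemma A_add (n : ℕ) (f g : ℝ → E) : A n (fun x => f x + g x) = A n f + A n g := by
  induction n generalizing f g with
  | zero => rfl
  | succ n ih =>
    unfold A
    rw [← smul_add, ← Finset.sum_add_distrib]
    congr 1
    apply Finset.sum_congr rfl
    intro d _
    exact ih (fun x => f (x + (d : ℝ) / P (n + 1))) (fun x => g (x + (d : ℝ) / P (n + 1)))

lemma A_map {F : Type*} [NormedAddCommGroup F] [NormedSpace ℝ F] (T : E →ₗ[ℝ] F) (n : ℕ)
    (f : ℝ → E) : A n (fun x => T (f x)) = T (A n f) := by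
  induction n generalizing f with
  | zero => rfl
  | succ n ih =>
    unfold A
    rw [map_smul, map_sum]
    congr 1
    apply Finset.sum_congr rfl
    intro d _
    exact ih (fun x => f (x + (d : ℝ) / P (n + 1)))

lemma A_sum {ι : Type*} (s : Finset ι) (n : ℕ) (f : ι → ℝ → E) :
    A n (fun x => ∑ i ∈ s, f i x) = ∑ i ∈ s, A n (f i) := by
  classical
  induction s using Finset.induction_on with
  | empty =>
    simp only [Finset.sum_empty]
    have h := A_map (0 : E →ₗ[ℝ] E) n (fun _ => (0 : E))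
    simpa using h
  | insert a s ha ih =>
    simp only [Finset.sum_insert ha]
    rw [A_add, ih]

lemma A_sub (n : ℕ) (f g : ℝ → E) : A n (fun x => f x - g x) = A n f - A n g := by
  have h1 : A n (fun x => f x - g x) = A n (fun x => f x + (-g x)) := by
    congr 1
    funext x
    rw [sub_eq_add_neg]
  rw [h1, A_add]
  have h2 := A_map (-LinearMap.id : E →ₗ[ℝ] E) n g
  simp only [LinearMap.neg_apply, LinearMap.id_coe, id_eq] at h2
  rw [h2, sub_eq_add_neg]

lemma D_pos (n : ℕ) {d : ℕ} (hd : d ∈ D n) : 1 ≤ d ∧ d ≤ n + 1 := by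
  simpa [D] using hd

lemma digit_le (n : ℕ) {d : ℕ} (hd : d ∈ D n) : (d : ℝ) / P (n + 1) ≤ 1 / P n := by
  have h := D_pos n hd
  have hP := P_pos n
  have hP1 := P_pos (n + 1)
  rw [div_le_div_iff₀ hP1 hP, P_succ]
  have h2 : (d : ℝ) ≤ n + 1 := by exact_mod_cast h.2
  nlinarith

lemma A_step (n : ℕ) (f : ℝ → E) (L : ℝ) (hL : 0 ≤ L) (hf : ∀ x y, ‖f x - f y‖ ≤ L * |x - y|) :
    dist (A n f) (A (n + 1) f) ≤ L * (1 / 3) ^ n := by
  have hn : (0 : ℝ) < (n : ℝ) + 1 := by positivity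
  have h0 : A (n + 1) f - A n f =
      ((n : ℝ) + 1)⁻¹ • ∑ d ∈ D n, A n (fun x => f (x + (d : ℝ) / P (n + 1)) - f x) := by
    conv_lhs => unfold A
    simp_rw [A_sub]
    rw [Finset.sum_sub_distrib, smul_sub]
    congr 1
    rw [Finset.sum_const, card_D, ← Nat.cast_smul_eq_nsmul ℝ, smul_smul]
    push_cast
    rw [inv_mul_cancel₀ hn.ne', one_smul]
    cases n <;> rfl
  rw [dist_comm, dist_eq_norm, h0, norm_smul, norm_inv, Real.norm_of_nonneg hn.le,
    inv_mul_le_iff₀ hn]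
  have h1 : ‖∑ d ∈ D n, A n (fun x => f (x + (d : ℝ) / P (n + 1)) - f x)‖ ≤
      ∑ d ∈ D n, L * (1 / 3) ^ n := by
    refine norm_sum_le_of_le _ fun d hd => ?_
    apply A_bound
    intro x _
    refine (hf _ _).trans ?_
    gcongr
    rw [add_sub_cancel_left, abs_of_nonneg (by have := P_pos (n + 1); positivity)]
    refine (digit_le n hd).trans ?_
    rw [div_pow, one_pow]
    exact one_div_le_one_div_of_le (by positivity) (P_ge n)
  rw [Finset.sum_const, card_D, nsmul_eq_mul] at h1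
  exact_mod_cast h1

lemma A_conv [CompleteSpace E] (f : ℝ → E) (L : ℝ) (hL : 0 ≤ L)
    (hf : ∀ x y, ‖f x - f y‖ ≤ L * |x - y|) : ∃ z, Tendsto (fun n => A n f) atTop (𝓝 z) := by
  apply cauchySeq_tendsto_of_complete
  exact cauchySeq_of_le_geometric (1 / 3) L (by norm_num) (fun n => A_step n f L hL hf)

end lin

/-- `e(k t)` -/
noncomputable def e (k : ℤ) (t : ℝ) : ℂ := Complex.exp (2 * Real.pi * Complex.I * k * t)

lemma e_add_right (k : ℤ) (x y : ℝ) : e k (x + y) = e k x * e k y := by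
  unfold e
  rw [← Complex.exp_add]
  congr 1
  push_cast
  ring

lemma e_add_left (k m : ℤ) (x : ℝ) : e (k + m) x = e k x * e m x := by
  unfold e
  rw [← Complex.exp_add]
  congr 1
  push_cast
  ring

lemma e_eq (k : ℤ) (t : ℝ) : e k t = Complex.exp (((2 * Real.pi * k * t : ℝ) : ℂ) * Complex.I) := by
  unfold e
  congr 1
  push_cast
  ring

lemma norm_e (k : ℤ) (t : ℝ) : ‖e k t‖ = 1 := by
  rw [e_eq, Complex.norm_exp_ofReal_mul_I]

lemma e_nat_mul (k : ℤ) (d : ℕ) (x : ℝ) : e k (d * x) = e k x ^ d := by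
  unfold e
  rw [← Complex.exp_nat_mul]
  congr 1
  push_cast
  ring

noncomputable def F (i : ℕ) (k : ℤ) : ℂ := ((i : ℝ) + 1)⁻¹ • ∑ d ∈ D i, e k ((d : ℝ) / P (i + 1))

lemma A_e (n : ℕ) (k : ℤ) : A n (e k) = ∏ i ∈ Finset.range n, F i k := by
  induction n with
  | zero => simp [A, e]
  | succ n ih =>
    rw [Finset.prod_range_succ, ← ih]
    unfold A F
    rw [mul_smul_comm]
    congr 1
    rw [Finset.mul_sum]
    apply Finset.sum_congr rfl
    intro d _
    have h := A_map ((LinearMap.mulRight ℝ (e k ((d : ℝ) / P (n + 1)))) : ℂ →ₗ[ℝ] ℂ) n (e k)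
    simp only [LinearMap.mulRight_apply] at h
    simp_rw [e_add_right]
    rw [h]
    cases n <;> rfl

lemma norm_F_le (i : ℕ) (k : ℤ) : ‖F i k‖ ≤ 1 := by
  unfold F
  have hn : (0 : ℝ) < (i : ℝ) + 1 := by positivity
  rw [norm_smul, norm_inv, Real.norm_of_nonneg hn.le, inv_mul_le_iff₀ hn]
  have h1 : ‖∑ d ∈ D i, e k ((d : ℝ) / P (i + 1))‖ ≤ ∑ d ∈ D i, (1 : ℝ) := by
    refine norm_sum_le_of_le _ fun d hd => ?_
    rw [norm_e]
  rw [Finset.sum_const, card_D, nsmul_eq_mul] at h1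
  exact_mod_cast h1

noncomputable def u (k : ℤ) (i : ℕ) : ℝ := ‖e k (1 / P i) - 1‖

lemma u_nonneg (k : ℤ) (i : ℕ) : 0 ≤ u k i := norm_nonneg _

lemma u_le_two (k : ℤ) (i : ℕ) : u k i ≤ 2 := by
  unfold u
  refine (norm_sub_le _ _).trans ?_
  rw [norm_e, norm_one]
  norm_num

lemma u_eq (k : ℤ) (i : ℕ) : u k i = 2 * |Real.sin (Real.pi * (|(k : ℝ)| / P i))| := by
  unfold u
  have h1 : e k (1 / P i) - 1 =
      Complex.exp (Complex.I * ((2 * Real.pi * k * (1 / P i) : ℝ) : ℂ)) - 1 := by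
    rw [e_eq, mul_comm]
  rw [h1, Complex.norm_exp_I_mul_ofReal_sub_one, norm_mul, Real.norm_eq_abs, Real.norm_eq_abs,
    abs_two]
  congr 1
  rcases abs_cases (k : ℝ) with ⟨h, _⟩ | ⟨h, _⟩
  · rw [h]
    congr 2
    ring
  · rw [h]
    have : Real.pi * (-(k : ℝ) / P i) = -(2 * Real.pi * k * (1 / P i) / 2) := by ring
    rw [this, Real.sin_neg, abs_neg]

lemma F_key (i : ℕ) (k : ℤ) : ‖F i k‖ * ((i : ℝ) + 1) * u k (i + 1) ≤ u k i + 2 * u k (i + 1) := by
  set z : ℂ := e k (1 / P (i + 1)) with hz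
  have hn : (0 : ℝ) < (i : ℝ) + 1 := by positivity
  have hsum : ∑ d ∈ D i, e k ((d : ℝ) / P (i + 1)) = ∑ d ∈ D i, z ^ d := by
    apply Finset.sum_congr rfl
    intro d _
    rw [hz, ← e_nat_mul]
    congr 1
    ring
  have hz3 : z ^ (i + 3) = e k (1 / P i) := by
    rw [hz, ← e_nat_mul]
    congr 1
    rw [P_succ]
    have := P_pos i
    push_cast
    field_simp
  have hD : ∑ d ∈ D i, z ^ d = (∑ d ∈ Finset.range (i + 3), z ^ d) - 1 - z ^ (i + 2) := by
    rw [Finset.sum_range_succ, Finset.range_eq_Ico, Finset.sum_eq_sum_Ico_succ_bot (by omega)]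
    have : D i = Finset.Ico (0 + 1) (i + 2) := by
      ext d
      simp [D, Nat.lt_succ_iff]
    rw [this]
    simp
    ring
  have hgeom : (∑ d ∈ Finset.range (i + 3), z ^ d) * (z - 1) = z ^ (i + 3) - 1 :=
    geom_sum_mul z (i + 3)
  have hmain : (∑ d ∈ D i, z ^ d) * (z - 1) = (z ^ (i + 3) - 1) - (1 + z ^ (i + 2)) * (z - 1) := by
    rw [hD, ← hgeom]
    ring
  have hF : ‖F i k‖ * ((i : ℝ) + 1) = ‖∑ d ∈ D i, z ^ d‖ := by
    unfold F
    rw [hsum, norm_smul, norm_inv, Real.norm_of_nonneg hn.le]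
    field_simp
  have hzn : ‖z‖ = 1 := norm_e _ _
  have h1 : ‖1 + z ^ (i + 2)‖ ≤ 2 := by
    refine (norm_add_le _ _).trans ?_
    rw [norm_one, norm_pow, hzn, one_pow]
    norm_num
  rw [hF]
  have h2 : u k (i + 1) = ‖z - 1‖ := rfl
  have h3 : u k i = ‖z ^ (i + 3) - 1‖ := by rw [hz3]; rfl
  rw [h2, h3, ← norm_mul, hmain]
  refine (norm_sub_le _ _).trans ?_
  rw [norm_mul]
  gcongr

lemma F_bound (i : ℕ) (k : ℤ) (h : 0 < u k (i + 1)) :
    ‖F i k‖ ≤ (u k i / u k (i + 1) + 2) / ((i : ℝ) + 1) := by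
  have hn : (0 : ℝ) < (i : ℝ) + 1 := by positivity
  have h1 := F_key i k
  rw [le_div_iff₀ hn]
  have h2 : u k i / u k (i + 1) + 2 = (u k i + 2 * u k (i + 1)) / u k (i + 1) := by
    field_simp
  rw [h2, le_div_iff₀ h]
  exact h1

lemma sin_low {y : ℝ} (h0 : 0 ≤ y) (h1 : y ≤ 1 / 2) : 2 * y ≤ Real.sin (Real.pi * y) := by
  have hp := Real.pi_pos
  have h := Real.mul_le_sin (x := Real.pi * y) (by positivity) (by nlinarith)
  have : 2 / Real.pi * (Real.pi * y) = 2 * y := by field_simp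
  rwa [this] at h

lemma F_small (ε : ℝ) (hε : 0 < ε) : ∃ L : ℕ, ∀ l : ℕ, L ≤ l → ∀ k : ℤ, P l ≤ |(k : ℝ)| →
    |(k : ℝ)| < P (l + 1) → ∃ i, ‖F i k‖ ≤ ε := by
  obtain ⟨L, hL⟩ := exists_nat_gt (max 3 (max (8 / ε) ((2 / ε + 2) / ε)))
  have hL3 : (3 : ℝ) < L := lt_of_le_of_lt (le_max_left _ _) hL
  have hL8 : 8 / ε < L := lt_of_le_of_lt ((le_max_left _ _).trans (le_max_right _ _)) hL
  have hLe : (2 / ε + 2) / ε < L := lt_of_le_of_lt ((le_max_right _ _).trans (le_max_right _ _)) hL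
  refine ⟨L, fun l hl k hk1 hk2 => ?_⟩
  have hlL : (L : ℝ) ≤ l := by exact_mod_cast hl
  have hl3 : (3 : ℝ) < l := hL3.trans_le hlL
  have hl0 : (0 : ℝ) < l := by linarith
  have hl8 : 8 < l * ε := by
    have := hL8.trans_le hlL
    rwa [div_lt_iff₀ hε] at this
  have hle : 2 / ε + 2 < l * ε := by
    have := hLe.trans_le hlL
    rwa [div_lt_iff₀ hε] at this
  set κ : ℝ := |(k : ℝ)| with hκ
  have hP := P_pos l
  have hP1 := P_pos (l + 1)
  have hP2 := P_pos (l + 2)
  have hPs : P (l + 1) = P l * ((l : ℝ) + 3) := P_succ l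
  have hPs2 : P (l + 2) = P (l + 1) * ((l : ℝ) + 4) := by
    rw [P_succ (l + 1)]; push_cast; ring
  set y : ℝ := κ / P (l + 1) with hy
  have hκ0 : 0 < κ := lt_of_lt_of_le hP hk1
  have hy0 : 0 < y := by positivity
  have hy1 : y < 1 := by rw [hy, div_lt_one hP1]; exact hk2
  have hyl : 1 / ((l : ℝ) + 3) ≤ y := by
    rw [hy, hPs, div_le_div_iff₀ (by positivity) (by positivity)]
    nlinarith
  rcases le_or_gt y (1 / 2) with hyh | hyh
  · -- case A
    have hu1 : 4 * y ≤ u k (l + 1) := by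
      rw [u_eq]
      have := sin_low hy0.le hyh
      rw [abs_of_nonneg (by linarith)]
      linarith
    have hu1' : 4 / ((l : ℝ) + 3) ≤ u k (l + 1) := by
      refine le_trans ?_ hu1
      have : 4 / ((l : ℝ) + 3) = 4 * (1 / ((l : ℝ) + 3)) := by ring
      rw [this]
      linarith
    have hu1p : 0 < u k (l + 1) := by linarith
    rcases le_or_gt (u k l) ε with hul | hul
    · refine ⟨l, (F_bound l k hu1p).trans ?_⟩
      rw [div_le_iff₀ (by positivity)]
      have h1 : u k l / u k (l + 1) ≤ ε * ((l : ℝ) + 3) / 4 := by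
        calc u k l / u k (l + 1) ≤ ε / (4 / ((l : ℝ) + 3)) := by
              gcongr
          _ = ε * ((l : ℝ) + 3) / 4 := by field_simp
      nlinarith
    · obtain ⟨l', rfl⟩ : ∃ l', l = l' + 1 := ⟨l - 1, by
        have : (0 : ℝ) < (l : ℝ) := hl0
        have : 0 < l := by exact_mod_cast this
        omega⟩
      refine ⟨l', (F_bound l' k (by linarith)).trans ?_⟩
      rw [div_le_iff₀ (by positivity)]
      have h1 : u k l' / u k (l' + 1) ≤ 2 / ε := by
        have := u_le_two k l'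
        have := u_nonneg k l'
        gcongr
      push_cast at hle
      nlinarith
  · -- case B
    rcases le_or_gt (u k (l + 1)) ε with hul | hul
    · have hz : |(k : ℝ)| / P (l + 2) = y / ((l : ℝ) + 4) := by
        rw [hy, hPs2, div_div]
      have hz1 : y / ((l : ℝ) + 4) ≤ 1 / 2 := by
        rw [div_le_iff₀ (by positivity)]
        nlinarith
      have hu2 : 2 / ((l : ℝ) + 4) ≤ u k (l + 2) := by
        rw [u_eq, hz]
        have := sin_low (y := y / ((l : ℝ) + 4)) (by positivity) hz1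
        have hpos : 0 ≤ y / ((l : ℝ) + 4) := by positivity
        rw [abs_of_nonneg (by linarith)]
        have h3 : 2 / ((l : ℝ) + 4) ≤ 2 * (2 * (y / ((l : ℝ) + 4))) := by
          have : 2 * (2 * (y / ((l : ℝ) + 4))) = (4 * y) / ((l : ℝ) + 4) := by ring
          rw [this]
          gcongr
          linarith
        linarith
      have hu2p : 0 < u k (l + 2) := lt_of_lt_of_le (by positivity) hu2
      refine ⟨l + 1, (F_bound (l + 1) k hu2p).trans ?_⟩
      rw [div_le_iff₀ (by positivity)]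
      have h1 : u k (l + 1) / u k (l + 1 + 1) ≤ ε * ((l : ℝ) + 4) / 2 := by
        calc u k (l + 1) / u k (l + 1 + 1) ≤ ε / (2 / ((l : ℝ) + 4)) := by
              gcongr
          _ = ε * ((l : ℝ) + 4) / 2 := by field_simp
      push_cast
      nlinarith
    · refine ⟨l, (F_bound l k (by linarith)).trans ?_⟩
      rw [div_le_iff₀ (by positivity)]
      have h1 : u k l / u k (l + 1) ≤ 2 / ε := by
        have := u_le_two k l
        have := u_nonneg k l
        gcongr
      nlinarith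

lemma A_e_small (ε : ℝ) (hε : 0 < ε) : ∃ K : ℕ, ∀ k : ℤ, K ≤ k.natAbs →
    ∀ᶠ n in atTop, ‖A n (e k)‖ ≤ ε := by
  obtain ⟨L, hL⟩ := F_small ε hε
  obtain ⟨K, hK⟩ := exists_nat_gt (P L)
  refine ⟨K, fun k hk => ?_⟩
  have hk' : P L ≤ |(k : ℝ)| := by
    have h1 : ((k.natAbs : ℕ) : ℝ) = |(k : ℝ)| := by
      rw [Nat.cast_natAbs]; push_cast; rfl
    rw [← h1]
    refine hK.le.trans ?_
    exact_mod_cast hk
  -- find `l`
  have hex : ∃ l, |(k : ℝ)| < P (l + 1) := by
    obtain ⟨l, hl⟩ := pow_unbounded_of_one_lt (|(k : ℝ)|) (by norm_num : (1 : ℝ) < 3)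
    exact ⟨l, lt_of_lt_of_le hl ((P_ge l).trans (P_mono (Nat.le_succ l)))⟩
  classical
  set l := Nat.find hex with hl
  have h1 : |(k : ℝ)| < P (l + 1) := Nat.find_spec hex
  have hLl : L ≤ l := by
    by_contra hlt
    push Not at hlt
    have : P (l + 1) ≤ P L := P_mono hlt
    linarith
  have h2 : P l ≤ |(k : ℝ)| := by
    rcases Nat.eq_zero_or_pos l with h0 | h0
    · rw [h0]
      exact (P_mono (Nat.zero_le L)).trans hk'
    · have := Nat.find_min hex (m := l - 1) (by omega)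
      rw [Nat.sub_add_cancel h0] at this
      exact not_lt.mp this
  obtain ⟨i, hi⟩ := hL l hLl k h2 h1
  filter_upwards [eventually_gt_atTop i] with n hn
  rw [A_e, norm_prod]
  have : i ∈ Finset.range n := Finset.mem_range.mpr hn
  rw [← Finset.mul_prod_erase _ _ this]
  calc ‖F i k‖ * ∏ x ∈ (Finset.range n).erase i, ‖F x k‖ ≤ ε * 1 := by
        gcongr
        exact Finset.prod_le_one (fun _ _ => norm_nonneg _) (fun _ _ => norm_F_le _ _)
    _ = ε := mul_one _

end Pool.Agent.H747R3.Moran
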