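import Pool.Agent.H747R3.MoranA

set_option autoImplicit false

open MeasureTheory Filter Topology

namespace Pool.Agent.H747R3.Moran

/-! ### Continuous periodic multipliers -/

/-- `g dν` has vanishing Fourier coefficients at infinity -/
def Good (g : C(AddCircle (1 : ℝ), ℂ)) : Prop :=
  ∀ ε : ℝ, 0 < ε → ∃ K : ℕ, ∀ k : ℤ, K ≤ k.natAbs →
    ∀ᶠ n in atTop, ‖A n (fun t : ℝ => g (t : AddCircle (1 : ℝ)) * e k t)‖ ≤ ε

lemma good_fourier (m : ℤ) : Good (fourier m) := by
  intro ε hε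
  obtain ⟨K, hK⟩ := A_e_small ε hε
  refine ⟨K + m.natAbs, fun k hk => ?_⟩
  have h1 : K ≤ (m + k).natAbs := by omega
  filter_upwards [hK (m + k) h1] with n hn
  have : (fun t : ℝ => (fourier m : C(AddCircle (1 : ℝ), ℂ)) (t : AddCircle (1 : ℝ)) * e k t) =
      e (m + k) := by
    funext t
    rw [e_add_left]
    congr 1
    rw [fourier_coe_apply]
    unfold e
    congr 1
    push_cast
    ring
  rw [this]
  exact hn

lemma good_zero : Good 0 := by
  intro ε hε
  refine ⟨0, fun k _ => Eventually.of_forall fun n => ?_⟩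
  apply A_bound
  intro x _
  simp [hε.le]

lemma good_add (g h : C(AddCircle (1 : ℝ), ℂ)) (hg : Good g) (hh : Good h) : Good (g + h) := by
  intro ε hε
  obtain ⟨K1, hK1⟩ := hg (ε / 2) (by positivity)
  obtain ⟨K2, hK2⟩ := hh (ε / 2) (by positivity)
  refine ⟨max K1 K2, fun k hk => ?_⟩
  filter_upwards [hK1 k ((le_max_left _ _).trans hk), hK2 k ((le_max_right _ _).trans hk)]
    with n h1 h2
  have : (fun t : ℝ => (g + h) (t : AddCircle (1 : ℝ)) * e k t) =
      fun t : ℝ => g (t : AddCircle (1 : ℝ)) * e k t + h (t : AddCircle (1 : ℝ)) * e k t := by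
    funext t
    simp [add_mul]
  rw [this, A_add]
  refine (norm_add_le _ _).trans ?_
  linarith

lemma A_const_mul (n : ℕ) (c : ℂ) (f : ℝ → ℂ) : A n (fun t => c * f t) = c * A n f := by
  have h := A_map (LinearMap.mulLeft ℝ c : ℂ →ₗ[ℝ] ℂ) n f
  simpa using h

lemma good_smul (c : ℂ) (g : C(AddCircle (1 : ℝ), ℂ)) (hg : Good g) : Good (c • g) := by
  intro ε hε
  have hc : 0 < ‖c‖ + 1 := by positivity
  obtain ⟨K1, hK1⟩ := hg (ε / (‖c‖ + 1)) (by positivity)
  refine ⟨K1, fun k hk => ?_⟩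
  filter_upwards [hK1 k hk] with n h1
  have : (fun t : ℝ => (c • g) (t : AddCircle (1 : ℝ)) * e k t) =
      fun t : ℝ => c * (g (t : AddCircle (1 : ℝ)) * e k t) := by
    funext t
    simp [mul_assoc]
  rw [this, A_const_mul, norm_mul]
  rw [le_div_iff₀ hc] at h1
  nlinarith [norm_nonneg c, norm_nonneg (A n (fun t : ℝ => g (t : AddCircle (1 : ℝ)) * e k t))]

lemma good_span (g : C(AddCircle (1 : ℝ), ℂ))
    (hg : g ∈ Submodule.span ℂ (Set.range (@fourier (1 : ℝ)))) : Good g := by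
  induction hg using Submodule.span_induction with
  | mem x hx =>
    obtain ⟨m, rfl⟩ := hx
    exact good_fourier m
  | zero => exact good_zero
  | add x y _ _ hx hy => exact good_add x y hx hy
  | smul c x _ hx => exact good_smul c x hx

instance : Fact (0 < (1 : ℝ)) := ⟨one_pos⟩

lemma good_all (g : C(AddCircle (1 : ℝ), ℂ)) : Good g := by
  intro ε hε
  have h1 : g ∈ (Submodule.span ℂ (Set.range (@fourier (1 : ℝ)))).topologicalClosure := by
    rw [span_fourier_closure_eq_top]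
    trivial
  have h2 : g ∈ closure ((Submodule.span ℂ (Set.range (@fourier (1 : ℝ))) :
      Submodule ℂ C(AddCircle (1 : ℝ), ℂ)) : Set C(AddCircle (1 : ℝ), ℂ)) := h1
  rw [Metric.mem_closure_iff] at h2
  obtain ⟨p, hp, hgp⟩ := h2 (ε / 2) (by positivity)
  obtain ⟨K, hK⟩ := good_span p hp (ε / 2) (by positivity)
  refine ⟨K, fun k hk => ?_⟩
  filter_upwards [hK k hk] with n hn
  have : (fun t : ℝ => g (t : AddCircle (1 : ℝ)) * e k t) =
      fun t : ℝ => (g (t : AddCircle (1 : ℝ)) - p (t : AddCircle (1 : ℝ))) * e k t +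
        p (t : AddCircle (1 : ℝ)) * e k t := by
    funext t
    ring
  rw [this, A_add]
  refine (norm_add_le _ _).trans ?_
  have h3 : ‖A n (fun t : ℝ => (g (t : AddCircle (1 : ℝ)) - p (t : AddCircle (1 : ℝ))) * e k t)‖
      ≤ ε / 2 := by
    apply A_bound
    intro x _
    rw [norm_mul, norm_e, mul_one]
    have := ContinuousMap.dist_apply_le_dist (f := g) (g := p) (x : AddCircle (1 : ℝ))
    rw [dist_eq_norm] at this
    exact this.trans hgp.le
  linarith

/-! ### The Dirichlet kernel -/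

noncomputable def DN (N : ℕ) (s : ℝ) : ℝ :=
  1 + 2 * ∑ k ∈ Finset.range N, Real.cos (2 * Real.pi * ((k : ℝ) + 1) * s)

lemma DN_mul (N : ℕ) (s : ℝ) :
    Real.sin (Real.pi * s) * DN N s = Real.sin ((2 * N + 1) * (Real.pi * s)) := by
  induction N with
  | zero => simp [DN]
  | succ N ih =>
    have h1 : DN (N + 1) s = DN N s + 2 * Real.cos (2 * Real.pi * ((N : ℝ) + 1) * s) := by
      unfold DN
      rw [Finset.sum_range_succ]
      ring
    rw [h1, mul_add, ih]
    have e1 : (2 * (N : ℝ) + 1) * (Real.pi * s) = 2 * Real.pi * ((N : ℝ) + 1) * s - Real.pi * s := by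
      ring
    have e2 : (2 * ((N + 1 : ℕ) : ℝ) + 1) * (Real.pi * s) =
        2 * Real.pi * ((N : ℝ) + 1) * s + Real.pi * s := by
      push_cast
      ring
    rw [e1, e2, Real.sin_sub, Real.sin_add]
    ring

/-- the multiplier -/
noncomputable def mul (η : ℝ) (s : ℝ) : ℝ :=
  Real.cos (Real.pi * s) * Real.sin (Real.pi * s) / max (Real.sin (Real.pi * s) ^ 2) η

lemma DN_eq {η : ℝ} (hη : 0 < η) (N : ℕ) (s : ℝ) (h : η ≤ Real.sin (Real.pi * s) ^ 2) :
    DN N s = Real.cos (2 * Real.pi * N * s) + Real.sin (2 * Real.pi * N * s) * mul η s := by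
  have h1 := DN_mul N s
  have h2 : Real.sin ((2 * N + 1) * (Real.pi * s)) =
      Real.sin (2 * Real.pi * N * s) * Real.cos (Real.pi * s) +
      Real.cos (2 * Real.pi * N * s) * Real.sin (Real.pi * s) := by
    rw [← Real.sin_add]
    congr 1
    ring
  have hs : Real.sin (Real.pi * s) ≠ 0 := by
    intro h0
    rw [h0] at h
    norm_num at h
    linarith
  unfold mul
  rw [max_eq_left h]
  rw [h2] at h1
  field_simp
  nlinarith [h1]

lemma mul_periodic (η : ℝ) : Function.Periodic (mul η) 1 := by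
  intro s
  unfold mul
  have : Real.pi * (s + 1) = Real.pi * s + Real.pi := by ring
  rw [this, Real.cos_add_pi, Real.sin_add_pi]
  congr 1
  · ring
  · congr 1
    ring

lemma mul_continuous {η : ℝ} (hη : 0 < η) : Continuous (mul η) := by
  unfold mul
  apply Continuous.div
  · fun_prop
  · fun_prop
  · intro s
    have : 0 < max (Real.sin (Real.pi * s) ^ 2) η := lt_max_of_lt_right hη
    exact this.ne'

/-- `t ↦ mul η (x - t)` on the circle -/
noncomputable def gg {η : ℝ} (hη : 0 < η) (x : ℝ) : C(AddCircle (1 : ℝ), ℂ) where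
  toFun := Function.Periodic.lift (f := fun t : ℝ => ((mul η (x - t) : ℝ) : ℂ)) (c := 1) (by
    intro t
    have h := mul_periodic η (x - (t + 1))
    have h2 : x - (t + 1) + 1 = x - t := by ring
    rw [h2] at h
    simp only
    rw [h])
  continuous_toFun := by
    apply continuous_quot_lift
    have := mul_continuous hη
    fun_prop

lemma gg_apply {η : ℝ} (hη : 0 < η) (x t : ℝ) :
    gg hη x (t : AddCircle (1 : ℝ)) = ((mul η (x - t) : ℝ) : ℂ) := rfl

lemma A_re (n : ℕ) (f : ℝ → ℂ) : A n (fun t => (f t).re) = (A n f).re :=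
  A_map Complex.reLm n f

lemma A_im (n : ℕ) (f : ℝ → ℂ) : A n (fun t => (f t).im) = (A n f).im :=
  A_map Complex.imLm n f

/-- the averaged Dirichlet kernel tends to zero off the limit set -/
lemma DN_small (x η : ℝ) (hη : 0 < η) (n₀ : ℕ)
    (hsep : ∀ n, n₀ ≤ n → ∀ t ∈ S n, η ≤ Real.sin (Real.pi * (x - t)) ^ 2) (ε : ℝ) (hε : 0 < ε) :
    ∃ N₀ : ℕ, ∀ N, N₀ ≤ N → ∀ᶠ n in atTop, |A n (fun t => DN N (x - t))| ≤ ε := by
  obtain ⟨K1, hK1⟩ := A_e_small (ε / 2) (by positivity)
  obtain ⟨K2, hK2⟩ := good_all (gg hη x) (ε / 2) (by positivity)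
  refine ⟨max K1 K2, fun N hN => ?_⟩
  have hk1 : K1 ≤ (-(N : ℤ)).natAbs := by
    have := (le_max_left K1 K2).trans hN
    omega
  have hk2 : K2 ≤ (-(N : ℤ)).natAbs := by
    have := (le_max_right K1 K2).trans hN
    omega
  filter_upwards [hK1 _ hk1, hK2 _ hk2, eventually_ge_atTop n₀] with n h1 h2 hn
  have e1 : A n (fun t => DN N (x - t)) =
      A n (fun t => (e N x * e (-(N : ℤ)) t).re +
        (e N x * (gg hη x (t : AddCircle (1 : ℝ)) * e (-(N : ℤ)) t)).im) := by
    apply A_congr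
    intro t ht
    rw [DN_eq hη N (x - t) (hsep n hn t ht), gg_apply]
    have h3 : e N x * e (-(N : ℤ)) t = Complex.exp (((2 * Real.pi * N * (x - t) : ℝ) : ℂ) *
        Complex.I) := by
      rw [e_eq, e_eq, ← Complex.exp_add]
      congr 1
      push_cast
      ring
    have h4 : e N x * (((mul η (x - t) : ℝ) : ℂ) * e (-(N : ℤ)) t) =
        ((mul η (x - t) : ℝ) : ℂ) * (e N x * e (-(N : ℤ)) t) := by ring
    rw [h4, h3, Complex.exp_ofReal_mul_I_re, Complex.im_ofReal_mul, Complex.exp_ofReal_mul_I_im]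
    ring
  rw [e1, A_add, A_re, A_im, A_const_mul, A_const_mul]
  have h5 := Complex.abs_re_le_norm (e N x * A n (e (-(N : ℤ))))
  have h6 := Complex.abs_im_le_norm (e N x * A n (fun t : ℝ =>
    gg hη x (t : AddCircle (1 : ℝ)) * e (-(N : ℤ)) t))
  rw [norm_mul, norm_e, one_mul] at h5 h6
  have h7 := abs_add_le (e N x * A n (e (-(N : ℤ)))).re (e N x * A n (fun t : ℝ =>
    gg hη x (t : AddCircle (1 : ℝ)) * e (-(N : ℤ)) t)).im
  have h8 : A n (fun t => e (-(N : ℤ)) t) = A n (e (-(N : ℤ))) := rfl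
  rw [h8]
  linarith

end Pool.Agent.H747R3.Moran
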