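import Pool.Agent.H747R3.MoranB

set_option autoImplicit false

open MeasureTheory Filter Topology

namespace Pool.Agent.H747R3.Moran

/-- the limit set -/
def KK : Set ℝ := {x | ∃ d : ℕ → ℕ, (∀ n, d n ∈ D n) ∧
  HasSum (fun n => (d n : ℝ) / ∏ i ∈ Finset.range (n + 1), ((M i : ℕ) : ℝ)) x}

lemma KK_def : KK = {x | ∃ d : ℕ → ℕ, (∀ n, d n ∈ D n) ∧
    HasSum (fun n => (d n : ℝ) / P (n + 1)) x} := rfl

noncomputable def term (n : ℕ) (d : ℕ → ℕ) : ℝ := ((min (d n) (n + 1) : ℕ) : ℝ) / P (n + 1)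

lemma term_bound (n : ℕ) (d : ℕ → ℕ) : ‖term n d‖ ≤ (1 / 3 : ℝ) ^ n := by
  unfold term
  have hP := P_pos n
  have hP1 := P_pos (n + 1)
  rw [Real.norm_of_nonneg (by positivity)]
  have h1 : ((min (d n) (n + 1) : ℕ) : ℝ) ≤ (n : ℝ) + 1 := by
    exact_mod_cast min_le_right _ _
  calc ((min (d n) (n + 1) : ℕ) : ℝ) / P (n + 1) ≤ 1 / P n := by
        rw [div_le_div_iff₀ hP1 hP, P_succ]
        nlinarith
    _ ≤ (1 / 3 : ℝ) ^ n := by
        rw [div_pow, one_pow]
        exact one_div_le_one_div_of_le (by positivity) (P_ge n)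

lemma summ_geo : Summable (fun n : ℕ => (1 / 3 : ℝ) ^ n) :=
  summable_geometric_of_lt_one (by norm_num) (by norm_num)

lemma term_cont : Continuous (fun d : ℕ → ℕ => ∑' n, term n d) := by
  apply continuous_tsum (u := fun n : ℕ => (1 / 3 : ℝ) ^ n) _ summ_geo term_bound
  intro n
  have : term n = (fun j : ℕ => ((min j (n + 1) : ℕ) : ℝ) / P (n + 1)) ∘ (fun d : ℕ → ℕ => d n) := rfl
  rw [this]
  exact continuous_of_discreteTopology.comp (continuous_apply n)

lemma term_eq {d : ℕ → ℕ} (hd : ∀ n, d n ∈ D n) (n : ℕ) : term n d = (d n : ℝ) / P (n + 1) := by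
  unfold term
  rw [min_eq_left (D_pos n (hd n)).2]

lemma hasSum_digits {d : ℕ → ℕ} (hd : ∀ n, d n ∈ D n) :
    HasSum (fun n => (d n : ℝ) / P (n + 1)) (∑' n, term n d) := by
  have h1 : Summable (fun n => term n d) :=
    Summable.of_norm_bounded summ_geo (fun n => term_bound n d)
  have h2 := h1.hasSum
  simp_rw [term_eq hd] at h2 ⊢
  exact h2

lemma KK_compact : IsCompact KK := by
  have h1 : KK = (fun d : ℕ → ℕ => ∑' n, term n d) '' (Set.pi Set.univ fun n => (D n : Set ℕ)) := by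
    ext x
    constructor
    · rintro ⟨d, hd, hs⟩
      refine ⟨d, fun n _ => hd n, ?_⟩
      exact (hasSum_digits hd).unique hs
    · rintro ⟨d, hd, rfl⟩
      exact ⟨d, fun n => hd n trivial, hasSum_digits fun n => hd n trivial⟩
  rw [h1]
  apply IsCompact.image _ term_cont
  exact isCompact_univ_pi fun n => (D n).finite_toSet.isCompact

/-- finite set of level `n` points -/
noncomputable def Sf : ℕ → Finset ℝ
  | 0 => {0}
  | (n + 1) => (Sf n ×ˢ D n).image (fun p => p.1 + (p.2 : ℝ) / P (n + 1))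

lemma Sf_eq (n : ℕ) : (Sf n : Set ℝ) = S n := by
  induction n with
  | zero => simp [Sf, S]
  | succ n ih =>
    ext y
    simp only [Sf, S, Finset.coe_image, Set.mem_image, Finset.mem_coe, Finset.mem_product,
      Set.mem_ofPred_eq, Prod.exists]
    constructor
    · rintro ⟨a, b, ⟨ha, hb⟩, rfl⟩
      have : a ∈ (Sf n : Set ℝ) := ha
      rw [ih] at this
      exact ⟨a, this, b, hb, rfl⟩
    · rintro ⟨a, ha, b, hb, rfl⟩
      rw [← ih] at ha
      exact ⟨a, b, ⟨ha, hb⟩, rfl⟩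

lemma card_Sf (n : ℕ) : (Sf n).card ≤ n.factorial := by
  induction n with
  | zero => simp [Sf]
  | succ n ih =>
    unfold Sf
    refine Finset.card_image_le.trans ?_
    rw [Finset.card_product, card_D, Nat.factorial_succ, mul_comm]
    gcongr

lemma P_eq (n : ℕ) : 2 * P n = (n.factorial : ℝ) * (((n : ℝ) + 1) * ((n : ℝ) + 2)) := by
  induction n with
  | zero => simp [P_zero]
  | succ n ih =>
    rw [P_succ, Nat.factorial_succ]
    push_cast
    have : 2 * (P n * ((n : ℝ) + 3)) = (2 * P n) * ((n : ℝ) + 3) := by ring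
    rw [this, ih]
    ring

/-- partial sums of a digit expansion -/
lemma partial_mem {d : ℕ → ℕ} (hd : ∀ n, d n ∈ D n) (n : ℕ) :
    ∑ i ∈ Finset.range n, (d i : ℝ) / P (i + 1) ∈ S n := by
  induction n with
  | zero => simp [S]
  | succ n ih =>
    rw [Finset.sum_range_succ]
    exact ⟨_, ih, d n, hd n, rfl⟩

lemma upper_anti {d : ℕ → ℕ} (hd : ∀ n, d n ∈ D n) :
    Antitone (fun n => ∑ i ∈ Finset.range n, (d i : ℝ) / P (i + 1) + 1 / P n) := by
  apply antitone_nat_of_succ_le
  intro n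
  rw [Finset.sum_range_succ]
  have h1 : (d n : ℝ) / P (n + 1) + 1 / P (n + 1) ≤ 1 / P n := by
    have hP := P_pos n
    have hP1 := P_pos (n + 1)
    rw [← add_div, div_le_div_iff₀ hP1 hP, P_succ]
    have h2 : (d n : ℝ) ≤ n + 1 := by exact_mod_cast (D_pos n (hd n)).2
    nlinarith
  linarith

lemma tendsto_inv_P : Tendsto (fun n => 1 / P n) atTop (𝓝 0) := by
  have h1 : Tendsto (fun n : ℕ => (1 / 3 : ℝ) ^ n) atTop (𝓝 0) :=
    tendsto_pow_atTop_nhds_zero_of_lt_one (by norm_num) (by norm_num)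
  refine squeeze_zero (fun n => by have := P_pos n; positivity) (fun n => ?_) h1
  rw [div_pow, one_pow]
  exact one_div_le_one_div_of_le (by positivity) (P_ge n)

lemma point_near {d : ℕ → ℕ} (hd : ∀ n, d n ∈ D n) {x : ℝ}
    (hx : HasSum (fun n => (d n : ℝ) / P (n + 1)) x) (n : ℕ) :
    ∑ i ∈ Finset.range n, (d i : ℝ) / P (i + 1) ≤ x ∧
      x ≤ ∑ i ∈ Finset.range n, (d i : ℝ) / P (i + 1) + 1 / P n := by
  constructor
  · apply sum_le_hasSum _ _ hx
    intro i _
    have := P_pos (i + 1)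
    positivity
  · have h1 := hx.tendsto_sum_nat.add tendsto_inv_P
    rw [add_zero] at h1
    exact (upper_anti hd).le_of_tendsto h1 n

lemma KK_subset (n : ℕ) : KK ⊆ ⋃ t ∈ Sf n, Set.Icc t (t + 1 / P n) := by
  rintro x ⟨d, hd, hs⟩
  have h := point_near hd hs n
  have h2 := partial_mem hd n
  rw [← Sf_eq] at h2
  exact Set.mem_biUnion h2 ⟨h.1, h.2⟩

lemma KK_volume : volume KK = 0 := by
  have h1 : ∀ n : ℕ, volume KK ≤ ENNReal.ofReal (2 / ((n : ℝ) + 1)) := by
    intro n
    have hP := P_pos n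
    calc volume KK ≤ volume (⋃ t ∈ Sf n, Set.Icc t (t + 1 / P n)) := measure_mono (KK_subset n)
      _ ≤ ∑ t ∈ Sf n, volume (Set.Icc t (t + 1 / P n)) := measure_biUnion_finset_le _ _
      _ = ∑ t ∈ Sf n, ENNReal.ofReal (1 / P n) := by
          apply Finset.sum_congr rfl
          intro t _
          rw [Real.volume_Icc]
          congr 1
          ring
      _ = ENNReal.ofReal ((Sf n).card * (1 / P n)) := by
          rw [Finset.sum_const, nsmul_eq_mul, ENNReal.ofReal_mul (by positivity)]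
          simp
      _ ≤ ENNReal.ofReal (2 / ((n : ℝ) + 1)) := by
          apply ENNReal.ofReal_le_ofReal
          have h2 : ((Sf n).card : ℝ) ≤ n.factorial := by exact_mod_cast card_Sf n
          have h3 := P_eq n
          have h4 : (0 : ℝ) < n.factorial := by exact_mod_cast Nat.factorial_pos n
          have h5 : (0 : ℝ) ≤ n := Nat.cast_nonneg n
          rw [mul_one_div, div_le_div_iff₀ hP (by positivity)]
          have h6 : ((Sf n).card : ℝ) * ((n : ℝ) + 1) ≤ n.factorial * ((n : ℝ) + 1) := by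
            gcongr
          have h7 : (n.factorial : ℝ) * ((n : ℝ) + 1) ≤
              (n.factorial : ℝ) * (((n : ℝ) + 1) * ((n : ℝ) + 2)) := by
            gcongr
            nlinarith
          linarith
  have h2 : Tendsto (fun n : ℕ => ENNReal.ofReal (2 / ((n : ℝ) + 1))) atTop (𝓝 0) := by
    have h3 : Tendsto (fun n : ℕ => 2 / ((n : ℝ) + 1)) atTop (𝓝 0) :=
      tendsto_const_nhds.div_atTop
        (tendsto_atTop_add_const_right _ _ tendsto_natCast_atTop_atTop)
    have h4 := ENNReal.tendsto_ofReal h3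
    simpa using h4
  exact le_antisymm (ge_of_tendsto' h2 h1) bot_le

/-- every level `n` point is `1 / P n`-close to the limit set -/
lemma S_near (n : ℕ) (t : ℝ) (ht : t ∈ S n) : ∃ x ∈ KK, |t - x| ≤ 1 / P n := by
  have h1 : ∀ n t, t ∈ S n → ∃ d : ℕ → ℕ, (∀ i, d i ∈ D i) ∧
      t = ∑ i ∈ Finset.range n, (d i : ℝ) / P (i + 1) := by
    intro n
    induction n with
    | zero =>
      intro t ht
      refine ⟨fun _ => 1, fun i => by simp [D], ?_⟩
      have : t = 0 := ht
      simp [this]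
    | succ n ih =>
      rintro t ⟨y, hy, b, hb, rfl⟩
      obtain ⟨d, hd, rfl⟩ := ih y hy
      refine ⟨fun i => if i = n then b else d i, fun i => ?_, ?_⟩
      · by_cases h : i = n
        · simp only [h, if_true]
          exact hb
        · simp only [h, if_false]
          exact hd i
      · rw [Finset.sum_range_succ]
        simp only [if_true]
        congr 1
        apply Finset.sum_congr rfl
        intro i hi
        have : i ≠ n := (Finset.mem_range.mp hi).ne
        simp [this]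
  obtain ⟨d, hd, rfl⟩ := h1 n t ht
  have hs := hasSum_digits hd
  refine ⟨_, ⟨d, hd, hs⟩, ?_⟩
  have h := point_near hd hs n
  rw [abs_le]
  constructor <;> linarith

lemma S_range (n : ℕ) (hn : 1 ≤ n) (t : ℝ) (ht : t ∈ S n) : 1 / 3 ≤ t ∧ t + 1 / P n ≤ 2 / 3 := by
  induction n, hn using Nat.le_induction generalizing t with
  | base =>
    obtain ⟨y, hy, d, hd, rfl⟩ := ht
    have h1 : y = 0 := hy
    have h2 := D_pos 0 hd
    have h3 : d = 1 := by omega
    have h4 : P (0 + 1) = 3 := by rw [P_succ, P_zero]; norm_num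
    rw [h1, h3]
    simp only [Nat.reduceAdd] at *
    rw [h4]
    norm_num
  | succ n hn ih =>
    obtain ⟨y, hy, d, hd, rfl⟩ := ht
    have h := ih y hy
    have hP := P_pos n
    have hP1 := P_pos (n + 1)
    constructor
    · have : (0 : ℝ) ≤ (d : ℝ) / P (n + 1) := by positivity
      linarith [h.1]
    · have h1 : (d : ℝ) / P (n + 1) + 1 / P (n + 1) ≤ 1 / P n := by
        rw [← add_div, div_le_div_iff₀ hP1 hP, P_succ]
        have h2 : (d : ℝ) ≤ n + 1 := by exact_mod_cast (D_pos n hd).2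
        nlinarith
      linarith [h.2]

lemma sep (x : ℝ) (hx0 : 0 ≤ x) (hx1 : x ≤ 1) (hx : x ∉ KK) : ∃ η : ℝ, 0 < η ∧ ∃ n₀ : ℕ,
    ∀ n, n₀ ≤ n → ∀ t ∈ S n, η ≤ Real.sin (Real.pi * (x - t)) ^ 2 := by
  have hcl : IsClosed KK := KK_compact.isClosed
  have hne : KK.Nonempty := by
    obtain ⟨y, hy, _⟩ := S_near 0 0 rfl
    exact ⟨y, hy⟩
  have hpos : 0 < Metric.infDist x KK := (hcl.notMem_iff_infDist_pos hne).mp hx
  set δ := Metric.infDist x KK with hδ
  have hev : ∀ᶠ n in atTop, 1 / P n < δ / 2 := tendsto_inv_P.eventually (gt_mem_nhds (by positivity))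
  obtain ⟨n₁, hn₁⟩ := eventually_atTop.mp hev
  set m := min (δ / 2) (1 / 3 : ℝ) with hm
  have hm0 : 0 < m := by positivity
  refine ⟨(2 * m) ^ 2, by positivity, max n₁ 1, fun n hn t ht => ?_⟩
  have hn1 : n₁ ≤ n := (le_max_left _ _).trans hn
  have hn2 : 1 ≤ n := (le_max_right _ _).trans hn
  obtain ⟨y, hy, hty⟩ := S_near n t ht
  have h1 : δ ≤ |x - y| := by
    have := Metric.infDist_le_dist_of_mem (x := x) hy
    rwa [Real.dist_eq] at this
  have h2 := hn₁ n hn1
  have h3 : δ / 2 ≤ |x - t| := by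
    have := abs_sub_le x t y
    linarith
  have h4 := S_range n hn2 t ht
  have hP := P_pos n
  have hPi : 0 < 1 / P n := by positivity
  have h5 : |x - t| ≤ 2 / 3 := by
    rw [abs_le]
    constructor <;> linarith
  have hs : Real.sin (Real.pi * (x - t)) ^ 2 = Real.sin (Real.pi * |x - t|) ^ 2 := by
    rcases abs_cases (x - t) with ⟨h, _⟩ | ⟨h, _⟩
    · rw [h]
    · rw [h, mul_neg, Real.sin_neg, neg_sq]
  rw [hs]
  apply pow_le_pow_left₀ (by positivity)
  rcases le_or_gt |x - t| (1 / 2) with h6 | h6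
  · have := sin_low (abs_nonneg (x - t)) h6
    have h7 : m ≤ δ / 2 := min_le_left _ _
    linarith
  · have h7 : Real.sin (Real.pi * |x - t|) = Real.sin (Real.pi * (1 - |x - t|)) := by
      rw [mul_sub, mul_one, Real.sin_pi_sub]
    rw [h7]
    have := sin_low (y := 1 - |x - t|) (by linarith) (by linarith)
    have h8 : m ≤ 1 / 3 := min_le_right _ _
    linarith

/-! ### The series -/

lemma ex_cos (k : ℕ) : ∃ z : ℝ, Tendsto (fun n => A n (fun t : ℝ => Real.cos (2 * Real.pi * k * t)))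
    atTop (𝓝 z) := by
  apply A_conv _ (2 * Real.pi * k) (by positivity)
  intro x y
  rw [Real.norm_eq_abs]
  refine (Real.abs_cos_sub_cos_le _ _).trans ?_
  rw [← mul_sub, abs_mul, abs_of_nonneg (by positivity : (0 : ℝ) ≤ 2 * Real.pi * k)]

lemma ex_sin (k : ℕ) : ∃ z : ℝ, Tendsto (fun n => A n (fun t : ℝ => Real.sin (2 * Real.pi * k * t)))
    atTop (𝓝 z) := by
  apply A_conv _ (2 * Real.pi * k) (by positivity)
  intro x y
  rw [Real.norm_eq_abs]
  refine (Real.abs_sin_sub_sin_le _ _).trans ?_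
  rw [← mul_sub, abs_mul, abs_of_nonneg (by positivity : (0 : ℝ) ≤ 2 * Real.pi * k)]

lemma A_real_mul (n : ℕ) (c : ℝ) (f : ℝ → ℝ) : A n (fun t => c * f t) = c * A n f := by
  have h := A_map (LinearMap.mulLeft ℝ c : ℝ →ₗ[ℝ] ℝ) n f
  simpa using h

lemma A_one (n : ℕ) : A n (fun _ : ℝ => (1 : ℝ)) = 1 := by
  induction n with
  | zero => rfl
  | succ n ih =>
    show ((n : ℝ) + 1)⁻¹ • ∑ d ∈ D n, A n (fun _ : ℝ => (1 : ℝ)) = 1
    rw [ih, Finset.sum_const, card_D]
    have : (0 : ℝ) < (n : ℝ) + 1 := by positivity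
    simp
    field_simp

theorem main : ∃ a b : ℕ → ℝ, a 0 = 1 ∧
    ∀ x ∈ Set.Icc (0 : ℝ) 1 \ KK, Tendsto (fun N : ℕ => ∑ n ∈ Finset.range N,
      (a n * Real.cos (2 * Real.pi * n * x) + b n * Real.sin (2 * Real.pi * n * x))) atTop (𝓝 0) := by
  choose ca hca using ex_cos
  choose sa hsa using ex_sin
  refine ⟨fun n => if n = 0 then 1 else 2 * ca n, fun n => 2 * sa n, by simp, ?_⟩
  rintro x ⟨hx01, hx⟩
  obtain ⟨η, hη, n₀, hsep⟩ := sep x hx01.1 hx01.2 hx
  rw [← tendsto_add_atTop_iff_nat 1]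
  -- partial sums are limits of averages of the Dirichlet kernel
  have hlim : ∀ N : ℕ, Tendsto (fun n => A n (fun t => DN N (x - t))) atTop
      (𝓝 (∑ n ∈ Finset.range (N + 1), ((if n = 0 then 1 else 2 * ca n) *
        Real.cos (2 * Real.pi * n * x) + (2 * sa n) * Real.sin (2 * Real.pi * n * x)))) := by
    intro N
    have h1 : ∀ n, A n (fun t => DN N (x - t)) = 1 + ∑ k ∈ Finset.range N,
        ((2 * Real.cos (2 * Real.pi * ((k + 1 : ℕ) : ℝ) * x)) *
            A n (fun t : ℝ => Real.cos (2 * Real.pi * ((k + 1 : ℕ) : ℝ) * t)) +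
          (2 * Real.sin (2 * Real.pi * ((k + 1 : ℕ) : ℝ) * x)) *
            A n (fun t : ℝ => Real.sin (2 * Real.pi * ((k + 1 : ℕ) : ℝ) * t))) := by
      intro n
      have h2 : (fun t => DN N (x - t)) = fun t => 1 + ∑ k ∈ Finset.range N,
          ((2 * Real.cos (2 * Real.pi * ((k + 1 : ℕ) : ℝ) * x)) *
              Real.cos (2 * Real.pi * ((k + 1 : ℕ) : ℝ) * t) +
            (2 * Real.sin (2 * Real.pi * ((k + 1 : ℕ) : ℝ) * x)) *
              Real.sin (2 * Real.pi * ((k + 1 : ℕ) : ℝ) * t)) := by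
        funext t
        unfold DN
        rw [Finset.mul_sum]
        congr 1
        apply Finset.sum_congr rfl
        intro k _
        have : 2 * Real.pi * ((k : ℝ) + 1) * (x - t) = 2 * Real.pi * ((k + 1 : ℕ) : ℝ) * x -
            2 * Real.pi * ((k + 1 : ℕ) : ℝ) * t := by
          push_cast
          ring
        rw [this, Real.cos_sub]
        ring
      rw [h2, A_add, A_one, A_sum]
      congr 1
      apply Finset.sum_congr rfl
      intro k _
      rw [A_add, A_real_mul, A_real_mul]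
    simp_rw [h1]
    rw [Finset.sum_range_succ']
    have h3 : (∑ k ∈ Finset.range N, ((if k + 1 = 0 then 1 else 2 * ca (k + 1)) *
        Real.cos (2 * Real.pi * ((k + 1 : ℕ) : ℝ) * x) + (2 * sa (k + 1)) *
          Real.sin (2 * Real.pi * ((k + 1 : ℕ) : ℝ) * x)) +
        ((if (0 : ℕ) = 0 then 1 else 2 * ca 0) * Real.cos (2 * Real.pi * ((0 : ℕ) : ℝ) * x) +
          (2 * sa 0) * Real.sin (2 * Real.pi * ((0 : ℕ) : ℝ) * x))) =
        1 + ∑ k ∈ Finset.range N,
        ((2 * Real.cos (2 * Real.pi * ((k + 1 : ℕ) : ℝ) * x)) * ca (k + 1) +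
          (2 * Real.sin (2 * Real.pi * ((k + 1 : ℕ) : ℝ) * x)) * sa (k + 1)) := by
      rw [add_comm]
      congr 1
      · simp
      · apply Finset.sum_congr rfl
        intro k _
        rw [if_neg (Nat.succ_ne_zero k)]
        ring
    rw [h3]
    apply tendsto_const_nhds.add
    apply tendsto_finsetSum
    intro k _
    exact ((hca (k + 1)).const_mul _).add ((hsa (k + 1)).const_mul _)
  rw [Metric.tendsto_atTop]
  intro ε hε
  obtain ⟨N₀, hN₀⟩ := DN_small x η hη n₀ hsep (ε / 2) (by positivity)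
  refine ⟨N₀, fun N hN => ?_⟩
  have h1 := le_of_tendsto ((hlim N).abs) (hN₀ N hN)
  rw [Real.dist_eq, sub_zero]
  exact lt_of_le_of_lt h1 (by linarith)

end Pool.Agent.H747R3.Moran
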