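import Mathlib

set_option autoImplicit false

open MeasureTheory Filter Topology

namespace Pool.Agent.H747R3.U

/-! ### Variation of `sinc ^ 2` -/

lemma sinc_deriv_bound {x : ℝ} (hx : 0 < x) :
    |(x * Real.cos x - Real.sin x) / x ^ 2| ≤ 2 := by
  rw [abs_div, abs_of_pos (by positivity : (0 : ℝ) < x ^ 2), div_le_iff₀ (by positivity)]
  rcases le_or_gt x 1 with h | h
  · have h1 : 1 - x ^ 2 / 2 ≤ Real.cos x := Real.one_sub_sq_div_two_le_cos
    have h2 : Real.cos x ≤ 1 := Real.cos_le_one x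
    have h3 : Real.sin x ≤ x := Real.sin_le hx.le
    have h4 : x - x ^ 3 / 6 < Real.sin x := Real.sin_gt_sub_cube hx
    rw [abs_le]
    constructor <;> nlinarith [mul_pos hx hx, pow_pos hx 3]
  · have h1 := Real.abs_cos_le_one x
    have h2 := Real.abs_sin_le_one x
    calc |x * Real.cos x - Real.sin x| ≤ |x * Real.cos x| + |Real.sin x| := abs_sub _ _
      _ ≤ x * 1 + 1 := by
          rw [abs_mul, abs_of_pos hx]
          gcongr
      _ ≤ 2 * x ^ 2 := by nlinarith

lemma sinc_lip {u v : ℝ} (hu : 0 < u) (hv : 0 < v) :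
    |Real.sinc u - Real.sinc v| ≤ 2 * |u - v| := by
  have hd : ∀ x ∈ Set.Ioi (0 : ℝ), HasDerivWithinAt Real.sinc
      ((x * Real.cos x - Real.sin x) / x ^ 2) (Set.Ioi 0) x := by
    intro x hx
    have hx0 : x ≠ 0 := ne_of_gt hx
    have h1 : HasDerivAt (fun y => Real.sin y / y) ((Real.cos x * x - Real.sin x * 1) / x ^ 2) x :=
      (Real.hasDerivAt_sin x).div (hasDerivAt_id x) hx0
    have h2 : HasDerivAt Real.sinc ((Real.cos x * x - Real.sin x * 1) / x ^ 2) x := by
      apply h1.congr_of_eventuallyEq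
      filter_upwards [isOpen_ne.mem_nhds hx0] with y hy
      exact Real.sinc_of_ne_zero hy
    have h3 : (Real.cos x * x - Real.sin x * 1) / x ^ 2 = (x * Real.cos x - Real.sin x) / x ^ 2 := by
      ring
    rw [h3] at h2
    exact h2.hasDerivWithinAt
  have h := (convex_Ioi (0 : ℝ)).norm_image_sub_le_of_norm_hasDerivWithin_le hd
    (fun x hx => sinc_deriv_bound hx) (Set.mem_Ioi.mpr hv) (Set.mem_Ioi.mpr hu)
  exact h

/-- `φ(u) = sinc(u)^2` -/
noncomputable def phi (u : ℝ) : ℝ := Real.sinc u ^ 2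

lemma phi_nonneg (u : ℝ) : 0 ≤ phi u := sq_nonneg _

lemma phi_le_one (u : ℝ) : phi u ≤ 1 := by
  unfold phi
  have := Real.abs_sinc_le_one u
  rw [← sq_abs]
  have h0 := abs_nonneg (Real.sinc u)
  nlinarith

lemma phi_zero : phi 0 = 1 := by simp [phi]

lemma phi_cont : Continuous phi := by
  unfold phi
  exact Real.continuous_sinc.pow 2

lemma phi_le {u : ℝ} (hu : 0 < u) : phi u ≤ 1 / u ^ 2 := by
  unfold phi
  rw [Real.sinc_of_ne_zero hu.ne', div_pow]
  gcongr
  have := Real.abs_sin_le_one u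
  rw [← sq_abs]
  have h0 := abs_nonneg (Real.sin u)
  nlinarith

lemma phi_sub_small {u v : ℝ} (hu : 0 < u) (hv : 0 < v) : |phi u - phi v| ≤ 4 * |u - v| := by
  unfold phi
  have h1 := sinc_lip hu hv
  have h2 := Real.abs_sinc_le_one u
  have h3 := Real.abs_sinc_le_one v
  have h4 : Real.sinc u ^ 2 - Real.sinc v ^ 2 = (Real.sinc u + Real.sinc v) *
      (Real.sinc u - Real.sinc v) := by ring
  rw [h4, abs_mul]
  have h5 : |Real.sinc u + Real.sinc v| ≤ 2 := (abs_add_le _ _).trans (by linarith)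
  calc |Real.sinc u + Real.sinc v| * |Real.sinc u - Real.sinc v| ≤ 2 * (2 * |u - v|) := by gcongr
    _ = 4 * |u - v| := by ring

lemma phi_sub_large {u v : ℝ} (hu : 0 < u) (huv : u < v) :
    |phi u - phi v| ≤ 4 * (v - u) / (u * v) := by
  have hv : 0 < v := hu.trans huv
  unfold phi
  have e1 : Real.sinc u = Real.sin u / u := Real.sinc_of_ne_zero hu.ne'
  have e2 : Real.sinc v = Real.sin v / v := Real.sinc_of_ne_zero hv.ne'
  have h1 : |Real.sinc u - Real.sinc v| ≤ 2 * (v - u) / v := by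
    have h2 : Real.sinc u - Real.sinc v =
        ((v - u) * Real.sin u + u * (Real.sin u - Real.sin v)) / (u * v) := by
      rw [e1, e2]
      field_simp
      ring
    rw [h2, abs_div, abs_of_pos (by positivity : 0 < u * v), div_le_div_iff₀ (by positivity) hv]
    have h3 : |Real.sin u| ≤ u := by
      have := Real.abs_sin_le_abs (x := u)
      rwa [abs_of_pos hu] at this
    have h4 : |Real.sin u - Real.sin v| ≤ v - u := by
      have := Real.abs_sin_sub_sin_le u v
      rwa [abs_sub_comm u v, abs_of_pos (by linarith : 0 < v - u)] at this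
    have h5 : |(v - u) * Real.sin u + u * (Real.sin u - Real.sin v)| ≤ 2 * (v - u) * u := by
      calc _ ≤ |(v - u) * Real.sin u| + |u * (Real.sin u - Real.sin v)| := abs_add_le _ _
        _ = (v - u) * |Real.sin u| + u * |Real.sin u - Real.sin v| := by
            rw [abs_mul, abs_mul, abs_of_pos hu, abs_of_pos (by linarith : 0 < v - u)]
        _ ≤ (v - u) * u + u * (v - u) := by
            have : 0 < v - u := by linarith
            gcongr
        _ = 2 * (v - u) * u := by ring
    calc _ ≤ 2 * (v - u) * u * v := by gcongr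
      _ = 2 * (v - u) * (u * v) := by ring
  have h6 : |Real.sinc u + Real.sinc v| ≤ 2 / u := by
    have h7 : |Real.sinc u| ≤ 1 / u := by
      rw [e1, abs_div, abs_of_pos hu]
      gcongr
      exact Real.abs_sin_le_one u
    have h8 : |Real.sinc v| ≤ 1 / u := by
      rw [e2, abs_div, abs_of_pos hv]
      calc |Real.sin v| / v ≤ 1 / v := by
            gcongr
            exact Real.abs_sin_le_one v
        _ ≤ 1 / u := by gcongr
    calc _ ≤ |Real.sinc u| + |Real.sinc v| := abs_add_le _ _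
      _ ≤ 1 / u + 1 / u := by gcongr
      _ = 2 / u := by ring
  have h4 : Real.sinc u ^ 2 - Real.sinc v ^ 2 = (Real.sinc u + Real.sinc v) *
      (Real.sinc u - Real.sinc v) := by ring
  rw [h4, abs_mul]
  have h9 : 0 < v - u := by linarith
  calc |Real.sinc u + Real.sinc v| * |Real.sinc u - Real.sinc v| ≤ 2 / u * (2 * (v - u) / v) := by
        gcongr
    _ = 4 * (v - u) / (u * v) := by
        field_simp
        ring

/-- the decreasing majorant controlling the variation -/
noncomputable def psi (θ : ℝ) (n : ℕ) : ℝ := 24 / (1 + n * θ)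

lemma phi_var {θ : ℝ} (hθ : 0 < θ) (hθ1 : θ ≤ 1) (n : ℕ) :
    |phi (n * θ) - phi ((n + 1 : ℕ) * θ)| ≤ psi θ n - psi θ (n + 1) := by
  have hn : (0 : ℝ) ≤ n := Nat.cast_nonneg n
  have e : psi θ n - psi θ (n + 1) = 24 * θ / ((1 + n * θ) * (1 + (n + 1) * θ)) := by
    unfold psi
    push_cast
    field_simp
    ring
  rw [e]
  rcases le_or_gt ((n : ℝ) * θ) 1 with h | h
  · have h1 : (1 + (n : ℝ) * θ) * (1 + (n + 1) * θ) ≤ 6 := by
      have h2 : (1 + (n : ℝ) * θ) ≤ 2 := by linarith
      have h3 : (1 + ((n : ℝ) + 1) * θ) ≤ 3 := by linarith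
      have h4 : (0 : ℝ) ≤ 1 + n * θ := by positivity
      have h5 : (0 : ℝ) ≤ 1 + (n + 1) * θ := by positivity
      nlinarith
    have h2 : 4 * θ ≤ 24 * θ / ((1 + n * θ) * (1 + (n + 1) * θ)) := by
      rw [le_div_iff₀ (by positivity)]
      nlinarith
    refine le_trans ?_ h2
    rcases Nat.eq_zero_or_pos n with h0 | h0
    · subst h0
      simp only [Nat.cast_zero, zero_mul, zero_add, Nat.cast_one, one_mul]
      -- compare with a limit of positive arguments
      have hlim : Tendsto (fun u : ℝ => |phi u - phi θ|) (𝓝[>] 0) (𝓝 |phi 0 - phi θ|) :=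
        ((phi_cont.tendsto 0).sub_const _).abs.mono_left nhdsWithin_le_nhds
      have hlim2 : Tendsto (fun u : ℝ => 4 * |u - θ|) (𝓝[>] 0) (𝓝 (4 * |0 - θ|)) := by
        have : Continuous fun u : ℝ => 4 * |u - θ| := by fun_prop
        exact (this.tendsto 0).mono_left nhdsWithin_le_nhds
      have h3 := le_of_tendsto_of_tendsto hlim hlim2 (by
        filter_upwards [self_mem_nhdsWithin] with u hu
        exact phi_sub_small hu hθ)
      rw [zero_sub, abs_neg, abs_of_pos hθ] at h3
      exact h3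
    · have h0' : (0 : ℝ) < n := by exact_mod_cast h0
      have h3 := phi_sub_small (u := n * θ) (v := (n + 1 : ℕ) * θ) (by positivity) (by positivity)
      have h4 : (n : ℝ) * θ - (n + 1 : ℕ) * θ = -θ := by push_cast; ring
      rw [h4, abs_neg, abs_of_pos hθ] at h3
      exact h3
  · have hn0 : 0 < (n : ℝ) := by
      rcases hn.lt_or_eq with h1 | h1
      · exact h1
      · rw [← h1] at h; simp at h; linarith
    have h3 := phi_sub_large (u := n * θ) (v := (n + 1 : ℕ) * θ) (by positivity) (by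
      push_cast; nlinarith)
    refine h3.trans ?_
    have h4 : ((n + 1 : ℕ) : ℝ) * θ - n * θ = θ := by push_cast; ring
    rw [h4]
    push_cast
    rw [div_le_div_iff₀ (by positivity) (by positivity)]
    have h5 : (1 + (n : ℝ) * θ) ≤ 2 * (n * θ) := by linarith
    have h6 : (1 + ((n : ℝ) + 1) * θ) ≤ 2 * ((n + 1) * θ) := by nlinarith
    have h7 : (1 + (n : ℝ) * θ) * (1 + (n + 1) * θ) ≤ (2 * (n * θ)) * (2 * ((n + 1) * θ)) := by
      gcongr
    have h8 : 0 ≤ θ * ((n : ℝ) * θ * ((n + 1) * θ)) := by positivity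
    nlinarith

lemma phi_var_sum {θ : ℝ} (hθ : 0 < θ) (hθ1 : θ ≤ 1) (N : ℕ) :
    ∑ n ∈ Finset.range N, |phi (n * θ) - phi ((n + 1 : ℕ) * θ)| ≤ 24 := by
  calc _ ≤ ∑ n ∈ Finset.range N, (psi θ n - psi θ (n + 1)) :=
        Finset.sum_le_sum fun n _ => phi_var hθ hθ1 n
    _ = psi θ 0 - psi θ N := Finset.sum_range_sub' _ _
    _ ≤ 24 := by
        have h1 : psi θ 0 = 24 := by simp [psi]
        have h2 : 0 ≤ psi θ N := by unfold psi; positivity
        linarith

/-- Abel summation -/
lemma abel (a : ℕ → ℂ) (f : ℕ → ℂ) (N : ℕ) :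
    ∑ n ∈ Finset.range (N + 1), a n * f n =
      (∑ i ∈ Finset.range (N + 1), a i) * f N +
        ∑ n ∈ Finset.range N, (∑ i ∈ Finset.range (n + 1), a i) * (f n - f (n + 1)) := by
  induction N with
  | zero => simp
  | succ N ih =>
    rw [Finset.sum_range_succ, ih, Finset.sum_range_succ (fun n => (∑ i ∈ Finset.range (n + 1), a i) *
      (f n - f (n + 1))) N, Finset.sum_range_succ (fun i => a i) (N + 1)]
    ring

/-- Regularity of Riemann's summation method: if `∑ a_n = 0` then
`∑ a_n sinc(n θ)^2 → 0` as `θ → 0+`. -/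
lemma riemann_sum (a : ℕ → ℂ) (hs : Tendsto (fun N => ∑ i ∈ Finset.range (N + 1), a i) atTop (𝓝 0))
    (ε : ℝ) (hε : 0 < ε) : ∃ θ₀ : ℝ, 0 < θ₀ ∧ ∀ θ : ℝ, 0 < θ → θ < θ₀ →
      ∀ᶠ N in atTop, ‖∑ n ∈ Finset.range (N + 1), a n * (phi (n * θ) : ℂ)‖ ≤ ε := by
  set s : ℕ → ℂ := fun N => ∑ i ∈ Finset.range (N + 1), a i with hsdef
  -- bound for partial sums
  obtain ⟨C, hC⟩ := (Metric.isBounded_range_of_tendsto s hs).exists_norm_le
  have hC' : ∀ n, ‖s n‖ ≤ C := fun n => hC _ ⟨n, rfl⟩
  have hC0 : 0 ≤ C := (norm_nonneg _).trans (hC' 0)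
  obtain ⟨n₀, hn₀⟩ := Metric.tendsto_atTop.mp hs (ε / 96) (by positivity)
  -- finite part
  have hfin : Tendsto (fun θ : ℝ => ∑ n ∈ Finset.range n₀, C * |phi (n * θ) - phi ((n + 1 : ℕ) * θ)|)
      (𝓝 0) (𝓝 0) := by
    have hcont : Continuous (fun θ : ℝ => ∑ n ∈ Finset.range n₀,
        C * |phi (n * θ) - phi ((n + 1 : ℕ) * θ)|) := by
      apply continuous_finsetSum
      intro n _
      have h1 : Continuous fun θ : ℝ => phi (n * θ) := phi_cont.comp (by fun_prop)
      have h2 : Continuous fun θ : ℝ => phi ((n + 1 : ℕ) * θ) := phi_cont.comp (by fun_prop)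
      exact continuous_const.mul (h1.sub h2).abs
    have := hcont.tendsto 0
    simpa using this
  obtain ⟨δ, hδ, hδ'⟩ := Metric.tendsto_nhds_nhds.mp hfin (ε / 4) (by positivity)
  refine ⟨min δ 1, by positivity, fun θ hθ hθ2 => ?_⟩
  have hθ1 : θ ≤ 1 := (hθ2.trans_le (min_le_right _ _)).le
  have hθδ : θ < δ := hθ2.trans_le (min_le_left _ _)
  have hfin' : ∑ n ∈ Finset.range n₀, C * |phi (n * θ) - phi ((n + 1 : ℕ) * θ)| ≤ ε / 4 := by
    have := hδ' (x := θ) (by rw [Real.dist_eq, sub_zero, abs_of_pos hθ]; exact hθδ)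
    rw [Real.dist_eq, sub_zero] at this
    exact (le_abs_self _).trans this.le
  -- boundary term
  have hbd : Tendsto (fun N : ℕ => C * phi (N * θ)) atTop (𝓝 0) := by
    have h1 : Tendsto (fun N : ℕ => 1 / ((N : ℝ) * θ) ^ 2) atTop (𝓝 0) := by
      apply tendsto_const_nhds.div_atTop
      apply (tendsto_pow_atTop (by norm_num)).comp
      exact tendsto_natCast_atTop_atTop.atTop_mul_const hθ
    have h2 : Tendsto (fun N : ℕ => phi (N * θ)) atTop (𝓝 0) := by
      apply squeeze_zero' (Eventually.of_forall fun N => phi_nonneg _) _ h1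
      filter_upwards [eventually_gt_atTop 0] with N hN
      have : (0 : ℝ) < N := by exact_mod_cast hN
      exact phi_le (by positivity)
    simpa using h2.const_mul C
  have hbd' : ∀ᶠ N : ℕ in atTop, C * phi (N * θ) < ε / 4 := hbd.eventually (gt_mem_nhds (by positivity))
  filter_upwards [hbd', eventually_ge_atTop n₀] with N hN hNn
  rw [abel]
  have h1 : ‖(∑ i ∈ Finset.range (N + 1), a i) * (phi (N * θ) : ℂ)‖ ≤ ε / 4 := by
    rw [norm_mul, Complex.norm_real, Real.norm_of_nonneg (phi_nonneg _)]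
    calc _ ≤ C * phi (N * θ) := by
          gcongr
          · exact phi_nonneg _
          · exact hC' N
      _ ≤ ε / 4 := hN.le
  have h2 : ‖∑ n ∈ Finset.range N, (∑ i ∈ Finset.range (n + 1), a i) *
      ((phi (n * θ) : ℂ) - (phi ((n + 1 : ℕ) * θ) : ℂ))‖ ≤ ε / 2 := by
    have h3 : ∀ n, ‖(∑ i ∈ Finset.range (n + 1), a i) *
        ((phi (n * θ) : ℂ) - (phi ((n + 1 : ℕ) * θ) : ℂ))‖ =
        ‖s n‖ * |phi (n * θ) - phi ((n + 1 : ℕ) * θ)| := by
      intro n
      rw [norm_mul, ← Complex.ofReal_sub, Complex.norm_real, Real.norm_eq_abs]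
    calc _ ≤ ∑ n ∈ Finset.range N, ‖(∑ i ∈ Finset.range (n + 1), a i) *
          ((phi (n * θ) : ℂ) - (phi ((n + 1 : ℕ) * θ) : ℂ))‖ := norm_sum_le _ _
      _ = ∑ n ∈ Finset.range N, ‖s n‖ * |phi (n * θ) - phi ((n + 1 : ℕ) * θ)| := by
          simp_rw [h3]
      _ ≤ ∑ n ∈ Finset.range N, ((if n < n₀ then C * |phi (n * θ) - phi ((n + 1 : ℕ) * θ)| else 0) +
          ε / 96 * |phi (n * θ) - phi ((n + 1 : ℕ) * θ)|) := by
          apply Finset.sum_le_sum
          intro n _
          have h5 := abs_nonneg (phi (n * θ) - phi ((n + 1 : ℕ) * θ))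
          by_cases h : n < n₀
          · rw [if_pos h]
            have := mul_le_mul_of_nonneg_right (hC' n) h5
            have : 0 ≤ ε / 96 * |phi (n * θ) - phi ((n + 1 : ℕ) * θ)| := by positivity
            linarith
          · rw [if_neg h, zero_add]
            have h6 := hn₀ n (not_lt.mp h)
            rw [dist_zero_right] at h6
            gcongr
      _ = ∑ n ∈ Finset.range N, (if n < n₀ then C * |phi (n * θ) - phi ((n + 1 : ℕ) * θ)| else 0) +
          ε / 96 * ∑ n ∈ Finset.range N, |phi (n * θ) - phi ((n + 1 : ℕ) * θ)| := by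
          rw [Finset.sum_add_distrib, Finset.mul_sum]
      _ ≤ ε / 4 + ε / 96 * 24 := by
          have h7 : ∑ n ∈ Finset.range N,
              (if n < n₀ then C * |phi (n * θ) - phi ((n + 1 : ℕ) * θ)| else 0) =
              ∑ n ∈ Finset.range n₀, C * |phi (n * θ) - phi ((n + 1 : ℕ) * θ)| := by
            rw [← Finset.sum_filter]
            apply Finset.sum_congr _ (fun _ _ => rfl)
            ext n
            simp only [Finset.mem_filter, Finset.mem_range]
            omega
          rw [h7]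
          have h8 := phi_var_sum hθ hθ1 N
          gcongr
      _ = ε / 2 := by ring
  refine (norm_add_le _ _).trans ?_
  linarith

end Pool.Agent.H747R3.U
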