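import Pool.Agent.H747R3.UA

set_option autoImplicit false

open MeasureTheory Filter Topology

namespace Pool.Agent.H747R3.U

/-! ### Schwarz' theorem -/

lemma schwarz_le (G : ℝ → ℝ) (a b : ℝ) (hab : a < b) (hG : ContinuousOn G (Set.Icc a b))
    (h : ∀ x ∈ Set.Ioo a b,
      Tendsto (fun t => (G (x + t) + G (x - t) - 2 * G x) / t ^ 2) (𝓝[>] 0) (𝓝 0)) :
    ∀ x ∈ Set.Icc a b, G x ≤ G a + (x - a) / (b - a) * (G b - G a) := by
  intro x₀ hx₀
  by_contra hcon
  push Not at hcon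
  have hba : 0 < b - a := by linarith
  set L : ℝ → ℝ := fun x => G a + (x - a) / (b - a) * (G b - G a) with hL
  set η : ℝ := G x₀ - L x₀ with hη
  have hη0 : 0 < η := by simp only [hη, hL]; linarith
  set ε : ℝ := η / (2 * (b - a) ^ 2) with hε
  have hε0 : 0 < ε := by positivity
  set W : ℝ → ℝ := fun x => G x - L x + ε * ((x - a) * (x - b)) with hW
  have hWc : ContinuousOn W (Set.Icc a b) := by
    apply ContinuousOn.add
    · apply hG.sub
      fun_prop
    · fun_prop
  obtain ⟨x₁, hx₁, hmax⟩ := isCompact_Icc.exists_isMaxOn ⟨x₀, hx₀⟩ hWc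
  have hWx₀ : 0 < W x₀ := by
    have h1 : -((x₀ - a) * (x₀ - b)) ≤ (b - a) ^ 2 := by
      nlinarith [hx₀.1, hx₀.2]
    have h2 : ε * ((x₀ - a) * (x₀ - b)) ≥ -(η / 2) := by
      have h3 : ε * (b - a) ^ 2 = η / 2 := by
        rw [hε]
        field_simp
      nlinarith
    simp only [hW]
    linarith
  have hW1 : 0 < W x₁ := lt_of_lt_of_le hWx₀ (hmax hx₀)
  have hWa : W a = 0 := by simp [hW, hL]
  have hWb : W b = 0 := by
    simp only [hW, hL]
    field_simp
    ring
  have hx1a : a < x₁ := lt_of_le_of_ne hx₁.1 (fun h => by rw [← h, hWa] at hW1; exact lt_irrefl _ hW1)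
  have hx1b : x₁ < b := lt_of_le_of_ne hx₁.2 (fun h => by rw [h, hWb] at hW1; exact lt_irrefl _ hW1)
  have hlim := h x₁ ⟨hx1a, hx1b⟩
  have hneg : ∀ᶠ t in 𝓝[>] (0 : ℝ), (G (x₁ + t) + G (x₁ - t) - 2 * G x₁) / t ^ 2 ≤ -(2 * ε) := by
    have hm : 0 < min (x₁ - a) (b - x₁) := lt_min (by linarith) (by linarith)
    filter_upwards [Ioo_mem_nhdsGT hm] with t ht
    have ht0 : 0 < t := ht.1
    have ht1 : t < x₁ - a := ht.2.trans_le (min_le_left _ _)
    have ht2 : t < b - x₁ := ht.2.trans_le (min_le_right _ _)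
    have h1 : W (x₁ + t) ≤ W x₁ := hmax ⟨by linarith, by linarith⟩
    have h2 : W (x₁ - t) ≤ W x₁ := hmax ⟨by linarith, by linarith⟩
    have h3 : L (x₁ + t) + L (x₁ - t) - 2 * L x₁ = 0 := by
      simp only [hL]
      field_simp
      ring
    have h4 : (x₁ + t - a) * (x₁ + t - b) + (x₁ - t - a) * (x₁ - t - b) -
        2 * ((x₁ - a) * (x₁ - b)) = 2 * t ^ 2 := by ring
    have h5 : W (x₁ + t) + W (x₁ - t) - 2 * W x₁ =
        (G (x₁ + t) + G (x₁ - t) - 2 * G x₁) - (L (x₁ + t) + L (x₁ - t) - 2 * L x₁) +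
        ε * ((x₁ + t - a) * (x₁ + t - b) + (x₁ - t - a) * (x₁ - t - b) -
        2 * ((x₁ - a) * (x₁ - b))) := by
      simp only [hW]
      ring
    rw [h3, h4] at h5
    rw [div_le_iff₀ (by positivity)]
    nlinarith
  have := le_of_tendsto hlim hneg
  linarith

lemma schwarz_real (G : ℝ → ℝ) (a b : ℝ) (hab : a < b) (hG : ContinuousOn G (Set.Icc a b))
    (h : ∀ x ∈ Set.Ioo a b,
      Tendsto (fun t => (G (x + t) + G (x - t) - 2 * G x) / t ^ 2) (𝓝[>] 0) (𝓝 0)) :
    ∀ x ∈ Set.Icc a b, G x = G a + (x - a) / (b - a) * (G b - G a) := by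
  intro x hx
  apply le_antisymm (schwarz_le G a b hab hG h x hx)
  have h1 := schwarz_le (fun x => -G x) a b hab hG.neg (fun y hy => by
    have := (h y hy).neg
    rw [neg_zero] at this
    refine this.congr fun t => ?_
    ring) x hx
  have h2 : (x - a) / (b - a) * (-G b - -G a) = -((x - a) / (b - a) * (G b - G a)) := by ring
  have h3 : -G x ≤ -G a + (x - a) / (b - a) * (-G b - -G a) := h1
  rw [h2] at h3
  linarith

/-- Schwarz' theorem for complex valued functions with constant second symmetric derivative -/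
lemma schwarz_complex (G : ℝ → ℂ) (c : ℂ) (a b : ℝ) (hab : a < b) (hG : Continuous G)
    (h : ∀ x ∈ Set.Ioo a b,
      Tendsto (fun t : ℝ => (G (x + t) + G (x - t) - 2 * G x) / (t : ℂ) ^ 2) (𝓝[>] 0) (𝓝 c)) :
    ∃ α β : ℂ, ∀ x ∈ Set.Icc a b, G x = c / 2 * (x : ℂ) ^ 2 + α * x + β := by
  set Ψ : ℝ → ℂ := fun x => G x - c / 2 * (x : ℂ) ^ 2 with hΨ
  have hΨc : Continuous Ψ := by
    apply hG.sub
    fun_prop
  have hd : ∀ x ∈ Set.Ioo a b,
      Tendsto (fun t : ℝ => (Ψ (x + t) + Ψ (x - t) - 2 * Ψ x) / (t : ℂ) ^ 2) (𝓝[>] 0) (𝓝 0) := by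
    intro x hx
    have h1 := (h x hx).sub_const c
    rw [sub_self] at h1
    refine h1.congr' ?_
    filter_upwards [self_mem_nhdsWithin] with t ht
    have ht0 : (t : ℂ) ≠ 0 := by exact_mod_cast (ne_of_gt ht)
    simp only [hΨ]
    push_cast
    field_simp
    ring
  have hre : ∀ x ∈ Set.Ioo a b, Tendsto (fun t : ℝ =>
      ((Ψ (x + t)).re + (Ψ (x - t)).re - 2 * (Ψ x).re) / t ^ 2) (𝓝[>] 0) (𝓝 0) := by
    intro x hx
    have h1 := (Complex.continuous_re.tendsto _).comp (hd x hx)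
    rw [Complex.zero_re] at h1
    refine h1.congr fun t => ?_
    simp only [Function.comp]
    rw [← Complex.ofReal_pow, Complex.div_ofReal_re]
    simp
  have him : ∀ x ∈ Set.Ioo a b, Tendsto (fun t : ℝ =>
      ((Ψ (x + t)).im + (Ψ (x - t)).im - 2 * (Ψ x).im) / t ^ 2) (𝓝[>] 0) (𝓝 0) := by
    intro x hx
    have h1 := (Complex.continuous_im.tendsto _).comp (hd x hx)
    rw [Complex.zero_im] at h1
    refine h1.congr fun t => ?_
    simp only [Function.comp]
    rw [← Complex.ofReal_pow, Complex.div_ofReal_im]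
    simp
  have h1 := schwarz_real (fun x => (Ψ x).re) a b hab
    (Complex.continuous_re.comp hΨc).continuousOn hre
  have h2 := schwarz_real (fun x => (Ψ x).im) a b hab
    (Complex.continuous_im.comp hΨc).continuousOn him
  set m : ℂ := (Ψ b - Ψ a) / ((b : ℂ) - a) with hm
  have hba : ((b : ℂ) - a) ≠ 0 := by
    rw [← Complex.ofReal_sub]
    exact_mod_cast (by linarith : b - a ≠ 0)
  refine ⟨m, Ψ a - m * a, fun x hx => ?_⟩
  have h3 : Ψ x = Ψ a + (((x - a) / (b - a) : ℝ) : ℂ) * (Ψ b - Ψ a) := by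
    apply Complex.ext
    · rw [Complex.add_re, Complex.re_ofReal_mul, Complex.sub_re]
      exact h1 x hx
    · rw [Complex.add_im, Complex.im_ofReal_mul, Complex.sub_im]
      exact h2 x hx
  have h4 : G x = Ψ x + c / 2 * (x : ℂ) ^ 2 := by simp [hΨ]
  rw [h4, h3, hm]
  push_cast
  field_simp
  ring

/-! ### The Cantor–Lebesgue lemma -/

lemma sin_sq_int (δ : ℝ) (κ : ℝ) (hκ : κ ≠ 0) :
    ∫ t in (0 : ℝ)..δ, Real.sin (κ * t) ^ 2 =
      δ / 2 - Real.sin (κ * δ) * Real.cos (κ * δ) / (2 * κ) := by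
  have h := intervalIntegral.integral_comp_mul_left (a := 0) (b := δ)
    (fun y => Real.sin y ^ 2) hκ
  rw [h, integral_sin_sq]
  simp
  field_simp
  ring

lemma cantor_aux (u : ℕ → ℝ) (hu : ∀ n, 0 ≤ u n) (δ : ℝ) (hδ : 0 < δ)
    (h : ∀ t ∈ Set.Ioo 0 δ, Tendsto (fun n : ℕ => u n * |Real.sin (2 * Real.pi * n * t)|)
      atTop (𝓝 0)) : Tendsto u atTop (𝓝 0) := by
  set v : ℕ → ℝ := fun n => min (u n) 1 with hv
  have hv0 : ∀ n, 0 ≤ v n := fun n => le_min (hu n) zero_le_one
  have hv1 : ∀ n, v n ≤ 1 := fun n => min_le_right _ _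
  have hlim : Tendsto (fun n : ℕ => ∫ t in (0 : ℝ)..δ, (v n) ^ 2 * Real.sin (2 * Real.pi * n * t) ^ 2)
      atTop (𝓝 (∫ t in (0 : ℝ)..δ, (0 : ℝ))) := by
    apply intervalIntegral.tendsto_integral_filter_of_dominated_convergence (fun _ => (1 : ℝ))
    · refine Eventually.of_forall fun n => ?_
      have : Continuous fun t : ℝ => (v n) ^ 2 * Real.sin (2 * Real.pi * n * t) ^ 2 := by fun_prop
      exact this.aestronglyMeasurable
    · refine Eventually.of_forall fun n => Eventually.of_forall fun t _ => ?_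
      rw [Real.norm_of_nonneg (by positivity)]
      have h1 : Real.sin (2 * Real.pi * n * t) ^ 2 ≤ 1 := Real.sin_sq_le_one _
      have h2 : (v n) ^ 2 ≤ 1 := pow_le_one₀ (hv0 n) (hv1 n)
      nlinarith [sq_nonneg (v n), sq_nonneg (Real.sin (2 * Real.pi * n * t))]
    · exact intervalIntegrable_const
    · have : ∀ᵐ t : ℝ ∂volume, t ≠ δ := by
        simp [ae_iff, measure_singleton]
      filter_upwards [this] with t htδ ht
      rw [Set.uIoc_of_le hδ.le] at ht
      have ht' : t ∈ Set.Ioo 0 δ := ⟨ht.1, lt_of_le_of_ne ht.2 htδ⟩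
      have h1 := (h t ht').pow 2
      rw [zero_pow two_ne_zero] at h1
      refine squeeze_zero (fun n => by positivity) (fun n => ?_) h1
      rw [mul_pow, sq_abs]
      gcongr
      · exact hv0 n
      · exact min_le_left _ _
  rw [intervalIntegral.integral_zero] at hlim
  have hI : Tendsto (fun n : ℕ => δ / 2 - Real.sin (2 * Real.pi * n * δ) *
      Real.cos (2 * Real.pi * n * δ) / (2 * (2 * Real.pi * n))) atTop (𝓝 (δ / 2)) := by
    have h1 : Tendsto (fun n : ℕ => 1 / (2 * (2 * Real.pi * (n : ℝ)))) atTop (𝓝 0) := by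
      apply tendsto_const_nhds.div_atTop
      have : Tendsto (fun n : ℕ => (4 * Real.pi) * (n : ℝ)) atTop atTop :=
        tendsto_natCast_atTop_atTop.const_mul_atTop (by positivity)
      refine this.congr fun n => ?_
      ring
    have h2 : Tendsto (fun n : ℕ => Real.sin (2 * Real.pi * n * δ) *
        Real.cos (2 * Real.pi * n * δ) / (2 * (2 * Real.pi * n))) atTop (𝓝 0) := by
      apply squeeze_zero_norm (fun n => ?_) h1
      rw [norm_div, norm_mul, Real.norm_eq_abs, Real.norm_eq_abs]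
      have h3 := Real.abs_sin_le_one (2 * Real.pi * n * δ)
      have h4 := Real.abs_cos_le_one (2 * Real.pi * n * δ)
      rw [Real.norm_of_nonneg (by positivity : (0 : ℝ) ≤ 2 * (2 * Real.pi * n))]
      gcongr
      nlinarith [abs_nonneg (Real.sin (2 * Real.pi * n * δ)),
        abs_nonneg (Real.cos (2 * Real.pi * n * δ))]
    simpa using (tendsto_const_nhds (x := δ / 2)).sub h2
  have hv2 : Tendsto (fun n => (v n) ^ 2) atTop (𝓝 0) := by
    have h1 := hlim.div hI (by positivity)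
    rw [zero_div] at h1
    refine h1.congr' ?_
    have hne : ∀ᶠ n : ℕ in atTop, δ / 2 - Real.sin (2 * Real.pi * n * δ) *
        Real.cos (2 * Real.pi * n * δ) / (2 * (2 * Real.pi * n)) ≠ 0 :=
      hI.eventually (isOpen_ne.mem_nhds (show δ / 2 ≠ 0 by positivity))
    filter_upwards [hne, eventually_gt_atTop 0] with n hn hn0
    have hn0' : (0 : ℝ) < n := by exact_mod_cast hn0
    rw [Pi.div_apply, intervalIntegral.integral_const_mul,
      sin_sq_int δ (2 * Real.pi * n) (by positivity)]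
    exact mul_div_cancel_right₀ _ hn
  have hv3 : Tendsto v atTop (𝓝 0) := by
    have h1 := (Real.continuous_sqrt.tendsto 0).comp hv2
    rw [Real.sqrt_zero] at h1
    refine h1.congr fun n => ?_
    simp only [Function.comp]
    exact Real.sqrt_sq (hv0 n)
  have hev : ∀ᶠ n in atTop, v n < 1 := hv3.eventually (gt_mem_nhds one_pos)
  refine hv3.congr' ?_
  filter_upwards [hev] with n hn
  simp only [hv] at hn ⊢
  rcases min_lt_iff.mp hn with h1 | h1
  · exact min_eq_left h1.le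
  · exact absurd h1 (lt_irrefl _)

end Pool.Agent.H747R3.U
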