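import Pool.Agent.H747R3.UB

set_option autoImplicit false

open MeasureTheory Filter Topology

namespace Pool.Agent.H747R3.U

/-- `exp(2πikt)` -/
noncomputable def e (k : ℤ) (t : ℝ) : ℂ :=
  Complex.exp (2 * (Real.pi : ℂ) * Complex.I * (k : ℂ) * (t : ℂ))

lemma e_add (k : ℤ) (x y : ℝ) : e k (x + y) = e k x * e k y := by
  unfold e
  rw [← Complex.exp_add]
  congr 1
  push_cast
  ring

lemma e_add_left (k m : ℤ) (x : ℝ) : e (k + m) x = e k x * e m x := by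
  unfold e
  rw [← Complex.exp_add]
  congr 1
  push_cast
  ring

lemma e_eq (k : ℤ) (t : ℝ) : e k t = Complex.exp (((2 * Real.pi * k * t : ℝ) : ℂ) * Complex.I) := by
  unfold e
  congr 1
  push_cast
  ring

lemma norm_e (k : ℤ) (t : ℝ) : ‖e k t‖ = 1 := by
  rw [e_eq, Complex.norm_exp_ofReal_mul_I]

lemma e_ne (k : ℤ) (t : ℝ) : e k t ≠ 0 := Complex.exp_ne_zero _

lemma e_neg_left (k : ℤ) (t : ℝ) : e (-k) t = e k (-t) := by
  unfold e
  congr 1
  push_cast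
  ring

lemma e_zero_left (t : ℝ) : e 0 t = 1 := by simp [e]
lemma e_zero_right (k : ℤ) : e k 0 = 1 := by simp [e]

lemma e_one (k : ℤ) : e k 1 = 1 := by
  unfold e
  rw [Complex.exp_eq_one_iff]
  exact ⟨k, by push_cast; ring⟩

lemma e_cont (k : ℤ) : Continuous (e k) := by
  unfold e
  fun_prop

lemma e_add_neg (k : ℤ) (t : ℝ) : e k t + e k (-t) = 2 * (Real.cos (2 * Real.pi * k * t) : ℂ) := by
  rw [e_eq, e_eq, Complex.ofReal_cos, Complex.cos]
  have : (((2 * Real.pi * k * (-t) : ℝ) : ℂ) * Complex.I) =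
      -((2 * Real.pi * k * t : ℝ) : ℂ) * Complex.I := by push_cast; ring
  rw [this]
  ring

lemma e_sub_neg (k : ℤ) (t : ℝ) : ‖e k t - e k (-t)‖ = 2 * |Real.sin (2 * Real.pi * k * t)| := by
  have h : e k t - e k (-t) = 2 * Complex.I * (Real.sin (2 * Real.pi * k * t) : ℂ) := by
    rw [e_eq, e_eq, Complex.ofReal_sin, Complex.sin]
    have : (((2 * Real.pi * k * (-t) : ℝ) : ℂ) * Complex.I) =
        -((2 * Real.pi * k * t : ℝ) : ℂ) * Complex.I := by push_cast; ring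
    rw [this]
    have hI : Complex.I * Complex.I = -1 := Complex.I_mul_I
    linear_combination (-(Complex.exp (((2 * Real.pi * k * t : ℝ) : ℂ) * Complex.I)) +
      Complex.exp (-((2 * Real.pi * k * t : ℝ) : ℂ) * Complex.I)) * hI * (-1)
  rw [h, norm_mul, norm_mul, Complex.norm_I, Complex.norm_real, Real.norm_eq_abs]
  norm_num

/-- symmetric partial sums -/
noncomputable def Sp (c : ℤ → ℂ) (M : ℕ) (x : ℝ) : ℂ :=
  ∑ n ∈ Finset.Icc (-(M : ℤ)) (M : ℤ), c n * e n x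

noncomputable def T (c : ℤ → ℂ) (n : ℕ) (x : ℝ) : ℂ := c n * e n x + c (-(n : ℤ)) * e (-(n : ℤ)) x

noncomputable def aa (c : ℤ → ℂ) (x : ℝ) (n : ℕ) : ℂ := if n = 0 then c 0 else T c n x

lemma Icc_succ (M : ℕ) : Finset.Icc (-((M + 1 : ℕ) : ℤ)) ((M + 1 : ℕ) : ℤ) =
    insert ((M : ℤ) + 1) (insert (-(M : ℤ) - 1) (Finset.Icc (-(M : ℤ)) (M : ℤ))) := by
  ext n
  simp only [Finset.mem_Icc, Finset.mem_insert]
  push_cast
  omega

lemma Sp_succ (c : ℤ → ℂ) (M : ℕ) (x : ℝ) : Sp c (M + 1) x = Sp c M x + T c (M + 1) x := by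
  unfold Sp T
  rw [Icc_succ, Finset.sum_insert, Finset.sum_insert]
  · push_cast
    have : -(M : ℤ) - 1 = -((M : ℤ) + 1) := by ring
    rw [this]
    ring
  · simp only [Finset.mem_Icc]
    omega
  · simp only [Finset.mem_Icc, Finset.mem_insert]
    omega

lemma Sp_eq (c : ℤ → ℂ) (M : ℕ) (x : ℝ) : Sp c M x = ∑ i ∈ Finset.range (M + 1), aa c x i := by
  induction M with
  | zero => simp [Sp, aa, e_zero_left]
  | succ M ih =>
    rw [Sp_succ, Finset.sum_range_succ, ih]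
    simp [aa]

lemma T_tendsto (c : ℤ → ℂ) (x : ℝ) (h : Tendsto (fun M => Sp c M x) atTop (𝓝 0)) :
    Tendsto (fun n : ℕ => T c n x) atTop (𝓝 0) := by
  rw [← tendsto_add_atTop_iff_nat 1]
  have h1 : Tendsto (fun M => Sp c (M + 1) x) atTop (𝓝 0) := (tendsto_add_atTop_iff_nat 1).mpr h
  have h2 := h1.sub h
  rw [sub_zero] at h2
  refine h2.congr fun M => ?_
  rw [Sp_succ]
  ring

/-- Cantor–Lebesgue on an interval -/
lemma coeff_zero (c : ℤ → ℂ) (x₀ δ : ℝ) (hδ : 0 < δ)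
    (h : ∀ t ∈ Set.Ico (0 : ℝ) δ, Tendsto (fun M => Sp c M (x₀ + t)) atTop (𝓝 0)) :
    Tendsto (fun n : ℕ => ‖c n‖) atTop (𝓝 0) ∧ Tendsto (fun n : ℕ => ‖c (-(n : ℤ))‖) atTop (𝓝 0) := by
  have h0 := T_tendsto c x₀ (by simpa using h 0 ⟨le_rfl, hδ⟩)
  have h0n := h0.norm
  rw [norm_zero] at h0n
  constructor
  · apply cantor_aux _ (fun n => norm_nonneg _) δ hδ
    intro t ht
    have h1 := (T_tendsto c (x₀ + t) (h t ⟨ht.1.le, ht.2⟩)).norm
    rw [norm_zero] at h1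
    have h2 := h1.add h0n
    rw [add_zero] at h2
    refine squeeze_zero (fun n => by positivity) (fun n => ?_) h2
    have h3 : c n * e n x₀ * (e n t - e n (-t)) = T c n (x₀ + t) - e n (-t) * T c n x₀ := by
      unfold T
      rw [e_add, e_add, e_neg_left _ t]
      ring
    have h4 : ‖c n * e n x₀ * (e n t - e n (-t))‖ = ‖c n‖ * (2 * |Real.sin (2 * Real.pi * n * t)|) := by
      rw [norm_mul, norm_mul, norm_e, mul_one, e_sub_neg]
      simp
    have h5 : ‖T c n (x₀ + t) - e n (-t) * T c n x₀‖ ≤ ‖T c n (x₀ + t)‖ + ‖T c n x₀‖ := by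
      refine (norm_sub_le _ _).trans ?_
      rw [norm_mul, norm_e, one_mul]
    rw [← h3, h4] at h5
    have h6 : 0 ≤ ‖c n‖ * |Real.sin (2 * Real.pi * n * t)| := by positivity
    linarith
  · apply cantor_aux _ (fun n => norm_nonneg _) δ hδ
    intro t ht
    have h1 := (T_tendsto c (x₀ + t) (h t ⟨ht.1.le, ht.2⟩)).norm
    rw [norm_zero] at h1
    have h2 := h1.add h0n
    rw [add_zero] at h2
    refine squeeze_zero (fun n => by positivity) (fun n => ?_) h2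
    have h3 : c (-(n : ℤ)) * e (-(n : ℤ)) x₀ * (-(e n t - e n (-t))) =
        T c n (x₀ + t) - e n t * T c n x₀ := by
      unfold T
      rw [e_add, e_add, e_neg_left _ t]
      ring
    have h4 : ‖c (-(n : ℤ)) * e (-(n : ℤ)) x₀ * (-(e n t - e n (-t)))‖ =
        ‖c (-(n : ℤ))‖ * (2 * |Real.sin (2 * Real.pi * n * t)|) := by
      rw [norm_mul, norm_mul, norm_e, mul_one, norm_neg, e_sub_neg]
      simp
    have h5 : ‖T c n (x₀ + t) - e n t * T c n x₀‖ ≤ ‖T c n (x₀ + t)‖ + ‖T c n x₀‖ := by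
      refine (norm_sub_le _ _).trans ?_
      rw [norm_mul, norm_e, one_mul]
    rw [← h3, h4] at h5
    have h6 : 0 ≤ ‖c (-(n : ℤ))‖ * |Real.sin (2 * Real.pi * n * t)| := by positivity
    linarith

lemma coeff_bdd (c : ℤ → ℂ) (h1 : Tendsto (fun n : ℕ => ‖c n‖) atTop (𝓝 0))
    (h2 : Tendsto (fun n : ℕ => ‖c (-(n : ℤ))‖) atTop (𝓝 0)) : ∃ C : ℝ, ∀ n : ℤ, ‖c n‖ ≤ C := by
  obtain ⟨C1, hC1⟩ := (Metric.isBounded_range_of_tendsto _ h1).exists_norm_le
  obtain ⟨C2, hC2⟩ := (Metric.isBounded_range_of_tendsto _ h2).exists_norm_le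
  refine ⟨max C1 C2, fun n => ?_⟩
  rcases Int.eq_nat_or_neg n with ⟨m, rfl | rfl⟩
  · have := hC1 _ ⟨m, rfl⟩
    rw [norm_norm] at this
    exact this.trans (le_max_left _ _)
  · have := hC2 _ ⟨m, rfl⟩
    rw [norm_norm] at this
    exact this.trans (le_max_right _ _)

/-! ### Riemann's function -/

lemma T_bound (c : ℤ → ℂ) {C : ℝ} (hC : ∀ n, ‖c n‖ ≤ C) (n : ℕ) (x : ℝ) : ‖T c n x‖ ≤ 2 * C := by
  unfold T
  refine (norm_add_le _ _).trans ?_
  rw [norm_mul, norm_mul, norm_e, norm_e, mul_one, mul_one]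
  have := hC n
  have := hC (-(n : ℤ))
  linarith

lemma T_cont (c : ℤ → ℂ) (n : ℕ) : Continuous (T c n) := by
  unfold T
  have h1 := e_cont n
  have h2 := e_cont (-(n : ℤ))
  fun_prop

/-- the weights `1 / (2π(n+1))^2` -/
noncomputable def wt (n : ℕ) : ℝ := 1 / (2 * Real.pi * ((n : ℝ) + 1)) ^ 2

lemma wt_nonneg (n : ℕ) : 0 ≤ wt n := by unfold wt; positivity

lemma wt_le (n : ℕ) : wt n ≤ 1 / ((n : ℝ) + 1) ^ 2 := by
  unfold wt
  have hp := Real.pi_gt_three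
  have : (0 : ℝ) < (n : ℝ) + 1 := by positivity
  apply one_div_le_one_div_of_le (by positivity)
  apply pow_le_pow_left₀ this.le
  nlinarith

lemma summable_sq : Summable (fun n : ℕ => 1 / ((n : ℝ) + 1) ^ 2) := by
  have h := (summable_nat_add_iff 1).mpr (Real.summable_one_div_nat_pow.mpr (by norm_num : 1 < 2))
  refine h.congr fun n => ?_
  push_cast
  rfl

lemma wt_summable : Summable wt :=
  Summable.of_nonneg_of_le wt_nonneg wt_le summable_sq

noncomputable def G (c : ℤ → ℂ) (x : ℝ) : ℂ := ∑' n : ℕ, (wt n : ℂ) * T c (n + 1) x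

lemma G_term (c : ℤ → ℂ) {C : ℝ} (hC : ∀ n, ‖c n‖ ≤ C) (n : ℕ) (x : ℝ) :
    ‖(wt n : ℂ) * T c (n + 1) x‖ ≤ wt n * (2 * C) := by
  rw [norm_mul, Complex.norm_real, Real.norm_of_nonneg (wt_nonneg n)]
  exact mul_le_mul_of_nonneg_left (T_bound c hC _ x) (wt_nonneg n)

lemma G_summable (c : ℤ → ℂ) {C : ℝ} (hC : ∀ n, ‖c n‖ ≤ C) (x : ℝ) :
    Summable (fun n : ℕ => (wt n : ℂ) * T c (n + 1) x) :=
  Summable.of_norm_bounded (wt_summable.mul_right (2 * C)) (fun n => G_term c hC n x)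

lemma G_cont (c : ℤ → ℂ) {C : ℝ} (hC : ∀ n, ‖c n‖ ≤ C) : Continuous (G c) := by
  apply continuous_tsum (fun n => ?_) (wt_summable.mul_right (2 * C)) (fun n x => G_term c hC n x)
  exact continuous_const.mul (T_cont c (n + 1))

lemma T_diff (c : ℤ → ℂ) (n : ℕ) (x t : ℝ) : T c n (x + t) + T c n (x - t) - 2 * T c n x =
    -(4 * (Real.sin (Real.pi * n * t) : ℂ) ^ 2) * T c n x := by
  have h1 : e n (x + t) + e n (x - t) = e n x * (2 * (Real.cos (2 * Real.pi * n * t) : ℂ)) := by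
    rw [sub_eq_add_neg, e_add, e_add, ← mul_add, e_add_neg]
    simp
  have h2 : e (-(n : ℤ)) (x + t) + e (-(n : ℤ)) (x - t) =
      e (-(n : ℤ)) x * (2 * (Real.cos (2 * Real.pi * n * t) : ℂ)) := by
    rw [sub_eq_add_neg, e_add, e_add, ← mul_add, e_add_neg]
    congr 3
    have : 2 * Real.pi * ((-(n : ℤ) : ℤ) : ℝ) * t = -(2 * Real.pi * n * t) := by push_cast; ring
    rw [this, Real.cos_neg]
  have h3 : (Real.cos (2 * Real.pi * n * t) : ℂ) = 1 - 2 * (Real.sin (Real.pi * n * t) : ℂ) ^ 2 := by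
    have : 2 * Real.pi * n * t = 2 * (Real.pi * n * t) := by ring
    rw [this, Real.cos_two_mul]
    have := Real.sin_sq_add_cos_sq (Real.pi * n * t)
    rw [← Complex.ofReal_pow]
    have h4 : 2 * Real.cos (Real.pi * n * t) ^ 2 - 1 = 1 - 2 * Real.sin (Real.pi * n * t) ^ 2 := by
      linarith
    rw [h4]
    push_cast
    rfl
  unfold T
  have e1 : c n * e n (x + t) + c (-(n : ℤ)) * e (-(n : ℤ)) (x + t) +
      (c n * e n (x - t) + c (-(n : ℤ)) * e (-(n : ℤ)) (x - t)) -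
      2 * (c n * e n x + c (-(n : ℤ)) * e (-(n : ℤ)) x) =
      c n * (e n (x + t) + e n (x - t)) + c (-(n : ℤ)) * (e (-(n : ℤ)) (x + t) +
        e (-(n : ℤ)) (x - t)) - 2 * (c n * e n x + c (-(n : ℤ)) * e (-(n : ℤ)) x) := by ring
  rw [e1, h1, h2, h3]
  ring

lemma wt_sin (n : ℕ) {t : ℝ} (ht : t ≠ 0) :
    wt n * (4 * Real.sin (Real.pi * ((n + 1 : ℕ) : ℝ) * t) ^ 2) =
      t ^ 2 * phi (((n + 1 : ℕ) : ℝ) * (Real.pi * t)) := by
  have hn : ((n + 1 : ℕ) : ℝ) ≠ 0 := by positivity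
  have h1 : ((n + 1 : ℕ) : ℝ) * (Real.pi * t) ≠ 0 := by
    have := Real.pi_ne_zero
    positivity
  unfold wt phi
  rw [Real.sinc_of_ne_zero h1]
  have h2 : Real.pi * ((n + 1 : ℕ) : ℝ) * t = ((n + 1 : ℕ) : ℝ) * (Real.pi * t) := by ring
  rw [h2]
  have hn' : ((n : ℝ) + 1) ≠ 0 := by positivity
  have := Real.pi_ne_zero
  push_cast
  field_simp
  ring

lemma phi_summable {θ : ℝ} (hθ : 0 < θ) : Summable (fun n : ℕ => phi (((n + 1 : ℕ) : ℝ) * θ)) := by
  apply Summable.of_nonneg_of_le (fun n => phi_nonneg _) (fun n => ?_)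
    (summable_sq.mul_right (1 / θ ^ 2))
  have : (0 : ℝ) < ((n + 1 : ℕ) : ℝ) := by positivity
  refine (phi_le (u := ((n + 1 : ℕ) : ℝ) * θ) (by positivity)).trans (le_of_eq ?_)
  push_cast
  field_simp

lemma G_diff (c : ℤ → ℂ) {C : ℝ} (hC : ∀ n, ‖c n‖ ≤ C) (x : ℝ) {t : ℝ} (ht : 0 < t) :
    (G c (x + t) + G c (x - t) - 2 * G c x) / (t : ℂ) ^ 2 =
      -∑' n : ℕ, T c (n + 1) x * (phi (((n + 1 : ℕ) : ℝ) * (Real.pi * t)) : ℂ) := by
  have ht0 : (t : ℂ) ≠ 0 := by exact_mod_cast ht.ne'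
  have h1 := (G_summable c hC (x + t)).hasSum
  have h2 := (G_summable c hC (x - t)).hasSum
  have h3 := ((G_summable c hC x).hasSum).mul_left 2
  have h4 := ((h1.add h2).sub h3).div_const ((t : ℂ) ^ 2)
  have h5 : (fun n : ℕ => ((wt n : ℂ) * T c (n + 1) (x + t) + (wt n : ℂ) * T c (n + 1) (x - t) -
      2 * ((wt n : ℂ) * T c (n + 1) x)) / (t : ℂ) ^ 2) =
      fun n : ℕ => -(T c (n + 1) x * (phi (((n + 1 : ℕ) : ℝ) * (Real.pi * t)) : ℂ)) := by
    funext n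
    have h6 := T_diff c (n + 1) x t
    have h7 := wt_sin n ht.ne'
    have h8 : ((wt n : ℝ) : ℂ) * (4 * ((Real.sin (Real.pi * ((n + 1 : ℕ) : ℝ) * t) : ℝ) : ℂ) ^ 2) =
        (t : ℂ) ^ 2 * (phi (((n + 1 : ℕ) : ℝ) * (Real.pi * t)) : ℂ) := by
      exact_mod_cast congrArg (fun r : ℝ => (r : ℂ)) h7
    rw [div_eq_iff (pow_ne_zero 2 ht0)]
    linear_combination (wt n : ℂ) * h6 - T c (n + 1) x * h8
  rw [h5] at h4
  rw [← tsum_neg]
  exact h4.tsum_eq.symm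

/-- Riemann's first theorem (for series converging to `0`) -/
lemma riemann_first (c : ℤ → ℂ) {C : ℝ} (hC : ∀ n, ‖c n‖ ≤ C) (x : ℝ)
    (hx : Tendsto (fun M => Sp c M x) atTop (𝓝 0)) :
    Tendsto (fun t : ℝ => (G c (x + t) + G c (x - t) - 2 * G c x) / (t : ℂ) ^ 2) (𝓝[>] 0)
      (𝓝 (c 0)) := by
  rw [Metric.tendsto_nhdsWithin_nhds]
  intro ε hε
  have hs : Tendsto (fun N => ∑ i ∈ Finset.range (N + 1), aa c x i) atTop (𝓝 0) := by
    refine hx.congr fun M => Sp_eq c M x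
  obtain ⟨θ₀, hθ₀, hθ⟩ := riemann_sum (aa c x) hs (ε / 2) (by positivity)
  refine ⟨θ₀ / Real.pi, by positivity, fun t ht htd => ?_⟩
  have ht0 : 0 < t := ht
  rw [Real.dist_eq, sub_zero, abs_of_pos ht0, lt_div_iff₀ Real.pi_pos] at htd
  have h1 := hθ (Real.pi * t) (by positivity) (by linarith)
  rw [G_diff c hC x ht0]
  -- the partial sums converge
  have hsum : Summable (fun n : ℕ => T c (n + 1) x * (phi (((n + 1 : ℕ) : ℝ) * (Real.pi * t)) : ℂ)) := by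
    apply Summable.of_norm_bounded ((phi_summable (θ := Real.pi * t) (by positivity)).mul_left (2 * C))
    intro n
    rw [norm_mul, Complex.norm_real, Real.norm_of_nonneg (phi_nonneg _)]
    exact mul_le_mul_of_nonneg_right (T_bound c hC _ x) (phi_nonneg _)
  have h2 : Tendsto (fun N : ℕ => ∑ n ∈ Finset.range (N + 1), aa c x n *
      (phi (n * (Real.pi * t)) : ℂ)) atTop
      (𝓝 (c 0 + ∑' n : ℕ, T c (n + 1) x * (phi (((n + 1 : ℕ) : ℝ) * (Real.pi * t)) : ℂ))) := by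
    have h3 := hsum.hasSum.tendsto_sum_nat.const_add (c 0)
    refine h3.congr fun N => ?_
    rw [Finset.sum_range_succ' (fun n => aa c x n * (phi (n * (Real.pi * t)) : ℂ)), add_comm]
    congr 1
    simp [aa, phi_zero]
  have h3 := le_of_tendsto h2.norm h1
  rw [dist_eq_norm]
  have h4 : -∑' n : ℕ, T c (n + 1) x * (phi (((n + 1 : ℕ) : ℝ) * (Real.pi * t)) : ℂ) - c 0 =
      -(c 0 + ∑' n : ℕ, T c (n + 1) x * (phi (((n + 1 : ℕ) : ℝ) * (Real.pi * t)) : ℂ)) := by ring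
  rw [h4, norm_neg]
  linarith

lemma T_periodic (c : ℤ → ℂ) (n : ℕ) (x : ℝ) : T c n (x + 1) = T c n x := by
  unfold T
  rw [e_add, e_add, e_one, e_one, mul_one, mul_one]

lemma G_periodic (c : ℤ → ℂ) : Function.Periodic (G c) 1 := by
  intro x
  unfold G
  simp_rw [T_periodic]

end Pool.Agent.H747R3.U
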