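import Pool.Agent.H747R3.UC

set_option autoImplicit false

open MeasureTheory Filter Topology

namespace Pool.Agent.H747R3.U

/-! ### The bump `ψ(y) = max(sin(2πy) - 1/2, 0)^3` -/

lemma hasDerivAt_max_pow (n : ℕ) (hn : 2 ≤ n) (s : ℝ) :
    HasDerivAt (fun s : ℝ => (max s 0) ^ n) (n * (max s 0) ^ (n - 1)) s := by
  rcases lt_trichotomy s 0 with h | h | h
  · have h1 : (fun s : ℝ => (max s 0) ^ n) =ᶠ[𝓝 s] fun _ => 0 := by
      filter_upwards [gt_mem_nhds h] with y hy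
      rw [max_eq_right hy.le, zero_pow (by omega)]
    rw [max_eq_right h.le, zero_pow (by omega), mul_zero]
    exact (hasDerivAt_const s (0 : ℝ)).congr_of_eventuallyEq h1
  · subst h
    rw [max_self, zero_pow (by omega), mul_zero, hasDerivAt_iff_isLittleO_nhds_zero]
    simp only [zero_add, max_self, smul_zero, sub_zero]
    rw [zero_pow (by omega : n ≠ 0)]
    simp only [sub_zero]
    have h1 : (fun h : ℝ => (max h 0) ^ n) =O[𝓝 0] fun h : ℝ => h ^ n := by
      apply Asymptotics.IsBigO.of_bound 1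
      refine Eventually.of_forall fun h => ?_
      rw [one_mul, norm_pow, norm_pow]
      apply pow_le_pow_left₀ (norm_nonneg _)
      rw [Real.norm_eq_abs, Real.norm_eq_abs, abs_of_nonneg (le_max_right _ _)]
      exact max_le (le_abs_self _) (abs_nonneg _)
    exact h1.trans_isLittleO (Asymptotics.isLittleO_pow_id (by omega))
  · have h1 : (fun s : ℝ => (max s 0) ^ n) =ᶠ[𝓝 s] fun s => s ^ n := by
      filter_upwards [lt_mem_nhds h] with y hy
      rw [max_eq_left hy.le]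
    rw [max_eq_left h.le]
    exact (hasDerivAt_pow n s).congr_of_eventuallyEq h1

noncomputable def m0 (y : ℝ) : ℝ := max (Real.sin (2 * Real.pi * y) - 1 / 2) 0
noncomputable def ψ (y : ℝ) : ℝ := m0 y ^ 3
noncomputable def ψ1 (y : ℝ) : ℝ := 3 * m0 y ^ 2 * (2 * Real.pi * Real.cos (2 * Real.pi * y))
noncomputable def ψ2 (y : ℝ) : ℝ :=
  6 * m0 y * (2 * Real.pi * Real.cos (2 * Real.pi * y)) ^ 2 -
    3 * m0 y ^ 2 * ((2 * Real.pi) ^ 2 * Real.sin (2 * Real.pi * y))

lemma m0_cont : Continuous m0 := by unfold m0; fun_prop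
lemma ψ_cont : Continuous ψ := by unfold ψ; exact m0_cont.pow 3
lemma ψ2_cont : Continuous ψ2 := by
  unfold ψ2
  have := m0_cont
  fun_prop

lemma m0_nonneg (y : ℝ) : 0 ≤ m0 y := le_max_right _ _

lemma m0_le (y : ℝ) : m0 y ≤ 1 := by
  unfold m0
  apply max_le _ zero_le_one
  have := Real.sin_le_one (2 * Real.pi * y)
  linarith

lemma ψ_nonneg (y : ℝ) : 0 ≤ ψ y := by unfold ψ; exact pow_nonneg (m0_nonneg y) 3

lemma sin_shift (y : ℝ) (n : ℤ) : Real.sin (2 * Real.pi * (y + n)) = Real.sin (2 * Real.pi * y) := by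
  have : 2 * Real.pi * (y + n) = 2 * Real.pi * y + n * (2 * Real.pi) := by ring
  rw [this, Real.sin_add_int_mul_two_pi]

lemma cos_shift (y : ℝ) (n : ℤ) : Real.cos (2 * Real.pi * (y + n)) = Real.cos (2 * Real.pi * y) := by
  have : 2 * Real.pi * (y + n) = 2 * Real.pi * y + n * (2 * Real.pi) := by ring
  rw [this, Real.cos_add_int_mul_two_pi]

lemma m0_shift (y : ℝ) (n : ℤ) : m0 (y + n) = m0 y := by unfold m0; rw [sin_shift]
lemma ψ_shift (y : ℝ) (n : ℤ) : ψ (y + n) = ψ y := by unfold ψ; rw [m0_shift]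
lemma ψ2_shift (y : ℝ) (n : ℤ) : ψ2 (y + n) = ψ2 y := by
  unfold ψ2; rw [m0_shift, cos_shift, sin_shift]

lemma hasDerivAt_sin2 (y : ℝ) : HasDerivAt (fun y => Real.sin (2 * Real.pi * y))
    (2 * Real.pi * Real.cos (2 * Real.pi * y)) y := by
  have h := (Real.hasDerivAt_sin (2 * Real.pi * y)).comp y ((hasDerivAt_id y).const_mul (2 * Real.pi))
  simp only [Function.comp_def, mul_one] at h
  have e : 2 * Real.pi * Real.cos (2 * Real.pi * y) = Real.cos (2 * Real.pi * y) * (2 * Real.pi) := by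
    ring
  rw [e]
  exact h

lemma hasDerivAt_cos2 (y : ℝ) : HasDerivAt (fun y => Real.cos (2 * Real.pi * y))
    (-(2 * Real.pi * Real.sin (2 * Real.pi * y))) y := by
  have h := (Real.hasDerivAt_cos (2 * Real.pi * y)).comp y ((hasDerivAt_id y).const_mul (2 * Real.pi))
  simp only [Function.comp_def, mul_one] at h
  have e : -(2 * Real.pi * Real.sin (2 * Real.pi * y)) = -Real.sin (2 * Real.pi * y) * (2 * Real.pi) := by
    ring
  rw [e]
  exact h

lemma ψ_deriv (y : ℝ) : HasDerivAt ψ (ψ1 y) y := by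
  have h := (hasDerivAt_max_pow 3 (by norm_num) (Real.sin (2 * Real.pi * y) - 1 / 2)).comp y
    ((hasDerivAt_sin2 y).sub_const (1 / 2))
  simp only [Function.comp_def] at h
  exact_mod_cast h

lemma m0sq_deriv (y : ℝ) : HasDerivAt (fun y => m0 y ^ 2)
    (2 * m0 y * (2 * Real.pi * Real.cos (2 * Real.pi * y))) y := by
  have h := (hasDerivAt_max_pow 2 le_rfl (Real.sin (2 * Real.pi * y) - 1 / 2)).comp y
    ((hasDerivAt_sin2 y).sub_const (1 / 2))
  simp only [Function.comp_def] at h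
  have e : 2 * m0 y * (2 * Real.pi * Real.cos (2 * Real.pi * y)) =
      ((2 : ℕ) : ℝ) * max (Real.sin (2 * Real.pi * y) - 1 / 2) 0 ^ (2 - 1) *
        (2 * Real.pi * Real.cos (2 * Real.pi * y)) := by
    unfold m0
    norm_num
  rw [e]
  exact h

lemma ψ1_deriv (y : ℝ) : HasDerivAt ψ1 (ψ2 y) y := by
  have h := ((m0sq_deriv y).const_mul 3).mul ((hasDerivAt_cos2 y).const_mul (2 * Real.pi))
  have e : ψ2 y = 3 * (2 * m0 y * (2 * Real.pi * Real.cos (2 * Real.pi * y))) *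
      (2 * Real.pi * Real.cos (2 * Real.pi * y)) +
      3 * m0 y ^ 2 * (2 * Real.pi * -(2 * Real.pi * Real.sin (2 * Real.pi * y))) := by
    unfold ψ2
    ring
  rw [e]
  exact h

lemma ψ2_bound (y : ℝ) : |ψ2 y| ≤ 400 := by
  unfold ψ2
  have h0 := m0_nonneg y
  have h1 := m0_le y
  have hs := Real.abs_sin_le_one (2 * Real.pi * y)
  have hc := Real.abs_cos_le_one (2 * Real.pi * y)
  have hp : Real.pi < 3.15 := Real.pi_lt_d2
  have hp0 := Real.pi_pos
  have h2 : (2 * Real.pi) ^ 2 ≤ 40 := by nlinarith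
  have h3 : |6 * m0 y * (2 * Real.pi * Real.cos (2 * Real.pi * y)) ^ 2| ≤ 240 := by
    rw [abs_mul, abs_mul, abs_of_nonneg h0, abs_of_pos (by norm_num : (0 : ℝ) < 6), abs_pow, abs_mul,
      mul_pow, abs_of_pos (by positivity : 0 < 2 * Real.pi)]
    have h4 : |Real.cos (2 * Real.pi * y)| ^ 2 ≤ 1 := pow_le_one₀ (abs_nonneg _) hc
    have h5 : 0 ≤ |Real.cos (2 * Real.pi * y)| ^ 2 := by positivity
    calc 6 * m0 y * ((2 * Real.pi) ^ 2 * |Real.cos (2 * Real.pi * y)| ^ 2) ≤ 6 * 1 * (40 * 1) := by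
          gcongr
      _ = 240 := by norm_num
  have h6 : |3 * m0 y ^ 2 * ((2 * Real.pi) ^ 2 * Real.sin (2 * Real.pi * y))| ≤ 120 := by
    rw [abs_mul, abs_mul, abs_mul, abs_of_pos (by norm_num : (0 : ℝ) < 3), abs_of_nonneg (sq_nonneg _),
      abs_of_nonneg (sq_nonneg _)]
    have h7 : m0 y ^ 2 ≤ 1 := pow_le_one₀ h0 h1
    calc 3 * m0 y ^ 2 * ((2 * Real.pi) ^ 2 * |Real.sin (2 * Real.pi * y)|) ≤ 3 * 1 * (40 * 1) := by
          gcongr
      _ = 120 := by norm_num
  have h8 := abs_sub (6 * m0 y * (2 * Real.pi * Real.cos (2 * Real.pi * y)) ^ 2)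
    (3 * m0 y ^ 2 * ((2 * Real.pi) ^ 2 * Real.sin (2 * Real.pi * y)))
  linarith

lemma ψ_int_pos : 0 < ∫ y in (0 : ℝ)..1, ψ y := by
  apply intervalIntegral.integral_pos one_pos ψ_cont.continuousOn (fun y _ => ψ_nonneg y)
  refine ⟨1 / 4, ⟨by norm_num, by norm_num⟩, ?_⟩
  unfold ψ m0
  have : 2 * Real.pi * (1 / 4) = Real.pi / 2 := by ring
  rw [this, Real.sin_pi_div_two]
  norm_num

/-! ### Periodic integrals -/

lemma int_scale (N : ℕ) (hN : 0 < N) (Q : ℝ → ℝ) (hQ : Function.Periodic Q 1)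
    (hc : Continuous Q) : ∫ x in (0 : ℝ)..1, Q (N * x) = ∫ x in (0 : ℝ)..1, Q x := by
  have hN' : (N : ℝ) ≠ 0 := by exact_mod_cast hN.ne'
  rw [intervalIntegral.integral_comp_mul_left (fun x => Q x) hN', mul_zero, mul_one]
  have h := hQ.intervalIntegral_add_zsmul_eq (N : ℤ) 0 (fun a b => hc.intervalIntegrable a b)
  simp only [zero_add, zsmul_eq_mul, Int.cast_natCast, mul_one] at h
  rw [h, smul_eq_mul]
  field_simp

lemma int_orth (N : ℕ) (hN : 0 < N) (l : ℤ) (hl : ¬ (N : ℤ) ∣ l) (Q : ℝ → ℝ)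
    (hQ : ∀ (y : ℝ) (n : ℤ), Q (y + n) = Q y) (hc : Continuous Q) :
    ∫ x in (0 : ℝ)..1, e l x * (Q (N * x) : ℂ) = 0 := by
  have hN' : (N : ℝ) ≠ 0 := by exact_mod_cast hN.ne'
  set f : ℝ → ℂ := fun x => e l x * (Q (N * x) : ℂ) with hf
  have hper : Function.Periodic f 1 := by
    intro x
    simp only [hf]
    rw [e_add, e_one, mul_one]
    congr 2
    have : (N : ℝ) * (x + 1) = N * x + ((N : ℤ) : ℝ) := by push_cast; ring
    rw [this, hQ]
  have hshift : ∀ x, f (x + 1 / N) = e l (1 / N) * f x := by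
    intro x
    simp only [hf]
    rw [e_add]
    have : (N : ℝ) * (x + 1 / N) = N * x + ((1 : ℤ) : ℝ) := by
      push_cast
      field_simp
    rw [this, hQ]
    ring
  have h1 : ∫ x in (0 : ℝ)..1, f (x + 1 / N) = ∫ x in (0 : ℝ)..1, f x := by
    rw [intervalIntegral.integral_comp_add_right, zero_add, add_comm (1 : ℝ)]
    have := hper.intervalIntegral_add_eq (1 / (N : ℝ)) 0
    rw [zero_add] at this
    exact this
  simp_rw [hshift] at h1
  rw [intervalIntegral.integral_const_mul] at h1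
  have h2 : (e l (1 / N) - 1) * ∫ x in (0 : ℝ)..1, f x = 0 := by
    rw [sub_mul, h1, one_mul, sub_self]
  rcases mul_eq_zero.mp h2 with h3 | h3
  · exfalso
    apply hl
    have h4 : e l (1 / N) = 1 := by linear_combination h3
    unfold e at h4
    rw [Complex.exp_eq_one_iff] at h4
    obtain ⟨n, hn⟩ := h4
    have hpi : (2 * (Real.pi : ℂ) * Complex.I) ≠ 0 := Complex.two_pi_I_ne_zero
    have hNc : (N : ℂ) ≠ 0 := by exact_mod_cast hN.ne'
    have h5 : (l : ℂ) = n * N := by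
      have h6 : (2 * (Real.pi : ℂ) * Complex.I) * ((l : ℂ) * (1 / N)) =
          (2 * (Real.pi : ℂ) * Complex.I) * n := by
        push_cast at hn
        linear_combination hn
      have h7 := mul_left_cancel₀ hpi h6
      field_simp at h7
      linear_combination h7
    refine ⟨n, ?_⟩
    have h8 : (l : ℂ) = ((N : ℤ) * n : ℤ) := by
      rw [h5]; push_cast; ring
    exact_mod_cast h8
  · exact h3

/-! ### The main identity -/

section main
variable (Nk : ℕ → ℕ)

/-- the open set where the series converges -/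
def UU : Set ℝ := {x | ∃ k, 0 < Real.sin (2 * Real.pi * (Nk k * x))}

lemma UU_open : IsOpen (UU Nk) := by
  have : UU Nk = ⋃ k, {x | 0 < Real.sin (2 * Real.pi * (Nk k * x))} := by
    ext x
    simp [UU]
  rw [this]
  apply isOpen_iUnion
  intro k
  exact isOpen_lt continuous_const (by fun_prop)

/-- all series under consideration -/
def PP (c : ℤ → ℂ) : Prop := ∀ x ∈ UU Nk, Tendsto (fun M => Sp c M x) atTop (𝓝 0)

variable {Nk}

lemma PP_coeff (hpos : ∀ k, 0 < Nk k) (c : ℤ → ℂ) (hc : PP Nk c) :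
    Tendsto (fun n : ℕ => ‖c n‖) atTop (𝓝 0) ∧ Tendsto (fun n : ℕ => ‖c (-(n : ℤ))‖) atTop (𝓝 0) := by
  have h0 : (0 : ℝ) < Nk 0 := by exact_mod_cast hpos 0
  apply coeff_zero c (1 / (4 * Nk 0)) (1 / (4 * Nk 0)) (by positivity)
  intro t ht
  apply hc
  refine ⟨0, ?_⟩
  have h1 : (Nk 0 : ℝ) * (1 / (4 * Nk 0) + t) = 1 / 4 + Nk 0 * t := by
    field_simp
  rw [h1]
  have h2 : 0 ≤ (Nk 0 : ℝ) * t := mul_nonneg h0.le ht.1
  have h3 : (Nk 0 : ℝ) * t < 1 / 4 := by
    have := ht.2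
    rw [lt_div_iff₀ (by positivity)] at this
    linarith
  apply Real.sin_pos_of_pos_of_lt_pi
  · have := Real.pi_pos
    positivity
  · have := Real.pi_pos
    nlinarith

lemma G_quad (c : ℤ → ℂ) (hc : PP Nk c) {C : ℝ} (hC : ∀ n, ‖c n‖ ≤ C) (x : ℝ) (hx : x ∈ UU Nk) :
    ∃ α β : ℂ, ∀ᶠ y in 𝓝 x, G c y = c 0 / 2 * (y : ℂ) ^ 2 + α * y + β := by
  obtain ⟨δ, hδ, hδ'⟩ := Metric.isOpen_iff.mp (UU_open Nk) x hx
  have hsub : ∀ y ∈ Set.Ioo (x - δ) (x + δ), y ∈ UU Nk := by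
    intro y hy
    apply hδ'
    rw [Metric.mem_ball, Real.dist_eq, abs_lt]
    constructor <;> linarith [hy.1, hy.2]
  obtain ⟨α, β, h⟩ := schwarz_complex (G c) (c 0) (x - δ) (x + δ) (by linarith) (G_cont c hC)
    (fun y hy => riemann_first c hC y (hc y (hsub y hy)))
  refine ⟨α, β, ?_⟩
  filter_upwards [Ioo_mem_nhds (by linarith : x - δ < x) (by linarith : x < x + δ)] with y hy
  exact h y ⟨hy.1.le, hy.2.le⟩

lemma G_derivs (c : ℤ → ℂ) (hc : PP Nk c) {C : ℝ} (hC : ∀ n, ‖c n‖ ≤ C) (x : ℝ) (hx : x ∈ UU Nk) :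
    HasDerivAt (G c) (deriv (G c) x) x ∧ HasDerivAt (deriv (G c)) (c 0) x := by
  obtain ⟨α, β, h⟩ := G_quad c hc hC x hx
  have hd : ∀ y : ℝ, HasDerivAt (fun y : ℝ => c 0 / 2 * (y : ℂ) ^ 2 + α * y + β)
      (c 0 * y + α) y := by
    intro y
    have h1 : HasDerivAt (fun y : ℝ => (y : ℂ)) 1 y := Complex.ofRealCLM.hasDerivAt
    have h2 := (((h1.pow 2).const_mul (c 0 / 2)).add (h1.const_mul α)).add_const β
    have e1 : c 0 * (y : ℂ) + α = c 0 / 2 * (((2 : ℕ) : ℂ) * (y : ℂ) ^ (2 - 1) * 1) + α * 1 := by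
      push_cast
      ring
    rw [e1]
    exact h2
  have h3 : ∀ᶠ y : ℝ in 𝓝 x, HasDerivAt (G c) (c 0 * y + α) y := by
    filter_upwards [h.eventually_nhds] with y hy
    exact (hd y).congr_of_eventuallyEq hy
  have h4 : ∀ᶠ y : ℝ in 𝓝 x, deriv (G c) y = c 0 * y + α := by
    filter_upwards [h3] with y hy
    exact hy.deriv
  constructor
  · exact h3.self_of_nhds.differentiableAt.hasDerivAt
  · have h5 : HasDerivAt (fun y : ℝ => c 0 * (y : ℂ) + α) (c 0) x := by
      have h1 : HasDerivAt (fun y : ℝ => (y : ℂ)) 1 x := Complex.ofRealCLM.hasDerivAt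
      have h2 := (h1.const_mul (c 0)).add_const α
      rw [mul_one] at h2
      exact h2
    exact h5.congr_of_eventuallyEq h4

/-- the integrated identity for the multiplier `ψ(N x)` -/
lemma key_identity (c : ℤ → ℂ) (hc : PP Nk c) {C : ℝ} (hC : ∀ n, ‖c n‖ ≤ C) (k : ℕ) :
    ∫ x in (0 : ℝ)..1, G c x * (((Nk k : ℝ) ^ 2 * ψ2 (Nk k * x) : ℝ) : ℂ) =
      c 0 * ∫ x in (0 : ℝ)..1, ((ψ (Nk k * x) : ℝ) : ℂ) := by
  set N : ℝ := (Nk k : ℝ) with hN
  have hg : ∀ x : ℝ, HasDerivAt (fun x => ψ (N * x)) (N * ψ1 (N * x)) x := by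
    intro x
    have h := (ψ_deriv (N * x)).comp x ((hasDerivAt_id x).const_mul N)
    simp only [Function.comp_def, mul_one] at h
    have e1 : N * ψ1 (N * x) = ψ1 (N * x) * N := by ring
    rw [e1]
    exact h
  have hg1 : ∀ x : ℝ, HasDerivAt (fun x => N * ψ1 (N * x)) (N ^ 2 * ψ2 (N * x)) x := by
    intro x
    have h := ((ψ1_deriv (N * x)).comp x ((hasDerivAt_id x).const_mul N)).const_mul N
    simp only [Function.comp_def, mul_one] at h
    have e1 : N ^ 2 * ψ2 (N * x) = N * (ψ2 (N * x) * N) := by ring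
    rw [e1]
    exact h
  set H : ℝ → ℂ := fun x => G c x * ((N * ψ1 (N * x) : ℝ) : ℂ) - deriv (G c) x * ((ψ (N * x) : ℝ) : ℂ)
    with hH
  have hHd : ∀ x : ℝ, HasDerivAt H (G c x * ((N ^ 2 * ψ2 (N * x) : ℝ) : ℂ) -
      c 0 * ((ψ (N * x) : ℝ) : ℂ)) x := by
    intro x
    by_cases hx : x ∈ UU Nk
    · obtain ⟨h1, h2⟩ := G_derivs c hc hC x hx
      have h3 := (h1.mul (hg1 x).ofReal_comp).sub (h2.mul (hg x).ofReal_comp)
      have e1 : G c x * ((N ^ 2 * ψ2 (N * x) : ℝ) : ℂ) - c 0 * ((ψ (N * x) : ℝ) : ℂ) =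
          deriv (G c) x * ((N * ψ1 (N * x) : ℝ) : ℂ) + G c x * ((N ^ 2 * ψ2 (N * x) : ℝ) : ℂ) -
          (c 0 * ((ψ (N * x) : ℝ) : ℂ) + deriv (G c) x * ((N * ψ1 (N * x) : ℝ) : ℂ)) := by ring
      rw [e1]
      exact h3
    · have h1 : Real.sin (2 * Real.pi * (N * x)) ≤ 0 := by
        by_contra hcon
        push Not at hcon
        exact hx ⟨k, hcon⟩
      have h2 : ∀ᶠ y in 𝓝 x, Real.sin (2 * Real.pi * (N * y)) < 1 / 2 := by
        have hcont : Continuous fun y : ℝ => Real.sin (2 * Real.pi * (N * y)) := by fun_prop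
        exact hcont.continuousAt.eventually (gt_mem_nhds (by linarith))
      have h3 : ∀ y, Real.sin (2 * Real.pi * (N * y)) < 1 / 2 → m0 (N * y) = 0 := by
        intro y hy
        unfold m0
        exact max_eq_right (by linarith)
      have h4 : H =ᶠ[𝓝 x] fun _ => 0 := by
        filter_upwards [h2] with y hy
        simp only [hH, ψ, ψ1]
        rw [h3 y hy]
        simp
      have h5 : G c x * ((N ^ 2 * ψ2 (N * x) : ℝ) : ℂ) - c 0 * ((ψ (N * x) : ℝ) : ℂ) = 0 := by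
        simp only [ψ, ψ2]
        rw [h3 x h2.self_of_nhds]
        simp
      rw [h5]
      exact (hasDerivAt_const x (0 : ℂ)).congr_of_eventuallyEq h4
  have hcont1 : Continuous fun x : ℝ => G c x * ((N ^ 2 * ψ2 (N * x) : ℝ) : ℂ) := by
    apply (G_cont c hC).mul
    apply Complex.continuous_ofReal.comp
    have := ψ2_cont
    fun_prop
  have hcont2 : Continuous fun x : ℝ => c 0 * ((ψ (N * x) : ℝ) : ℂ) := by
    apply continuous_const.mul
    apply Complex.continuous_ofReal.comp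
    have := ψ_cont
    fun_prop
  have hint := intervalIntegral.integral_eq_sub_of_hasDerivAt (a := 0) (b := 1)
    (fun x _ => hHd x) ((hcont1.sub hcont2).intervalIntegrable 0 1)
  have hH0 : H 0 = 0 := by
    simp [hH, ψ, ψ1, m0]
  have hH1 : H 1 = 0 := by
    have h1 : Real.sin (2 * Real.pi * (N * 1)) = 0 := by
      have : 2 * Real.pi * (N * 1) = ((2 * Nk k : ℕ) : ℝ) * Real.pi := by
        rw [hN]; push_cast; ring
      rw [this]
      exact Real.sin_nat_mul_pi _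
    have h2 : m0 (N * 1) = 0 := by
      unfold m0
      rw [h1]
      norm_num
    simp only [hH, ψ, ψ1]
    rw [h2]
    simp
  rw [hH0, hH1, sub_zero, intervalIntegral.integral_sub (hcont1.intervalIntegrable 0 1)
    (hcont2.intervalIntegrable 0 1), intervalIntegral.integral_const_mul] at hint
  linear_combination hint

end main

end Pool.Agent.H747R3.U
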