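import Pool.Agent.H747R3.UD

set_option autoImplicit false

open MeasureTheory Filter Topology

namespace Pool.Agent.H747R3.U

/-- the sum of the weights over multiples of `N` -/
noncomputable def fN (N : ℕ) (n : ℕ) : ℝ := if N ∣ n + 1 then (N : ℝ) ^ 2 / ((n : ℝ) + 1) ^ 2 else 0

lemma fN_nonneg (N n : ℕ) : 0 ≤ fN N n := by
  unfold fN
  split_ifs <;> positivity

noncomputable def SS : ℝ := ∑' j : ℕ, 1 / ((j : ℝ) + 1) ^ 2

lemma fN_sum (N : ℕ) (hN : 0 < N) : Summable (fN N) ∧ ∑' n, fN N n = SS := by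
  set g : ℕ → ℕ := fun j => N * (j + 1) - 1 with hg
  have hg1 : ∀ j, g j + 1 = N * (j + 1) := by
    intro j
    have : 0 < N * (j + 1) := by positivity
    simp only [hg]
    omega
  have hinj : Function.Injective g := by
    intro a b hab
    have h1 : N * (a + 1) = N * (b + 1) := by rw [← hg1, ← hg1, hab]
    have := Nat.eq_of_mul_eq_mul_left hN h1
    omega
  have hsupp : Function.support (fN N) ⊆ Set.range g := by
    intro n hn
    have h1 : N ∣ n + 1 := by
      by_contra hcon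
      apply hn
      unfold fN
      rw [if_neg hcon]
    obtain ⟨m, hm⟩ := h1
    have hm0 : 0 < m := by
      rcases Nat.eq_zero_or_pos m with h0 | h0
      · rw [h0] at hm; omega
      · exact h0
    refine ⟨m - 1, ?_⟩
    have := hg1 (m - 1)
    rw [Nat.sub_add_cancel hm0, ← hm] at this
    omega
  have hcomp : ∀ j, fN N (g j) = 1 / ((j : ℝ) + 1) ^ 2 := by
    intro j
    unfold fN
    have h2 : ((g j : ℝ) + 1) = N * ((j : ℝ) + 1) := by exact_mod_cast hg1 j
    rw [if_pos ⟨j + 1, hg1 j⟩, h2]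
    have : (N : ℝ) ≠ 0 := by exact_mod_cast hN.ne'
    field_simp
  constructor
  · have h3 : Summable (fN N ∘ g) := by
      refine summable_sq.congr fun j => ?_
      exact (hcomp j).symm
    refine (hinj.summable_iff ?_).mp h3
    intro x hx
    by_contra hne
    exact hx (hsupp hne)
  · rw [← hinj.tsum_eq hsupp]
    unfold SS
    exact tsum_congr hcomp

section main
variable {Nk : ℕ → ℕ}

lemma G_int_bound (c : ℤ → ℂ) {C : ℝ} (hC : ∀ n, ‖c n‖ ≤ C) (N : ℕ) (hN : 0 < N) (η : ℝ)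
    (hη : 0 ≤ η) (hcη : ∀ l : ℤ, (N : ℤ) ≤ |l| → ‖c l‖ ≤ η) :
    ‖∫ x in (0 : ℝ)..1, G c x * (((N : ℝ) ^ 2 * ψ2 (N * x) : ℝ) : ℂ)‖ ≤ 800 * η * SS := by
  set F : ℕ → ℝ → ℂ := fun n x => (wt n : ℂ) * T c (n + 1) x * (((N : ℝ) ^ 2 * ψ2 (N * x) : ℝ) : ℂ)
    with hF
  have hC0 : 0 ≤ C := (norm_nonneg _).trans (hC 0)
  have hψc : Continuous fun x : ℝ => (((N : ℝ) ^ 2 * ψ2 (N * x) : ℝ) : ℂ) := by
    apply Complex.continuous_ofReal.comp
    have := ψ2_cont
    fun_prop
  have hFc : ∀ n, Continuous (F n) := fun n => (continuous_const.mul (T_cont c (n + 1))).mul hψc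
  have hψn : ∀ x : ℝ, ‖(((N : ℝ) ^ 2 * ψ2 (N * x) : ℝ) : ℂ)‖ ≤ (N : ℝ) ^ 2 * 400 := by
    intro x
    rw [Complex.norm_real, norm_mul, Real.norm_eq_abs, Real.norm_eq_abs, abs_of_nonneg (by positivity)]
    exact mul_le_mul_of_nonneg_left (ψ2_bound _) (by positivity)
  have hsum : HasSum (fun n => ∫ x in (0 : ℝ)..1, F n x)
      (∫ x in (0 : ℝ)..1, G c x * (((N : ℝ) ^ 2 * ψ2 (N * x) : ℝ) : ℂ)) := by
    apply intervalIntegral.hasSum_integral_of_dominated_convergence
      (fun n _ => wt n * (2 * C) * ((N : ℝ) ^ 2 * 400))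
    · intro n
      exact (hFc n).aestronglyMeasurable
    · intro n
      refine Eventually.of_forall fun x _ => ?_
      simp only [hF]
      rw [norm_mul]
      have h1 := G_term c hC n x
      have h2 := wt_nonneg n
      exact mul_le_mul h1 (hψn x) (norm_nonneg _) (by positivity)
    · refine Eventually.of_forall fun x _ => ?_
      exact (wt_summable.mul_right _).mul_right _
    · exact intervalIntegrable_const
    · refine Eventually.of_forall fun x _ => ?_
      exact ((G_summable c hC x).hasSum).mul_right _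
  have hterm : ∀ n, ‖∫ x in (0 : ℝ)..1, F n x‖ ≤ fN N n * (800 * η) := by
    intro n
    by_cases hdiv : N ∣ n + 1
    · have hle : N ≤ n + 1 := Nat.le_of_dvd (Nat.succ_pos n) hdiv
      have h1 : ‖c ((n + 1 : ℕ) : ℤ)‖ ≤ η := by
        apply hcη
        rw [abs_of_nonneg (by positivity)]
        exact_mod_cast hle
      have h2 : ‖c (-((n + 1 : ℕ) : ℤ))‖ ≤ η := by
        apply hcη
        rw [abs_neg, abs_of_nonneg (by positivity)]
        exact_mod_cast hle
      have h3 : ∀ x ∈ Set.uIoc (0 : ℝ) 1, ‖F n x‖ ≤ fN N n * (800 * η) := by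
        intro x _
        simp only [hF]
        rw [norm_mul, norm_mul, Complex.norm_real, Real.norm_of_nonneg (wt_nonneg n)]
        have h4 : ‖T c (n + 1) x‖ ≤ 2 * η := by
          unfold T
          refine (norm_add_le _ _).trans ?_
          rw [norm_mul, norm_mul, norm_e, norm_e, mul_one, mul_one]
          linarith
        calc wt n * ‖T c (n + 1) x‖ * ‖(((N : ℝ) ^ 2 * ψ2 (N * x) : ℝ) : ℂ)‖
            ≤ 1 / ((n : ℝ) + 1) ^ 2 * (2 * η) * ((N : ℝ) ^ 2 * 400) := by
              have := wt_nonneg n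
              have := wt_le n
              have := hψn x
              gcongr
          _ = fN N n * (800 * η) := by
              unfold fN
              rw [if_pos hdiv]
              ring
      have h5 := intervalIntegral.norm_integral_le_of_norm_le_const h3
      simpa using h5
    · have h1 : ¬ (N : ℤ) ∣ ((n + 1 : ℕ) : ℤ) := by
        intro h
        exact hdiv (by exact_mod_cast h)
      have h2 : ¬ (N : ℤ) ∣ (-((n + 1 : ℕ) : ℤ)) := by
        rw [dvd_neg]
        exact h1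
      have h3 : ∀ l : ℤ, ∫ x in (0 : ℝ)..1, e l x * (ψ2 (N * x) : ℂ) = 0 →
          ∫ x in (0 : ℝ)..1, (wt n : ℂ) * (c l * e l x) * (((N : ℝ) ^ 2 * ψ2 (N * x) : ℝ) : ℂ) = 0 := by
        intro l hl
        have h4 : ∀ x : ℝ, (wt n : ℂ) * (c l * e l x) * (((N : ℝ) ^ 2 * ψ2 (N * x) : ℝ) : ℂ) =
            ((wt n : ℂ) * c l * (N : ℂ) ^ 2) * (e l x * (ψ2 (N * x) : ℂ)) := by
          intro x
          push_cast
          ring
        simp_rw [h4]
        rw [intervalIntegral.integral_const_mul, hl, mul_zero]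
      have h5 : ∫ x in (0 : ℝ)..1, F n x = 0 := by
        have h6 : ∀ x : ℝ, F n x =
            (wt n : ℂ) * (c ((n + 1 : ℕ) : ℤ) * e ((n + 1 : ℕ) : ℤ) x) *
              (((N : ℝ) ^ 2 * ψ2 (N * x) : ℝ) : ℂ) +
            (wt n : ℂ) * (c (-((n + 1 : ℕ) : ℤ)) * e (-((n + 1 : ℕ) : ℤ)) x) *
              (((N : ℝ) ^ 2 * ψ2 (N * x) : ℝ) : ℂ) := by
          intro x
          simp only [hF, T]
          ring
        simp_rw [h6]
        rw [intervalIntegral.integral_add, h3 _ (int_orth N hN _ h1 ψ2 ψ2_shift ψ2_cont),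
          h3 _ (int_orth N hN _ h2 ψ2 ψ2_shift ψ2_cont), add_zero]
        · apply Continuous.intervalIntegrable
          have := e_cont ((n + 1 : ℕ) : ℤ)
          fun_prop
        · apply Continuous.intervalIntegrable
          have := e_cont (-((n + 1 : ℕ) : ℤ))
          fun_prop
      rw [h5, norm_zero]
      have := fN_nonneg N n
      positivity
  obtain ⟨hs1, hs2⟩ := fN_sum N hN
  rw [← hsum.tsum_eq]
  calc ‖∑' n, ∫ x in (0 : ℝ)..1, F n x‖ ≤ ∑' n, fN N n * (800 * η) :=
        tsum_of_norm_bounded (hs1.mul_right _).hasSum hterm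
    _ = 800 * η * SS := by
        rw [tsum_mul_right, hs2]
        ring

lemma c0_zero (hN : Tendsto Nk atTop atTop) (hpos : ∀ k, 0 < Nk k) (c : ℤ → ℂ) (hc : PP Nk c) :
    c 0 = 0 := by
  obtain ⟨hc1, hc2⟩ := PP_coeff hpos c hc
  obtain ⟨C, hC⟩ := coeff_bdd c hc1 hc2
  have hSS : 0 ≤ SS := tsum_nonneg fun j => by positivity
  by_contra hne
  have hc0 : 0 < ‖c 0‖ := norm_pos_iff.mpr hne
  have hψ := ψ_int_pos
  set I : ℝ := ∫ y in (0 : ℝ)..1, ψ y with hI
  set η : ℝ := ‖c 0‖ * I / (1600 * (SS + 1)) with hη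
  have hη0 : 0 < η := by positivity
  obtain ⟨L1, hL1⟩ := eventually_atTop.mp (hc1.eventually (gt_mem_nhds hη0))
  obtain ⟨L2, hL2⟩ := eventually_atTop.mp (hc2.eventually (gt_mem_nhds hη0))
  obtain ⟨k, hk⟩ := (hN.eventually (eventually_ge_atTop (max L1 L2))).exists
  have hcη : ∀ l : ℤ, (Nk k : ℤ) ≤ |l| → ‖c l‖ ≤ η := by
    intro l hl
    rcases Int.eq_nat_or_neg l with ⟨m, rfl | rfl⟩
    · rw [abs_of_nonneg (by positivity)] at hl
      have : L1 ≤ m := (le_max_left L1 L2).trans (hk.trans (by exact_mod_cast hl))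
      exact (hL1 m this).le
    · rw [abs_neg, abs_of_nonneg (by positivity)] at hl
      have : L2 ≤ m := (le_max_right L1 L2).trans (hk.trans (by exact_mod_cast hl))
      exact (hL2 m this).le
  have h1 := G_int_bound c hC (Nk k) (hpos k) η hη0.le hcη
  rw [key_identity c hc hC k] at h1
  have hper : Function.Periodic ψ 1 := by
    intro y
    have := ψ_shift y 1
    simpa using this
  rw [intervalIntegral.integral_ofReal, int_scale (Nk k) (hpos k) ψ hper ψ_cont, norm_mul,
    Complex.norm_real, Real.norm_of_nonneg hψ.le] at h1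
  have h2 : 800 * η * SS < ‖c 0‖ * I := by
    have h3 : η * (1600 * (SS + 1)) = ‖c 0‖ * I := by
      rw [hη]
      field_simp
    nlinarith
  linarith

lemma Sp_shift (c : ℤ → ℂ) (M : ℕ) (x : ℝ) :
    Sp (fun n => c (n + 1)) M x = e (-1) x * (Sp c M x - c (-(M : ℤ)) * e (-(M : ℤ)) x +
      c ((M : ℤ) + 1) * e ((M : ℤ) + 1) x) := by
  induction M with
  | zero =>
    simp [Sp, e_zero_left]
    rw [← mul_assoc, mul_comm (e (-1) x), mul_assoc, ← e_add_left]
    simp [e_zero_left]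
  | succ M ih =>
    rw [Sp_succ, ih, Sp_succ]
    unfold T
    have e1 : e ((M : ℤ) + 1 + 1) x = e ((M : ℤ) + 1) x * e 1 x := e_add_left _ _ _
    have e2 : e (-(M : ℤ)) x = e (-((M : ℤ) + 1)) x * e 1 x := by
      rw [← e_add_left]
      congr 1
      ring
    have e3 : e (-1) x * e 1 x = 1 := by
      rw [← e_add_left]
      simp [e_zero_left]
    push_cast
    have a1 : -((M : ℤ) + 1) + 1 = -(M : ℤ) := by ring
    rw [a1, e1, e2]
    linear_combination (-(c ((M : ℤ) + 1 + 1) * e ((M : ℤ) + 1) x) +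
      (-(c (-(M : ℤ)) * e (-((M : ℤ) + 1)) x))) * e3

lemma Sp_shift' (c : ℤ → ℂ) (M : ℕ) (x : ℝ) :
    Sp (fun n => c (n - 1)) M x = e 1 x * (Sp c M x - c (M : ℤ) * e (M : ℤ) x +
      c (-((M : ℤ) + 1)) * e (-((M : ℤ) + 1)) x) := by
  induction M with
  | zero =>
    simp [Sp, e_zero_left]
    rw [← mul_assoc, mul_comm (e 1 x), mul_assoc, ← e_add_left]
    simp [e_zero_left]
  | succ M ih =>
    rw [Sp_succ, ih, Sp_succ]
    unfold T
    have e1 : e (-((M : ℤ) + 1 + 1)) x = e (-((M : ℤ) + 1)) x * e (-1) x := by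
      rw [← e_add_left]
      congr 1
    have e2 : e (M : ℤ) x = e ((M : ℤ) + 1) x * e (-1) x := by
      rw [← e_add_left]
      congr 1
      ring
    have e3 : e (-1) x * e 1 x = 1 := by
      rw [← e_add_left]
      simp [e_zero_left]
    push_cast
    have a1 : ((M : ℤ) + 1) - 1 = (M : ℤ) := by ring
    have a2 : -((M : ℤ) + 1) - 1 = -((M : ℤ) + 1 + 1) := by ring
    rw [a1, a2, e1, e2]
    linear_combination (-(c (-((M : ℤ) + 1 + 1)) * e (-((M : ℤ) + 1)) x) +
      (-(c (M : ℤ) * e ((M : ℤ) + 1) x))) * e3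

lemma PP_shift (hpos : ∀ k, 0 < Nk k) (c : ℤ → ℂ) (hc : PP Nk c) : PP Nk (fun n => c (n + 1)) := by
  obtain ⟨hc1, hc2⟩ := PP_coeff hpos c hc
  intro x hx
  have h0 := hc x hx
  have h1 : Tendsto (fun M : ℕ => c (-(M : ℤ)) * e (-(M : ℤ)) x) atTop (𝓝 0) := by
    rw [tendsto_zero_iff_norm_tendsto_zero]
    simp_rw [norm_mul, norm_e, mul_one]
    exact hc2
  have h2 : Tendsto (fun M : ℕ => c ((M : ℤ) + 1) * e ((M : ℤ) + 1) x) atTop (𝓝 0) := by
    rw [tendsto_zero_iff_norm_tendsto_zero]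
    simp_rw [norm_mul, norm_e, mul_one]
    exact_mod_cast (tendsto_add_atTop_iff_nat 1).mpr hc1
  have h3 := ((h0.sub h1).add h2).const_mul (e (-1) x)
  simp only [sub_zero, add_zero, mul_zero] at h3
  exact h3.congr fun M => (Sp_shift c M x).symm

lemma PP_shift' (hpos : ∀ k, 0 < Nk k) (c : ℤ → ℂ) (hc : PP Nk c) : PP Nk (fun n => c (n - 1)) := by
  obtain ⟨hc1, hc2⟩ := PP_coeff hpos c hc
  intro x hx
  have h0 := hc x hx
  have h1 : Tendsto (fun M : ℕ => c (M : ℤ) * e (M : ℤ) x) atTop (𝓝 0) := by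
    rw [tendsto_zero_iff_norm_tendsto_zero]
    simp_rw [norm_mul, norm_e, mul_one]
    exact hc1
  have h2 : Tendsto (fun M : ℕ => c (-((M : ℤ) + 1)) * e (-((M : ℤ) + 1)) x) atTop (𝓝 0) := by
    rw [tendsto_zero_iff_norm_tendsto_zero]
    simp_rw [norm_mul, norm_e, mul_one]
    exact_mod_cast (tendsto_add_atTop_iff_nat 1).mpr hc2
  have h3 := ((h0.sub h1).add h2).const_mul (e 1 x)
  simp only [sub_zero, add_zero, mul_zero] at h3
  exact h3.congr fun M => (Sp_shift' c M x).symm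

/-- **Rajchman's uniqueness theorem** for the sets `{x : sin(2π N_k x) ≤ 0 for all k}`. -/
theorem uniqueness (hN : Tendsto Nk atTop atTop) (hpos : ∀ k, 0 < Nk k) (c : ℤ → ℂ)
    (hc : PP Nk c) : ∀ m : ℤ, c m = 0 := by
  have h : ∀ m : ℤ, PP Nk (fun n => c (n + m)) := by
    intro m
    induction m using Int.induction_on with
    | zero => simpa using hc
    | succ i ih =>
      have := PP_shift hpos _ ih
      refine cast (congrArg (PP Nk) (funext fun n => ?_)) this
      congr 1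
      ring
    | pred i ih =>
      have := PP_shift' hpos _ ih
      refine cast (congrArg (PP Nk) (funext fun n => ?_)) this
      congr 1
      ring
  intro m
  have := c0_zero hN hpos _ (h m)
  simpa using this

end main

end Pool.Agent.H747R3.U
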