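import Mathlib

set_option autoImplicit false

open MeasureTheory Filter Topology

namespace Pool.Agent.H747R3.V

/-- the block `w` occurs at the first digits of `y` in base `b` -/
def Bl (b k : ℕ) (w : Fin k → ℤ) (y : ℝ) : Prop :=
  ∀ j : Fin k, ⌊y * (b : ℝ) ^ (j.val + 1)⌋ % (b : ℤ) = w j

noncomputable instance (b k : ℕ) (w : Fin k → ℤ) (y : ℝ) : Decidable (Bl b k w y) := by
  unfold Bl; infer_instance

noncomputable def chi (b k : ℕ) (w : Fin k → ℤ) (y : ℝ) : ℝ := if Bl b k w y then 1 else 0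

lemma Bl_meas (b k : ℕ) (w : Fin k → ℤ) : MeasurableSet {y | Bl b k w y} := by
  unfold Bl
  rw [Set.ofPred_forall]
  refine MeasurableSet.iInter fun j => ?_
  have h : Measurable (fun y : ℝ => ⌊y * (b : ℝ) ^ (j.val + 1)⌋) :=
    Int.measurable_floor.comp (measurable_id.mul_const _)
  exact h (t := {m : ℤ | m % (b : ℤ) = w j}) (MeasurableSet.of_discrete)

lemma chi_meas (b k : ℕ) (w : Fin k → ℤ) : Measurable (chi b k w) :=
  Measurable.ite (Bl_meas b k w) measurable_const measurable_const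

lemma chi_nonneg (b k : ℕ) (w : Fin k → ℤ) (y : ℝ) : 0 ≤ chi b k w y := by
  unfold chi; split_ifs <;> norm_num

lemma chi_le (b k : ℕ) (w : Fin k → ℤ) (y : ℝ) : chi b k w y ≤ 1 := by
  unfold chi; split_ifs <;> norm_num

lemma Bl_shift (b k : ℕ) (w : Fin k → ℤ) (y : ℝ) (n : ℤ) : Bl b k w (y + n) ↔ Bl b k w y := by
  unfold Bl
  apply forall_congr'
  intro j
  have h1 : (y + n) * (b : ℝ) ^ (j.val + 1) =
      y * (b : ℝ) ^ (j.val + 1) + ((n * (b : ℤ) ^ (j.val + 1) : ℤ) : ℝ) := by
    push_cast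
    ring
  rw [h1, Int.floor_add_intCast]
  have h2 : n * (b : ℤ) ^ (j.val + 1) = (b : ℤ) * (n * (b : ℤ) ^ j.val) := by ring
  rw [h2, Int.add_mul_emod_self_left]

lemma chi_shift (b k : ℕ) (w : Fin k → ℤ) (y : ℝ) (n : ℤ) : chi b k w (y + n) = chi b k w y := by
  unfold chi
  simp only [Bl_shift]

lemma Bl_succ (b k : ℕ) (w : Fin (k + 1) → ℤ) (y : ℝ) :
    Bl b (k + 1) w y ↔ ⌊y * (b : ℝ)⌋ % (b : ℤ) = w 0 ∧ Bl b k (Fin.tail w) (y * b) := by
  unfold Bl
  rw [Fin.forall_fin_succ]
  simp only [Fin.val_zero, zero_add, pow_one, Fin.val_succ, Fin.tail]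
  apply and_congr Iff.rfl
  apply forall_congr'
  intro j
  have : y * (b : ℝ) ^ (j.val + 1 + 1) = y * b * (b : ℝ) ^ (j.val + 1) := by ring
  rw [this]

lemma ii_of_bdd {F : ℝ → ℝ} (hm : Measurable F) {C : ℝ} (hC : ∀ x, |F x| ≤ C) (a b : ℝ) :
    IntervalIntegrable F volume a b := by
  rw [intervalIntegrable_iff]
  refine Measure.integrableOn_of_bounded (M := C) ?_ hm.aestronglyMeasurable ?_
  · rw [Set.uIoc]
    simp
  · exact Eventually.of_forall fun x => by rw [Real.norm_eq_abs]; exact hC x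

lemma unit_int {F : ℝ → ℝ} (hF : ∀ (y : ℝ) (n : ℤ), F (y + n) = F y) (a : ℤ) :
    ∫ y in (a : ℝ)..(a : ℝ) + 1, F y = ∫ y in (0 : ℝ)..1, F y := by
  have hper : Function.Periodic F 1 := fun y => by simpa using hF y 1
  have := hper.intervalIntegral_add_eq (a : ℝ) 0
  rwa [zero_add] at this

lemma int_scale {b : ℕ} (hb : 0 < b) {F : ℝ → ℝ} (hm : Measurable F) {C : ℝ} (hC : ∀ x, |F x| ≤ C)
    (hF : ∀ (y : ℝ) (n : ℤ), F (y + n) = F y) :
    ∫ y in (0 : ℝ)..1, F (y * b) = ∫ y in (0 : ℝ)..1, F y := by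
  have hb' : (b : ℝ) ≠ 0 := by exact_mod_cast hb.ne'
  rw [intervalIntegral.integral_comp_mul_right (fun x => F x) hb', zero_mul, one_mul]
  have hper : Function.Periodic F 1 := fun y => by simpa using hF y 1
  have h := hper.intervalIntegral_add_zsmul_eq (b : ℤ) 0 (fun a b => ii_of_bdd hm hC a b)
  simp only [zero_add, zsmul_eq_mul, Int.cast_natCast, mul_one] at h
  rw [h, smul_eq_mul]
  field_simp

lemma mean {b : ℕ} (hb : 2 ≤ b) {G : ℝ → ℝ} (hm : Measurable G) {C : ℝ} (hC : ∀ x, |G x| ≤ C)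
    (hG : ∀ (y : ℝ) (n : ℤ), G (y + n) = G y) (s : ℕ) (k : ℕ) (w : Fin k → ℤ)
    (hw : ∀ j, 0 ≤ w j ∧ w j < (b : ℤ)) :
    ∫ y in (0 : ℝ)..1, chi b k w y * G (y * (b : ℝ) ^ (k + s)) =
      (1 / (b : ℝ)) ^ k * ∫ y in (0 : ℝ)..1, G (y * (b : ℝ) ^ s) := by
  have hb0 : 0 < b := by omega
  have hb' : (b : ℝ) ≠ 0 := by exact_mod_cast hb0.ne'
  induction k with
  | zero =>
    have : ∀ y, chi b 0 w y = 1 := by
      intro y
      unfold chi Bl
      simp
    simp [this]
  | succ k ih =>
    have ih' := ih (Fin.tail w) (fun j => hw j.succ)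
    set f : ℝ → ℝ := fun z => chi b k (Fin.tail w) z * G (z * (b : ℝ) ^ (k + s)) with hf
    have hfm : Measurable f := (chi_meas _ _ _).mul (hm.comp (measurable_id.mul_const _))
    have hfC : ∀ x, |f x| ≤ C := by
      intro x
      simp only [hf]
      rw [abs_mul, abs_of_nonneg (chi_nonneg _ _ _ _)]
      have h1 := chi_le b k (Fin.tail w) x
      have h2 := hC (x * (b : ℝ) ^ (k + s))
      have h3 := chi_nonneg b k (Fin.tail w) x
      have h4 := abs_nonneg (G (x * (b : ℝ) ^ (k + s)))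
      nlinarith
    have hfs : ∀ (y : ℝ) (n : ℤ), f (y + n) = f y := by
      intro y n
      simp only [hf]
      rw [chi_shift]
      congr 1
      have : (y + n) * (b : ℝ) ^ (k + s) = y * (b : ℝ) ^ (k + s) + ((n * (b : ℤ) ^ (k + s) : ℤ) : ℝ) := by
        push_cast; ring
      rw [this, hG]
    set F : ℝ → ℝ := fun z => if ⌊z⌋ % (b : ℤ) = w 0 then f z else 0 with hFdef
    have hFm : Measurable F := by
      apply Measurable.ite _ hfm measurable_const
      exact Int.measurable_floor (t := {m : ℤ | m % (b : ℤ) = w 0}) MeasurableSet.of_discrete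
    have hC0 : 0 ≤ C := (abs_nonneg _).trans (hC 0)
    have hFC : ∀ x, |F x| ≤ C := by
      intro x
      simp only [hFdef]
      split_ifs
      · exact hfC x
      · simpa using hC0
    have h1 : ∀ y, chi b (k + 1) w y * G (y * (b : ℝ) ^ (k + 1 + s)) = F (y * b) := by
      intro y
      simp only [hFdef, hf, chi, Bl_succ]
      have e1 : y * (b : ℝ) ^ (k + 1 + s) = y * b * (b : ℝ) ^ (k + s) := by ring
      rw [e1]
      by_cases h : ⌊y * (b : ℝ)⌋ % (b : ℤ) = w 0
      · simp [h]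
      · simp [h]
    simp_rw [h1]
    rw [intervalIntegral.integral_comp_mul_right (fun x => F x) hb', zero_mul, one_mul]
    have h2 : ∫ x in (0 : ℝ)..(b : ℝ), F x = ∑ a ∈ Finset.range b, ∫ x in (a : ℝ)..((a + 1 : ℕ) : ℝ), F x := by
      have := intervalIntegral.sum_integral_adjacent_intervals (f := F) (μ := volume)
        (a := fun n : ℕ => (n : ℝ)) (n := b) (fun k _ => ii_of_bdd hFm hFC _ _)
      simpa using this.symm
    have h3 : ∀ a ∈ Finset.range b, ∫ x in (a : ℝ)..((a + 1 : ℕ) : ℝ), F x =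
        if (a : ℤ) = w 0 then ∫ x in (0 : ℝ)..1, f x else 0 := by
      intro a ha
      have hab : a < b := Finset.mem_range.mp ha
      have hfl : ∀ x ∈ Set.Ioo (a : ℝ) ((a + 1 : ℕ) : ℝ), ⌊x⌋ = (a : ℤ) := by
        intro x hx
        rw [Int.floor_eq_iff]
        constructor
        · exact_mod_cast hx.1.le
        · have := hx.2
          push_cast at this ⊢
          exact this
      have hmod : ((a : ℤ)) % (b : ℤ) = a := Int.emod_eq_of_lt (by positivity) (by exact_mod_cast hab)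
      rw [intervalIntegral.integral_of_le (by push_cast; linarith), integral_Ioc_eq_integral_Ioo]
      split_ifs with h
      · rw [← unit_int hfs a, intervalIntegral.integral_of_le (by linarith),
          integral_Ioc_eq_integral_Ioo]
        push_cast
        apply setIntegral_congr_fun measurableSet_Ioo
        intro x hx
        simp only [hFdef]
        rw [hfl x (by push_cast; exact hx), hmod, if_pos h]
      · rw [setIntegral_congr_fun (g := fun _ => (0 : ℝ)) measurableSet_Ioo, integral_zero]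
        intro x hx
        simp only [hFdef]
        rw [hfl x hx, hmod, if_neg h]
    rw [h2, Finset.sum_congr rfl h3]
    obtain ⟨a, ha⟩ : ∃ a : ℕ, (a : ℤ) = w 0 := ⟨(w 0).toNat, Int.toNat_of_nonneg (hw 0).1⟩
    have hab : a < b := by
      have := (hw 0).2
      rw [← ha] at this
      exact_mod_cast this
    have h4 : ∑ i ∈ Finset.range b, (if (i : ℤ) = w 0 then ∫ x in (0 : ℝ)..1, f x else 0) =
        ∫ x in (0 : ℝ)..1, f x := by
      rw [Finset.sum_eq_single a]
      · rw [if_pos ha]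
      · intro i _ hi
        rw [if_neg]
        intro h
        rw [← ha] at h
        exact hi (by exact_mod_cast h)
      · intro h
        exact absurd (Finset.mem_range.mpr hab) h
    rw [h4, ih', smul_eq_mul, pow_succ]
    ring

/-- the centred indicator of the block `w` at position `i` -/
noncomputable def gi (b k : ℕ) (w : Fin k → ℤ) (i : ℕ) (x : ℝ) : ℝ :=
  chi b k w (x * (b : ℝ) ^ i) - (1 / (b : ℝ)) ^ k

lemma gi_meas (b k : ℕ) (w : Fin k → ℤ) (i : ℕ) : Measurable (gi b k w i) :=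
  ((chi_meas b k w).comp (measurable_id.mul_const _)).sub_const _

lemma gi_le {b : ℕ} (hb : 2 ≤ b) (k : ℕ) (w : Fin k → ℤ) (i : ℕ) (x : ℝ) : |gi b k w i x| ≤ 1 := by
  unfold gi
  have h1 := chi_nonneg b k w (x * (b : ℝ) ^ i)
  have h2 := chi_le b k w (x * (b : ℝ) ^ i)
  have hb' : (1 : ℝ) ≤ b := by exact_mod_cast (by omega : 1 ≤ b)
  have h3 : (0 : ℝ) ≤ (1 / (b : ℝ)) ^ k := by positivity
  have h4 : (1 / (b : ℝ)) ^ k ≤ 1 := by
    apply pow_le_one₀ (by positivity)
    rw [div_le_one (by linarith)]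
    exact hb'
  rw [abs_le]
  constructor <;> linarith

lemma int_chi {b : ℕ} (hb : 2 ≤ b) (k : ℕ) (w : Fin k → ℤ)
    (hw : ∀ j, 0 ≤ w j ∧ w j < (b : ℤ)) : ∫ y in (0 : ℝ)..1, chi b k w y = (1 / (b : ℝ)) ^ k := by
  have h := mean hb (G := fun _ => (1 : ℝ)) measurable_const (C := 1) (fun _ => by simp)
    (fun _ _ => rfl) 0 k w hw
  simpa using h

lemma chi_pow_shift (b k : ℕ) (w : Fin k → ℤ) (m : ℕ) (y : ℝ) (n : ℤ) :
    chi b k w ((y + n) * (b : ℝ) ^ m) = chi b k w (y * (b : ℝ) ^ m) := by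
  have : (y + n) * (b : ℝ) ^ m = y * (b : ℝ) ^ m + ((n * (b : ℤ) ^ m : ℤ) : ℝ) := by
    push_cast; ring
  rw [this, chi_shift]

lemma int_chi_pow {b : ℕ} (hb : 2 ≤ b) (k : ℕ) (w : Fin k → ℤ)
    (hw : ∀ j, 0 ≤ w j ∧ w j < (b : ℤ)) (i : ℕ) :
    ∫ y in (0 : ℝ)..1, chi b k w (y * (b : ℝ) ^ i) = (1 / (b : ℝ)) ^ k := by
  have h := int_scale (b := b ^ i) (by positivity) (chi_meas b k w) (C := 1) (fun x => by
    rw [abs_of_nonneg (chi_nonneg _ _ _ _)]; exact chi_le _ _ _ _) (chi_shift b k w)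
  push_cast at h
  rw [h, int_chi hb k w hw]

/-- decorrelation -/
lemma gi_orth {b : ℕ} (hb : 2 ≤ b) (k : ℕ) (w : Fin k → ℤ)
    (hw : ∀ j, 0 ≤ w j ∧ w j < (b : ℤ)) (i s : ℕ) :
    ∫ y in (0 : ℝ)..1, gi b k w i y * gi b k w (i + (k + s)) y = 0 := by
  set p : ℝ := (1 / (b : ℝ)) ^ k with hp
  have hcm : ∀ m, Measurable fun y : ℝ => chi b k w (y * (b : ℝ) ^ m) := fun m =>
    (chi_meas b k w).comp (measurable_id.mul_const _)
  have hcb : ∀ m (y : ℝ), |chi b k w (y * (b : ℝ) ^ m)| ≤ 1 := fun m y => by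
    rw [abs_of_nonneg (chi_nonneg _ _ _ _)]; exact chi_le _ _ _ _
  have hprod : ∫ y in (0 : ℝ)..1, chi b k w (y * (b : ℝ) ^ i) * chi b k w (y * (b : ℝ) ^ (i + (k + s)))
      = p * p := by
    have h1 : ∀ y : ℝ, chi b k w (y * (b : ℝ) ^ i) * chi b k w (y * (b : ℝ) ^ (i + (k + s))) =
        (fun z : ℝ => chi b k w z * chi b k w (z * (b : ℝ) ^ (k + s))) (y * ((b ^ i : ℕ) : ℝ)) := by
      intro y
      simp only
      push_cast
      rw [pow_add, ← mul_assoc]
    simp_rw [h1]
    have h2 := int_scale (b := b ^ i) (by positivity)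
      (F := fun z : ℝ => chi b k w z * chi b k w (z * (b : ℝ) ^ (k + s)))
      ((chi_meas b k w).mul (hcm _)) (C := 1) (fun x => by
        rw [abs_mul]
        have a1 := hcb 0 x
        rw [pow_zero, mul_one] at a1
        have a2 := hcb (k + s) x
        have a3 := abs_nonneg (chi b k w x)
        have a4 := abs_nonneg (chi b k w (x * (b : ℝ) ^ (k + s)))
        nlinarith) (fun y n => by
        rw [chi_shift, chi_pow_shift])
    rw [h2, mean hb (chi_meas b k w) (C := 1) (fun x => by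
      rw [abs_of_nonneg (chi_nonneg _ _ _ _)]; exact chi_le _ _ _ _) (chi_shift b k w) s k w hw,
      int_chi_pow hb k w hw s]
  have h1 : ∀ y, gi b k w i y * gi b k w (i + (k + s)) y =
      chi b k w (y * (b : ℝ) ^ i) * chi b k w (y * (b : ℝ) ^ (i + (k + s))) -
      p * chi b k w (y * (b : ℝ) ^ i) - p * chi b k w (y * (b : ℝ) ^ (i + (k + s))) + p * p := by
    intro y
    unfold gi
    ring
  have i1 : IntervalIntegrable (fun y : ℝ => chi b k w (y * (b : ℝ) ^ i)) volume 0 1 :=
    ii_of_bdd (hcm i) (hcb i) 0 1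
  have i2 : IntervalIntegrable (fun y : ℝ => chi b k w (y * (b : ℝ) ^ (i + (k + s)))) volume 0 1 :=
    ii_of_bdd (hcm _) (hcb _) 0 1
  have i3 : IntervalIntegrable (fun y : ℝ => chi b k w (y * (b : ℝ) ^ i) *
      chi b k w (y * (b : ℝ) ^ (i + (k + s)))) volume 0 1 := by
    apply ii_of_bdd ((hcm i).mul (hcm _)) (C := 1)
    intro x
    rw [Pi.mul_apply, abs_mul]
    have a1 := hcb i x
    have a2 := hcb (i + (k + s)) x
    have a3 := abs_nonneg (chi b k w (x * (b : ℝ) ^ i))
    have a4 := abs_nonneg (chi b k w (x * (b : ℝ) ^ (i + (k + s))))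
    nlinarith
  simp_rw [h1]
  rw [intervalIntegral.integral_add, intervalIntegral.integral_sub, intervalIntegral.integral_sub,
    intervalIntegral.integral_const_mul, intervalIntegral.integral_const_mul, hprod,
    int_chi_pow hb k w hw, int_chi_pow hb k w hw, ← hp]
  · simp
  · exact i3
  · exact i1.const_mul p
  · exact i3.sub (i1.const_mul p)
  · exact i2.const_mul p
  · exact (i3.sub (i1.const_mul p)).sub (i2.const_mul p)
  · exact intervalIntegrable_const

/-- the centred counting function -/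
noncomputable def Zn (b k : ℕ) (w : Fin k → ℤ) (n : ℕ) (x : ℝ) : ℝ :=
  ∑ i ∈ Finset.range n, gi b k w i x

lemma Zn_meas (b k : ℕ) (w : Fin k → ℤ) (n : ℕ) : Measurable (Zn b k w n) := by
  unfold Zn
  exact Finset.measurable_sum _ fun i _ => gi_meas b k w i

lemma second_moment {b : ℕ} (hb : 2 ≤ b) (k : ℕ) (w : Fin k → ℤ)
    (hw : ∀ j, 0 ≤ w j ∧ w j < (b : ℤ)) (n : ℕ) :
    ∫ y in (0 : ℝ)..1, Zn b k w n y ^ 2 ≤ (2 * k + 1) * n := by
  have hii : ∀ i j, IntervalIntegrable (fun y => gi b k w i y * gi b k w j y) volume 0 1 := by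
    intro i j
    apply ii_of_bdd ((gi_meas b k w i).mul (gi_meas b k w j)) (C := 1)
    intro x
    rw [Pi.mul_apply, abs_mul]
    have a1 := gi_le hb k w i x
    have a2 := gi_le hb k w j x
    have a3 := abs_nonneg (gi b k w i x)
    have a4 := abs_nonneg (gi b k w j x)
    nlinarith
  have h1 : ∀ y, Zn b k w n y ^ 2 = ∑ i ∈ Finset.range n, ∑ j ∈ Finset.range n,
      gi b k w i y * gi b k w j y := by
    intro y
    unfold Zn
    rw [sq, Finset.sum_mul_sum]
  simp_rw [h1]
  rw [intervalIntegral.integral_finsetSum]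
  swap
  · intro i _
    have h := IntervalIntegrable.sum (Finset.range n) (fun j _ => hii i j)
    have e1 : (fun y => ∑ j ∈ Finset.range n, gi b k w i y * gi b k w j y) =
        ∑ j ∈ Finset.range n, fun y => gi b k w i y * gi b k w j y := by
      funext y
      simp
    rw [e1]
    exact h
  have h2 : ∀ i ∈ Finset.range n, ∫ y in (0 : ℝ)..1, ∑ j ∈ Finset.range n,
      gi b k w i y * gi b k w j y ≤ 2 * k + 1 := by
    intro i _
    rw [intervalIntegral.integral_finsetSum fun j _ => hii i j]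
    have h3 : ∀ j ∈ Finset.range n, ∫ y in (0 : ℝ)..1, gi b k w i y * gi b k w j y ≤
        if j ∈ Finset.Icc (i - k) (i + k) then 1 else 0 := by
      intro j _
      split_ifs with h
      · have h4 : ∀ y ∈ Set.uIoc (0 : ℝ) 1, ‖gi b k w i y * gi b k w j y‖ ≤ 1 := by
          intro y _
          rw [norm_mul, Real.norm_eq_abs, Real.norm_eq_abs]
          have a1 := gi_le hb k w i y
          have a2 := gi_le hb k w j y
          have a3 := abs_nonneg (gi b k w i y)
          have a4 := abs_nonneg (gi b k w j y)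
          nlinarith
        have h5 := intervalIntegral.norm_integral_le_of_norm_le_const h4
        rw [sub_zero, abs_one, mul_one, Real.norm_eq_abs] at h5
        exact (le_abs_self _).trans h5
      · rw [Finset.mem_Icc, not_and_or, not_le, not_le] at h
        rcases h with h | h
        · have h6 := gi_orth hb k w hw j (i - j - k)
          have h7 : j + (k + (i - j - k)) = i := by omega
          rw [h7] at h6
          simp_rw [mul_comm (gi b k w i _)]
          exact h6.le
        · have h6 := gi_orth hb k w hw i (j - i - k)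
          have h7 : i + (k + (j - i - k)) = j := by omega
          rw [h7] at h6
          exact h6.le
    calc _ ≤ ∑ j ∈ Finset.range n, (if j ∈ Finset.Icc (i - k) (i + k) then (1 : ℝ) else 0) :=
          Finset.sum_le_sum h3
      _ = (((Finset.range n).filter (fun j => j ∈ Finset.Icc (i - k) (i + k))).card : ℝ) := by
          rw [Finset.sum_boole]
      _ ≤ ((Finset.Icc (i - k) (i + k)).card : ℝ) := by
          exact_mod_cast Finset.card_le_card (fun j hj => (Finset.mem_filter.mp hj).2)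
      _ ≤ 2 * k + 1 := by
          rw [Nat.card_Icc]
          have : i + k + 1 - (i - k) ≤ 2 * k + 1 := by omega
          exact_mod_cast this
  calc _ ≤ ∑ i ∈ Finset.range n, (2 * (k : ℝ) + 1) := Finset.sum_le_sum h2
    _ = (2 * k + 1) * n := by
        rw [Finset.sum_const, Finset.card_range, nsmul_eq_mul]
        ring

end Pool.Agent.H747R3.V
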