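import Pool.Agent.H747R3.VA

set_option autoImplicit false

open MeasureTheory Filter Topology
open scoped ENNReal

namespace Pool.Agent.H747R3.V

/-- Lebesgue measure on `[0,1)` -/
noncomputable def μ0 : Measure ℝ := volume.restrict (Set.Ico 0 1)

instance : IsProbabilityMeasure μ0 := ⟨by simp [μ0]⟩

lemma int_eq (F : ℝ → ℝ) : ∫ y in (0 : ℝ)..1, F y = ∫ y, F y ∂μ0 := by
  rw [intervalIntegral.integral_of_le zero_le_one]
  unfold μ0
  rw [integral_Ico_eq_integral_Ioo, integral_Ioc_eq_integral_Ioo]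

lemma Zn_le {b : ℕ} (hb : 2 ≤ b) (k : ℕ) (w : Fin k → ℤ) (n : ℕ) (x : ℝ) : |Zn b k w n x| ≤ n := by
  unfold Zn
  refine (Finset.abs_sum_le_sum_abs _ _).trans ?_
  calc _ ≤ ∑ i ∈ Finset.range n, (1 : ℝ) := Finset.sum_le_sum fun i _ => gi_le hb k w i x
    _ = n := by simp

lemma Zn_diff {b : ℕ} (hb : 2 ≤ b) (k : ℕ) (w : Fin k → ℤ) {m n : ℕ} (h : m ≤ n) (x : ℝ) :
    |Zn b k w n x| ≤ |Zn b k w m x| + (n - m : ℕ) := by
  unfold Zn
  rw [← Finset.sum_range_add_sum_Ico _ h]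
  refine (abs_add_le _ _).trans ?_
  have h1 : |∑ i ∈ Finset.Ico m n, gi b k w i x| ≤ (n - m : ℕ) := by
    refine (Finset.abs_sum_le_sum_abs _ _).trans ?_
    calc _ ≤ ∑ i ∈ Finset.Ico m n, (1 : ℝ) := Finset.sum_le_sum fun i _ => gi_le hb k w i x
      _ = (n - m : ℕ) := by simp
  linarith

lemma cheb {b : ℕ} (hb : 2 ≤ b) (k : ℕ) (w : Fin k → ℤ)
    (hw : ∀ j, 0 ≤ w j ∧ w j < (b : ℤ)) (n : ℕ) (hn : 0 < n) (η : ℝ) (hη : 0 < η) :
    μ0 {x | η * n ≤ |Zn b k w n x|} ≤ ENNReal.ofReal ((2 * k + 1) / (η ^ 2 * n)) := by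
  have hn' : (0 : ℝ) < n := by exact_mod_cast hn
  have hint : Integrable (fun x => Zn b k w n x ^ 2) μ0 := by
    refine Integrable.of_bound ((Zn_meas b k w n).pow_const 2).aestronglyMeasurable ((n : ℝ) ^ 2) ?_
    refine Eventually.of_forall fun x => ?_
    rw [norm_pow, Real.norm_eq_abs]
    exact pow_le_pow_left₀ (abs_nonneg _) (Zn_le hb k w n x) 2
  have h1 := mul_meas_ge_le_integral_of_nonneg (Eventually.of_forall fun x => sq_nonneg _) hint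
    ((η * n) ^ 2)
  have h2 := second_moment hb k w hw n
  rw [int_eq] at h2
  have h3 : {x | (η * n) ^ 2 ≤ Zn b k w n x ^ 2} = {x | η * n ≤ |Zn b k w n x|} := by
    ext x
    simp only [Set.mem_setOf_eq]
    rw [← sq_abs (Zn b k w n x)]
    exact pow_le_pow_iff_left₀ (by positivity) (abs_nonneg _) two_ne_zero
  rw [h3] at h1
  have h4 : μ0.real {x | η * n ≤ |Zn b k w n x|} ≤ (2 * k + 1) / (η ^ 2 * n) := by
    rw [le_div_iff₀ (by positivity)]
    have h5 : (η * n) ^ 2 * μ0.real {x | η * n ≤ |Zn b k w n x|} ≤ (2 * k + 1) * n := h1.trans h2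
    have h6 : (μ0.real {x | η * n ≤ |Zn b k w n x|} * (η ^ 2 * n)) * n ≤ (2 * k + 1) * n := by
      linarith
    exact le_of_mul_le_mul_right h6 hn'
  rw [← ofReal_measureReal]
  exact ENNReal.ofReal_le_ofReal h4

lemma tail {b : ℕ} (hb : 2 ≤ b) (k : ℕ) (w : Fin k → ℤ)
    (hw : ∀ j, 0 ≤ w j ∧ w j < (b : ℤ)) (η : ℝ) (hη : 0 < η) (δ : ℝ≥0∞) (hδ : 0 < δ) :
    ∃ n₀ : ℕ, ∀ n₁, n₀ ≤ n₁ → μ0 {x | ∃ n, n₁ ≤ n ∧ η * n < |Zn b k w n x|} ≤ δ := by
  set A : ℕ → Set ℝ := fun m => {x | (η / 2) * ((m ^ 2 : ℕ) : ℝ) ≤ |Zn b k w (m ^ 2) x|} with hA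
  set K : ℝ := (2 * k + 1) / (η / 2) ^ 2 with hK
  have hK0 : 0 < K := by positivity
  have hAm : ∀ m, μ0 (A (m + 1)) ≤ ENNReal.ofReal (K * (1 / ((m : ℝ) + 1) ^ 2)) := by
    intro m
    refine (cheb hb k w hw ((m + 1) ^ 2) (by positivity) (η / 2) (by positivity)).trans
      (le_of_eq ?_)
    congr 1
    rw [hK]
    push_cast
    field_simp
  have hsum : ∑' m, μ0 (A (m + 1)) ≠ ⊤ := by
    have hs : Summable (fun m : ℕ => K * (1 / ((m : ℝ) + 1) ^ 2)) := by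
      have h := (summable_nat_add_iff 1).mpr (Real.summable_one_div_nat_pow.mpr
        (by norm_num : 1 < 2))
      refine Summable.mul_left K (h.congr fun n => ?_)
      push_cast
      rfl
    refine ne_top_of_le_ne_top ?_ (ENNReal.tsum_le_tsum hAm)
    rw [← ENNReal.ofReal_tsum_of_nonneg (fun m => by positivity) hs]
    exact ENNReal.ofReal_ne_top
  have htend := ENNReal.tendsto_sum_nat_add (fun m => μ0 (A (m + 1))) hsum
  obtain ⟨m₁, hm₁⟩ := ((htend.eventually (gt_mem_nhds hδ)).and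
    (eventually_ge_atTop ⌈4 / η⌉₊)).exists
  refine ⟨(m₁ + 1) ^ 2, fun n₁ hn₁ => ?_⟩
  have hsub : {x | ∃ n, n₁ ≤ n ∧ η * n < |Zn b k w n x|} ⊆ ⋃ j, A (j + m₁ + 1) := by
    rintro x ⟨n, hn, hx⟩
    set m := Nat.sqrt n with hm
    have hmm : m₁ + 1 ≤ m := by
      rw [hm, Nat.le_sqrt']
      exact hn₁.trans hn
    have h1 : m ^ 2 ≤ n := Nat.sqrt_le' n
    have h2 : n ≤ m ^ 2 + 2 * m := by
      have := Nat.sqrt_le_add n
      rw [← hm] at this
      nlinarith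
    rw [Set.mem_iUnion]
    refine ⟨m - m₁ - 1, ?_⟩
    have h3 : m - m₁ - 1 + m₁ + 1 = m := by omega
    rw [h3]
    show (η / 2) * ((m ^ 2 : ℕ) : ℝ) ≤ |Zn b k w (m ^ 2) x|
    have h4 := Zn_diff hb k w h1 x
    have h5 : ((n - m ^ 2 : ℕ) : ℝ) ≤ 2 * m := by
      have : n - m ^ 2 ≤ 2 * m := by omega
      exact_mod_cast this
    have h6 : ((m ^ 2 : ℕ) : ℝ) ≤ n := by exact_mod_cast h1
    have h7 : 4 / η ≤ m := by
      have h8 : (⌈4 / η⌉₊ : ℝ) ≤ m := by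
        have : ⌈4 / η⌉₊ ≤ m := by omega
        exact_mod_cast this
      exact (Nat.le_ceil _).trans h8
    rw [div_le_iff₀ hη] at h7
    have h9 : η * ((m ^ 2 : ℕ) : ℝ) ≤ η * n := by gcongr
    have h10 : (0 : ℝ) ≤ m := Nat.cast_nonneg m
    push_cast at *
    nlinarith
  calc μ0 _ ≤ μ0 (⋃ j, A (j + m₁ + 1)) := measure_mono hsub
    _ ≤ ∑' j, μ0 (A (j + m₁ + 1)) := measure_iUnion_le _
    _ ≤ δ := hm₁.1.le

/-! ### Cylinders -/

/-- the digits up to position `m` are determined by `⌊x b^m⌋` -/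
lemma floor_low {b : ℕ} (hb : 2 ≤ b) {r m : ℕ} (h : r ≤ m) (x : ℝ) :
    ⌊x * (b : ℝ) ^ r⌋ = ⌊x * (b : ℝ) ^ m⌋ / ((b ^ (m - r) : ℕ) : ℤ) := by
  rw [← Int.floor_div_natCast]
  congr 1
  have hb' : (b : ℝ) ≠ 0 := by exact_mod_cast (by omega : b ≠ 0)
  push_cast
  rw [eq_div_iff (by positivity), mul_assoc, ← pow_add]
  congr 2
  omega

lemma Zn_congr {b : ℕ} (hb : 2 ≤ b) (k : ℕ) (w : Fin k → ℤ) {m n : ℕ} (h : n + k ≤ m) {x y : ℝ}
    (hxy : ⌊x * (b : ℝ) ^ m⌋ = ⌊y * (b : ℝ) ^ m⌋) : Zn b k w n x = Zn b k w n y := by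
  unfold Zn
  apply Finset.sum_congr rfl
  intro i hi
  have hin := Finset.mem_range.mp hi
  unfold gi chi
  congr 1
  have h1 : Bl b k w (x * (b : ℝ) ^ i) ↔ Bl b k w (y * (b : ℝ) ^ i) := by
    unfold Bl
    apply forall_congr'
    intro j
    have hj := j.isLt
    have e1 : ∀ z : ℝ, z * (b : ℝ) ^ i * (b : ℝ) ^ (j.val + 1) = z * (b : ℝ) ^ (i + (j.val + 1)) := by
      intro z
      rw [pow_add]
      ring
    rw [e1, e1, floor_low hb (by omega : i + (j.val + 1) ≤ m) x,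
      floor_low hb (by omega : i + (j.val + 1) ≤ m) y, hxy]
  simp only [h1]

/-- comparison of a measure with Lebesgue measure on cylinders -/
lemma cyl_compare (ν : Measure ℝ) (K : ℝ≥0∞) {b m : ℕ} (hb : 2 ≤ b)
    (hν : ∀ a : ℝ, ν (Set.Icc a (a + 1 / (b : ℝ) ^ m)) ≤ K * ENNReal.ofReal (1 / (b : ℝ) ^ m))
    (p : ℤ → Prop) :
    ν {x | x ∈ Set.Ico (0 : ℝ) 1 ∧ p ⌊x * (b : ℝ) ^ m⌋} ≤
      K * μ0 {x | p ⌊x * (b : ℝ) ^ m⌋} := by
  classical
  have hb' : (0 : ℝ) < b := by exact_mod_cast (by omega : 0 < b)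
  have hbm : (0 : ℝ) < (b : ℝ) ^ m := by positivity
  set J : Finset ℕ := (Finset.range (b ^ m)).filter (fun a => p a) with hJ
  set I : ℕ → Set ℝ := fun a => Set.Ico ((a : ℝ) / (b : ℝ) ^ m) (((a : ℝ) + 1) / (b : ℝ) ^ m) with hI
  have hImem : ∀ a : ℕ, ∀ x, x ∈ I a ↔ ⌊x * (b : ℝ) ^ m⌋ = (a : ℤ) := by
    intro a x
    rw [Int.floor_eq_iff]
    simp only [hI, Set.mem_Ico]
    rw [div_le_iff₀ hbm, lt_div_iff₀ hbm]
    push_cast
    rfl
  have hset : {x | x ∈ Set.Ico (0 : ℝ) 1 ∧ p ⌊x * (b : ℝ) ^ m⌋} = ⋃ a ∈ J, I a := by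
    ext x
    simp only [Set.mem_iUnion, hJ, Finset.mem_filter, Finset.mem_range, exists_prop]
    constructor
    · rintro ⟨hx, hp⟩
      have h0 : 0 ≤ ⌊x * (b : ℝ) ^ m⌋ := Int.floor_nonneg.mpr (mul_nonneg hx.1 hbm.le)
      obtain ⟨a, ha⟩ := Int.eq_ofNat_of_zero_le h0
      refine ⟨a, ⟨?_, ?_⟩, (hImem a x).mpr ha⟩
      · have h1 : (⌊x * (b : ℝ) ^ m⌋ : ℝ) ≤ x * (b : ℝ) ^ m := Int.floor_le _
        rw [ha] at h1
        have h2 : x * (b : ℝ) ^ m < (b : ℝ) ^ m := by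
          have := hx.2
          nlinarith
        have h3 : (a : ℝ) < (b : ℝ) ^ m := by
          push_cast at h1
          linarith
        exact_mod_cast h3
      · rw [← ha]; exact hp
    · rintro ⟨a, ⟨ha1, ha2⟩, hxa⟩
      have h1 := (hImem a x).mp hxa
      refine ⟨?_, by rw [h1]; exact ha2⟩
      have ha3 : (a : ℝ) + 1 ≤ (b : ℝ) ^ m := by exact_mod_cast ha1
      simp only [hI, Set.mem_Ico] at hxa
      constructor
      · exact le_trans (by positivity) hxa.1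
      · refine hxa.2.trans_le ?_
        rw [div_le_one hbm]
        exact ha3
  have hvol : ∀ a, volume (I a) = ENNReal.ofReal (1 / (b : ℝ) ^ m) := by
    intro a
    simp only [hI]
    rw [Real.volume_Ico]
    congr 1
    ring
  have hdisj : Set.PairwiseDisjoint (J : Set ℕ) I := by
    intro a _ c _ hac
    rw [Function.onFun, Set.disjoint_left]
    intro x hx1 hx2
    rw [hImem] at hx1 hx2
    rw [hx1] at hx2
    exact hac (by exact_mod_cast hx2)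
  have hμ : μ0 {x | p ⌊x * (b : ℝ) ^ m⌋} = J.card * ENNReal.ofReal (1 / (b : ℝ) ^ m) := by
    have h1 : {x | p ⌊x * (b : ℝ) ^ m⌋} ∩ Set.Ico (0 : ℝ) 1 = ⋃ a ∈ J, I a := by
      rw [← hset]
      ext x
      simp only [Set.mem_inter_iff, Set.mem_setOf_eq]
      tauto
    unfold μ0
    rw [Measure.restrict_apply' measurableSet_Ico, h1,
      measure_biUnion_finset hdisj (fun a _ => measurableSet_Ico)]
    simp_rw [hvol]
    rw [Finset.sum_const, nsmul_eq_mul]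
  rw [hset, hμ]
  calc ν (⋃ a ∈ J, I a) ≤ ∑ a ∈ J, ν (I a) := measure_biUnion_finset_le _ _
    _ ≤ ∑ a ∈ J, K * ENNReal.ofReal (1 / (b : ℝ) ^ m) := by
        apply Finset.sum_le_sum
        intro a _
        refine le_trans (measure_mono ?_) (hν ((a : ℝ) / (b : ℝ) ^ m))
        intro x hx
        simp only [hI, Set.mem_Ico] at hx
        refine ⟨hx.1, ?_⟩
        rw [← add_div]
        exact hx.2.le
    _ = K * (J.card * ENNReal.ofReal (1 / (b : ℝ) ^ m)) := by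
        rw [Finset.sum_const, nsmul_eq_mul]
        ring

end Pool.Agent.H747R3.V
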