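import Pool.Agent.H747R3.VB

set_option autoImplicit false

open MeasureTheory Filter Topology
open scoped ENNReal

namespace Pool.Agent.H747R3.V

/-- set the binary digit at position `q + 1` to `1` -/
noncomputable def sd (q : ℕ) (y : ℝ) : ℝ :=
  if Int.fract (y * 2 ^ q) < 1 / 2 then y + (1 / 2) ^ (q + 1) else y

lemma sd_meas (q : ℕ) : Measurable (sd q) := by
  unfold sd
  apply Measurable.ite _ (measurable_id.add_const _) measurable_id
  have h : Measurable (fun y : ℝ => Int.fract (y * 2 ^ q)) :=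
    measurable_fract.comp (measurable_id.mul_const _)
  exact h measurableSet_Iio

lemma sd_ge (q : ℕ) (y : ℝ) : y ≤ sd q y := by
  unfold sd
  split_ifs
  · have : (0 : ℝ) < (1 / 2) ^ (q + 1) := by positivity
    linarith
  · exact le_rfl

lemma sd_le (q : ℕ) (y : ℝ) : sd q y ≤ y + (1 / 2) ^ (q + 1) := by
  unfold sd
  split_ifs
  · exact le_rfl
  · have : (0 : ℝ) < (1 / 2) ^ (q + 1) := by positivity
    linarith

lemma sd_mul (q : ℕ) (y : ℝ) : sd q y * 2 ^ q =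
    if Int.fract (y * 2 ^ q) < 1 / 2 then y * 2 ^ q + 1 / 2 else y * 2 ^ q := by
  unfold sd
  split_ifs
  · rw [add_mul, pow_succ]
    congr 1
    rw [mul_assoc, mul_comm ((1 : ℝ) / 2) (2 ^ q), ← mul_assoc, ← mul_pow]
    norm_num
  · rfl

/-- the floor at scale `q` is preserved and the next digit is one -/
lemma sd_floor (q : ℕ) (y : ℝ) : ⌊sd q y * 2 ^ q⌋ = ⌊y * 2 ^ q⌋ ∧ 1 / 2 ≤ Int.fract (sd q y * 2 ^ q) := by
  rw [sd_mul]
  have h0 := Int.fract_nonneg (y * 2 ^ q)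
  have h1 := Int.fract_lt_one (y * 2 ^ q)
  have h2 : (y * 2 ^ q) = ⌊y * 2 ^ q⌋ + Int.fract (y * 2 ^ q) := (Int.floor_add_fract _).symm
  split_ifs with h
  · have h3 : ⌊y * 2 ^ q + 1 / 2⌋ = ⌊y * 2 ^ q⌋ := by
      rw [Int.floor_eq_iff]
      constructor <;> linarith
    refine ⟨h3, ?_⟩
    have h4 : Int.fract (y * 2 ^ q + 1 / 2) = y * 2 ^ q + 1 / 2 - ⌊y * 2 ^ q⌋ := by
      unfold Int.fract
      rw [h3]
    rw [h4]
    linarith
  · exact ⟨rfl, not_lt.mp h⟩

/-- digits before position `q` are preserved -/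
lemma sd_floor_low {q r : ℕ} (h : r ≤ q) (y : ℝ) : ⌊sd q y * 2 ^ r⌋ = ⌊y * 2 ^ r⌋ := by
  have h1 := floor_low (b := 2) le_rfl h y
  have h2 := floor_low (b := 2) le_rfl h (sd q y)
  push_cast at h1 h2
  rw [h1, h2, (sd_floor q y).1]

/-- `1/2 ≤ fract (y 2^q)` in terms of floors -/
lemma fract_iff (q : ℕ) (y : ℝ) : 1 / 2 ≤ Int.fract (y * 2 ^ q) ↔
    ⌊y * 2 ^ (q + 1)⌋ = 2 * ⌊y * 2 ^ q⌋ + 1 := by
  have h0 := Int.fract_nonneg (y * 2 ^ q)
  have h1 := Int.fract_lt_one (y * 2 ^ q)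
  have h2 : (y * 2 ^ q) = ⌊y * 2 ^ q⌋ + Int.fract (y * 2 ^ q) := (Int.floor_add_fract _).symm
  have h3 : y * 2 ^ (q + 1) = 2 * (y * 2 ^ q) := by ring
  rw [h3, Int.floor_eq_iff]
  push_cast
  constructor
  · intro h
    constructor <;> linarith
  · rintro ⟨h4, h5⟩
    linarith

variable (p : ℕ → ℕ)

/-- the partial digit insertions -/
noncomputable def Th : ℕ → ℝ → ℝ
  | 0, x => x
  | (n + 1), x => sd (p n) (Th n x)

lemma Th_meas (n : ℕ) : Measurable (Th p n) := by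
  induction n with
  | zero => exact measurable_id
  | succ n ih => exact (sd_meas (p n)).comp ih

variable {p}

lemma Th_mono (n : ℕ) (x : ℝ) : Th p n x ≤ Th p (n + 1) x := sd_ge _ _

lemma Th_mono' (x : ℝ) : Monotone (fun n => Th p n x) := monotone_nat_of_le_succ fun n => Th_mono n x

lemma p_ge (hp : StrictMono p) (n : ℕ) : n ≤ p n := hp.le_apply

lemma Th_up (hp : StrictMono p) (n m : ℕ) (x : ℝ) :
    Th p (n + m) x ≤ Th p n x + (1 / 2) ^ p n - (1 / 2) ^ p (n + m) := by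
  induction m with
  | zero => simp
  | succ m ih =>
    have h1 : Th p (n + (m + 1)) x ≤ Th p (n + m) x + (1 / 2) ^ (p (n + m) + 1) := sd_le _ _
    have h2 : ((1 : ℝ) / 2) ^ p (n + (m + 1)) ≤ (1 / 2) ^ (p (n + m) + 1) := by
      apply pow_le_pow_of_le_one (by norm_num) (by norm_num)
      have : p (n + m) < p (n + (m + 1)) := hp (by omega)
      omega
    have h3 : ((1 : ℝ) / 2) ^ (p (n + m) + 1) = (1 / 2) ^ p (n + m) * (1 / 2) := pow_succ _ _
    linarith

lemma Th_le (hp : StrictMono p) {n m : ℕ} (h : n ≤ m) (x : ℝ) :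
    Th p m x ≤ Th p n x + (1 / 2) ^ p n := by
  obtain ⟨j, rfl⟩ := Nat.exists_eq_add_of_le h
  have h1 := Th_up hp n j x
  have h2 : (0 : ℝ) < (1 / 2) ^ p (n + j) := by positivity
  linarith

/-- the digit condition at stage `k` persists -/
lemma Th_digit (hp : StrictMono p) (k n : ℕ) (h : k < n) (x : ℝ) :
    1 / 2 ≤ Int.fract (Th p n x * 2 ^ p k) := by
  induction n, h using Nat.le_induction with
  | base => exact (sd_floor (p k) (Th p k x)).2
  | succ n hn ih =>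
    rw [fract_iff] at ih ⊢
    have hlt : p k < p n := hp hn
    show ⌊sd (p n) (Th p n x) * 2 ^ (p k + 1)⌋ = 2 * ⌊sd (p n) (Th p n x) * 2 ^ p k⌋ + 1
    rw [sd_floor_low (by omega), sd_floor_low (by omega)]
    exact ih

lemma sin_fract {z : ℝ} (h : 1 / 2 ≤ Int.fract z) : Real.sin (2 * Real.pi * z) ≤ 0 := by
  have h1 := Int.fract_lt_one z
  have h2 : 2 * Real.pi * z = 2 * Real.pi * Int.fract z + (⌊z⌋ : ℤ) * (2 * Real.pi) := by
    have : z = ⌊z⌋ + Int.fract z := (Int.floor_add_fract z).symm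
    nth_rewrite 1 [this]
    ring
  rw [h2, Real.sin_add_int_mul_two_pi]
  have h3 : Real.sin (2 * Real.pi * Int.fract z) = -Real.sin (2 * Real.pi * Int.fract z - Real.pi) := by
    rw [Real.sin_sub_pi, neg_neg]
  rw [h3, neg_nonpos]
  apply Real.sin_nonneg_of_nonneg_of_le_pi
  · nlinarith [Real.pi_pos]
  · nlinarith [Real.pi_pos]

lemma Th_sin (hp : StrictMono p) (k n : ℕ) (h : k < n) (x : ℝ) :
    Real.sin (2 * Real.pi * (((2 ^ p k : ℕ) : ℝ) * Th p n x)) ≤ 0 := by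
  have h1 := sin_fract (Th_digit hp k n h x)
  have h2 : (((2 ^ p k : ℕ) : ℝ) * Th p n x) = Th p n x * 2 ^ p k := by
    push_cast
    ring
  rw [h2]
  exact h1

lemma Th_range (n : ℕ) (x : ℝ) (hx : x ∈ Set.Ico (0 : ℝ) 1) : Th p n x ∈ Set.Ico (0 : ℝ) 1 := by
  have h1 : ⌊Th p n x⌋ = ⌊x⌋ := by
    induction n with
    | zero => rfl
    | succ n ih =>
      rw [← ih]
      have := sd_floor_low (Nat.zero_le (p n)) (Th p n x)
      simpa [Th] using this
  have h2 : ⌊x⌋ = 0 := Int.floor_eq_zero_iff.mpr hx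
  rw [h2] at h1
  exact Int.floor_eq_zero_iff.mp h1

lemma Th_conv (hp : StrictMono p) (x : ℝ) : ∃ y, Tendsto (fun n => Th p n x) atTop (𝓝 y) := by
  have hbdd : BddAbove (Set.range fun n => Th p n x) := by
    refine ⟨Th p 0 x + (1 / 2) ^ p 0, ?_⟩
    rintro _ ⟨n, rfl⟩
    exact Th_le hp (Nat.zero_le n) x
  exact ⟨_, tendsto_atTop_ciSup (Th_mono' x) hbdd⟩

/-- the limit map -/
noncomputable def TT (p : ℕ → ℕ) (x : ℝ) : ℝ := limUnder atTop (fun n => Th p n x)

lemma TT_lim (hp : StrictMono p) (x : ℝ) : Tendsto (fun n => Th p n x) atTop (𝓝 (TT p x)) := by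
  obtain ⟨y, hy⟩ := Th_conv hp x
  unfold TT
  rw [hy.limUnder_eq]
  exact hy

lemma TT_meas (hp : StrictMono p) : Measurable (TT p) :=
  measurable_of_tendsto_metrizable (fun n => Th_meas p n)
    (tendsto_pi_nhds.mpr fun x => TT_lim hp x)

lemma TT_ge (hp : StrictMono p) (n : ℕ) (x : ℝ) : Th p n x ≤ TT p x :=
  (Th_mono' x).ge_of_tendsto (TT_lim hp x) n

lemma TT_le (hp : StrictMono p) (n : ℕ) (x : ℝ) : TT p x ≤ Th p n x + (1 / 2) ^ p n := by
  apply le_of_tendsto (TT_lim hp x)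
  filter_upwards [eventually_ge_atTop n] with m hm
  exact Th_le hp hm x

lemma TT_sin (hp : StrictMono p) (k : ℕ) (x : ℝ) :
    Real.sin (2 * Real.pi * (((2 ^ p k : ℕ) : ℝ) * TT p x)) ≤ 0 := by
  have hc : Continuous fun y : ℝ => Real.sin (2 * Real.pi * (((2 ^ p k : ℕ) : ℝ) * y)) := by fun_prop
  apply le_of_tendsto ((hc.tendsto _).comp (TT_lim hp x))
  filter_upwards [eventually_gt_atTop k] with n hn
  exact Th_sin hp k n hn x

lemma TT_range (hp : StrictMono p) (x : ℝ) (hx : x ∈ Set.Ico (0 : ℝ) 1) :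
    TT p x ∈ Set.Icc (0 : ℝ) 1 := by
  constructor
  · exact (Th_range 0 x hx).1.trans (TT_ge hp 0 x)
  · apply le_of_tendsto (TT_lim hp x)
    exact Eventually.of_forall fun n => (Th_range n x hx).2.le

lemma sd_pre (q : ℕ) (B : Set ℝ) : volume (sd q ⁻¹' B) ≤ 2 * volume B := by
  have hsub : sd q ⁻¹' B ⊆ B ∪ (fun y => y + (1 / 2) ^ (q + 1)) ⁻¹' B := by
    intro y hy
    have hy' : sd q y ∈ B := hy
    unfold sd at hy'
    split_ifs at hy'
    · exact Or.inr hy'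
    · exact Or.inl hy'
  calc volume (sd q ⁻¹' B) ≤ volume (B ∪ (fun y => y + (1 / 2) ^ (q + 1)) ⁻¹' B) := measure_mono hsub
    _ ≤ volume B + volume ((fun y => y + (1 / 2) ^ (q + 1)) ⁻¹' B) := measure_union_le _ _
    _ = 2 * volume B := by
        rw [measure_preimage_add_right, two_mul]

lemma Th_pre (n : ℕ) (B : Set ℝ) : μ0 (Th p n ⁻¹' B) ≤ 2 ^ n * volume B := by
  induction n generalizing B with
  | zero =>
    rw [pow_zero, one_mul]
    exact Measure.restrict_apply_le _ _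
  | succ n ih =>
    have h1 : Th p (n + 1) ⁻¹' B = Th p n ⁻¹' (sd (p n) ⁻¹' B) := rfl
    rw [h1]
    calc μ0 (Th p n ⁻¹' (sd (p n) ⁻¹' B)) ≤ 2 ^ n * volume (sd (p n) ⁻¹' B) := ih _
      _ ≤ 2 ^ n * (2 * volume B) := by gcongr; exact sd_pre _ _
      _ = 2 ^ (n + 1) * volume B := by rw [pow_succ, mul_assoc]

/-- the measure carried by the set `K` -/
noncomputable def nu (p : ℕ → ℕ) : Measure ℝ := μ0.map (TT p)

lemma nu_Icc (hp : StrictMono p) (n : ℕ) (a r : ℝ) (hr : (1 / 2) ^ p n ≤ r) :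
    nu p (Set.Icc a (a + r)) ≤ 2 ^ (n + 1) * ENNReal.ofReal r := by
  have hr0 : 0 ≤ r := le_trans (by positivity) hr
  unfold nu
  rw [Measure.map_apply (TT_meas hp) measurableSet_Icc]
  have hsub : TT p ⁻¹' Set.Icc a (a + r) ⊆ Th p n ⁻¹' Set.Icc (a - (1 / 2) ^ p n) (a + r) := by
    intro x hx
    have h1 := TT_ge hp n x
    have h2 := TT_le hp n x
    have h3 : a ≤ TT p x ∧ TT p x ≤ a + r := hx
    exact ⟨by linarith [h3.1], by linarith [h3.2]⟩
  calc μ0 (TT p ⁻¹' Set.Icc a (a + r)) ≤ μ0 (Th p n ⁻¹' Set.Icc (a - (1 / 2) ^ p n) (a + r)) :=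
        measure_mono hsub
    _ ≤ 2 ^ n * volume (Set.Icc (a - (1 / 2) ^ p n) (a + r)) := Th_pre n _
    _ ≤ 2 ^ n * (2 * ENNReal.ofReal r) := by
        gcongr
        rw [Real.volume_Icc, show (2 : ℝ≥0∞) = ENNReal.ofReal 2 by norm_num,
          ← ENNReal.ofReal_mul (by norm_num)]
        apply ENNReal.ofReal_le_ofReal
        linarith
    _ = 2 ^ (n + 1) * ENNReal.ofReal r := by rw [pow_succ, mul_assoc]

lemma nu_univ (hp : StrictMono p) : nu p Set.univ = 1 := by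
  unfold nu
  rw [Measure.map_apply (TT_meas hp) MeasurableSet.univ]
  simp

lemma nu_ae (hp : StrictMono p) : ∀ᵐ y ∂(nu p), y ∈ Set.Icc (0 : ℝ) 1 ∧
    ∀ k, Real.sin (2 * Real.pi * (((2 ^ p k : ℕ) : ℝ) * y)) ≤ 0 := by
  unfold nu
  have hm : MeasurableSet {y : ℝ | y ∈ Set.Icc (0 : ℝ) 1 ∧
      ∀ k, Real.sin (2 * Real.pi * (((2 ^ p k : ℕ) : ℝ) * y)) ≤ 0} := by
    have e1 : {y : ℝ | y ∈ Set.Icc (0 : ℝ) 1 ∧
        ∀ k, Real.sin (2 * Real.pi * (((2 ^ p k : ℕ) : ℝ) * y)) ≤ 0} =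
        Set.Icc 0 1 ∩ ⋂ k, {y : ℝ | Real.sin (2 * Real.pi * (((2 ^ p k : ℕ) : ℝ) * y)) ≤ 0} := by
      ext y
      simp
    rw [e1]
    refine measurableSet_Icc.inter (MeasurableSet.iInter fun k => ?_)
    exact measurableSet_le (by fun_prop) measurable_const
  rw [ae_map_iff (TT_meas hp).aemeasurable hm]
  unfold μ0
  filter_upwards [ae_restrict_mem measurableSet_Ico] with x hx
  exact ⟨TT_range hp x hx, fun k => TT_sin hp k x⟩

lemma nu_singleton (hp : StrictMono p) (hp2 : ∀ n, 2 * n ≤ p n) (a : ℝ) : nu p {a} = 0 := by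
  have h1 : ∀ n, nu p {a} ≤ ENNReal.ofReal (2 * (1 / 2) ^ n) := by
    intro n
    calc nu p {a} ≤ nu p (Set.Icc a (a + (1 / 2) ^ p n)) := by
          apply measure_mono
          intro x hx
          rw [Set.mem_singleton_iff] at hx
          rw [hx]
          exact ⟨le_rfl, by have : (0 : ℝ) < (1 / 2) ^ p n := by positivity
                            linarith⟩
      _ ≤ 2 ^ (n + 1) * ENNReal.ofReal ((1 / 2) ^ p n) := nu_Icc hp n a _ le_rfl
      _ = ENNReal.ofReal (2 ^ (n + 1) * (1 / 2) ^ p n) := by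
          rw [ENNReal.ofReal_mul (by positivity), ENNReal.ofReal_pow (by norm_num)]
          norm_num
      _ ≤ ENNReal.ofReal (2 * (1 / 2) ^ n) := by
          apply ENNReal.ofReal_le_ofReal
          have h2 : ((1 : ℝ) / 2) ^ p n ≤ (1 / 2) ^ (2 * n) :=
            pow_le_pow_of_le_one (by norm_num) (by norm_num) (hp2 n)
          calc (2 : ℝ) ^ (n + 1) * (1 / 2) ^ p n ≤ 2 ^ (n + 1) * (1 / 2) ^ (2 * n) := by gcongr
            _ = 2 * (1 / 2) ^ n := by
                rw [pow_succ, two_mul, pow_add]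
                have : (2 : ℝ) ^ n * (1 / 2) ^ n = 1 := by
                  rw [← mul_pow]; norm_num
                linear_combination (2 * (1 / 2 : ℝ) ^ n) * this
  have h2 : Tendsto (fun n : ℕ => ENNReal.ofReal (2 * (1 / 2) ^ n)) atTop (𝓝 0) := by
    have h3 : Tendsto (fun n : ℕ => 2 * (1 / 2 : ℝ) ^ n) atTop (𝓝 0) := by
      have := (tendsto_pow_atTop_nhds_zero_of_lt_one (by norm_num : (0 : ℝ) ≤ 1 / 2)
        (by norm_num)).const_mul 2
      simpa using this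
    have h4 := ENNReal.tendsto_ofReal h3
    simpa using h4
  exact le_antisymm (ge_of_tendsto' h2 h1) bot_le

end Pool.Agent.H747R3.V
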