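import Pool.Agent.H747R3.VC

set_option autoImplicit false

open MeasureTheory Filter Topology
open scoped ENNReal

namespace Pool.Agent.H747R3.V

/-- bases with blocks of digits -/
abbrev Tr : Type := Σ b : ℕ, Σ k : ℕ, {w : Fin k → ℤ // 2 ≤ b ∧ ∀ j, 0 ≤ w j ∧ w j < (b : ℤ)}

instance : Nonempty Tr := ⟨⟨2, 0, ⟨fun _ => 0, le_rfl, fun j => j.elim0⟩⟩⟩

lemma exists_enum : ∃ τ : ℕ → Tr, Function.Surjective τ := exists_surjective_nat Tr

noncomputable def Z (τ : Tr) (n : ℕ) (x : ℝ) : ℝ := Zn τ.1 τ.2.1 τ.2.2.1 n x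

lemma exists_t (τ : ℕ → Tr) : ∃ t : ℕ → ℕ, StrictMono t ∧ ∀ k, ∀ i < k,
    μ0 {x | ∃ n, t k ≤ n ∧ (1 / ((k : ℝ) + 1)) * n < |Z (τ i) n x|} ≤
      ENNReal.ofReal ((1 / 8) ^ k) := by
  have h1 : ∀ k i : ℕ, ∃ n₀ : ℕ, ∀ n₁, n₀ ≤ n₁ →
      μ0 {x | ∃ n, n₁ ≤ n ∧ (1 / ((k : ℝ) + 1)) * n < |Z (τ i) n x|} ≤
        ENNReal.ofReal ((1 / 8) ^ k) := by
    intro k i
    exact tail (τ i).2.2.2.1 (τ i).2.1 (τ i).2.2.1 (τ i).2.2.2.2 (1 / ((k : ℝ) + 1))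
      (by positivity) _ (by rw [ENNReal.ofReal_pos]; positivity)
  choose f hf using h1
  have hle : ∀ k i : ℕ, i < k → f k i ≤ ∑ j ∈ Finset.range (k + 1), (∑ i ∈ Finset.range j, f j i + 1) := by
    intro k i hi
    calc f k i ≤ ∑ i ∈ Finset.range k, f k i :=
          Finset.single_le_sum (f := fun i => f k i) (fun _ _ => Nat.zero_le _) (Finset.mem_range.mpr hi)
      _ ≤ ∑ i ∈ Finset.range k, f k i + 1 := Nat.le_succ _
      _ ≤ ∑ j ∈ Finset.range (k + 1), (∑ i ∈ Finset.range j, f j i + 1) :=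
          Finset.single_le_sum (f := fun j => ∑ i ∈ Finset.range j, f j i + 1)
            (fun _ _ => Nat.zero_le _) (Finset.mem_range.mpr (Nat.lt_succ_self k))
  refine ⟨fun k => ∑ j ∈ Finset.range (k + 1), (∑ i ∈ Finset.range j, f j i + 1), ?_, ?_⟩
  · apply strictMono_nat_of_lt_succ
    intro k
    show _ < ∑ j ∈ Finset.range (k + 1 + 1), (∑ i ∈ Finset.range j, f j i + 1)
    rw [Finset.sum_range_succ _ (k + 1)]
    omega
  · intro k i hi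
    exact hf k i _ (hle k i hi)

lemma exists_gauge (φ : ℝ → ℝ) (hpos : ∀ r : ℝ, 0 < r → 0 < φ r)
    (hlim : Tendsto (fun r : ℝ => r / φ r) (𝓝[>] (0:ℝ)) (𝓝 0)) (k : ℕ) :
    ∃ g : ℕ, ∀ r : ℝ, 0 < r → r ≤ (1 / 2) ^ g → 2 ^ (k + 2) * r ≤ φ r := by
  have h1 : ∀ᶠ r in 𝓝[>] (0 : ℝ), r / φ r < 1 / 2 ^ (k + 2) :=
    hlim.eventually (gt_mem_nhds (by positivity))
  rw [eventually_nhdsWithin_iff, Metric.eventually_nhds_iff] at h1
  obtain ⟨ε, hε, h2⟩ := h1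
  obtain ⟨g, hg⟩ := exists_pow_lt_of_lt_one hε (by norm_num : (1 : ℝ) / 2 < 1)
  refine ⟨g, fun r hr hrg => ?_⟩
  have h3 := h2 (y := r) (by rw [Real.dist_eq, sub_zero, abs_of_pos hr]; linarith) hr
  rw [div_lt_iff₀ (hpos r hr)] at h3
  have h4 : (0 : ℝ) < 2 ^ (k + 2) := by positivity
  have h5 : 2 ^ (k + 2) * r < 2 ^ (k + 2) * (1 / 2 ^ (k + 2) * φ r) := by gcongr
  have h6 : 2 ^ (k + 2) * (1 / 2 ^ (k + 2) * φ r) = φ r := by field_simp
  linarith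

/-- the digit positions -/
lemma exists_p (τ : ℕ → Tr) (t : ℕ → ℕ) (g : ℕ → ℕ) : ∃ p : ℕ → ℕ, StrictMono p ∧
    (∀ n, 2 * n ≤ p n) ∧ (∀ n, g n ≤ p n) ∧
    (∀ k, ∀ i < k, (τ i).1 ^ (t k + (τ i).2.1) ≤ 2 ^ p k) := by
  set γ : ℕ → ℕ := fun k => g k + ∑ i ∈ Finset.range k, (τ i).1 * (t k + (τ i).2.1) with hγ
  have hple : ∀ k, γ k + 2 ≤ ∑ j ∈ Finset.range (k + 1), (γ j + 2) := fun k =>
    Finset.single_le_sum (f := fun j => γ j + 2) (fun _ _ => Nat.zero_le _)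
      (Finset.mem_range.mpr (Nat.lt_succ_self k))
  refine ⟨fun k => ∑ j ∈ Finset.range (k + 1), (γ j + 2), ?_, ?_, ?_, ?_⟩
  · apply strictMono_nat_of_lt_succ
    intro k
    show _ < ∑ j ∈ Finset.range (k + 1 + 1), (γ j + 2)
    rw [Finset.sum_range_succ _ (k + 1)]
    omega
  · intro n
    show 2 * n ≤ ∑ j ∈ Finset.range (n + 1), (γ j + 2)
    calc 2 * n ≤ ∑ j ∈ Finset.range (n + 1), 2 := by simp; omega
      _ ≤ _ := Finset.sum_le_sum fun j _ => by omega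
  · intro n
    exact le_trans (by simp only [hγ]; omega) (hple n)
  · intro k i hi
    have h1 : (τ i).1 * (t k + (τ i).2.1) ≤ γ k := by
      have h2 : (τ i).1 * (t k + (τ i).2.1) ≤ ∑ i ∈ Finset.range k, (τ i).1 * (t k + (τ i).2.1) :=
        Finset.single_le_sum (f := fun i => (τ i).1 * (t k + (τ i).2.1))
          (fun _ _ => Nat.zero_le _) (Finset.mem_range.mpr hi)
      simp only [hγ]
      omega
    calc (τ i).1 ^ (t k + (τ i).2.1) ≤ (2 ^ (τ i).1) ^ (t k + (τ i).2.1) :=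
          Nat.pow_le_pow_left (Nat.lt_two_pow_self).le _
      _ = 2 ^ ((τ i).1 * (t k + (τ i).2.1)) := (pow_mul _ _ _).symm
      _ ≤ 2 ^ (∑ j ∈ Finset.range (k + 1), (γ j + 2)) :=
          Nat.pow_le_pow_right (by norm_num) (by have := hple k; omega)

/-- the bad set at stage `k` for the `i`-th triple -/
def Bad (τ : ℕ → Tr) (t : ℕ → ℕ) (k i : ℕ) : Set ℝ :=
  {y | y ∈ Set.Ico (0 : ℝ) 1 ∧ ∃ n, t k ≤ n ∧ n ≤ t (k + 1) ∧
    (1 / ((k : ℝ) + 1)) * n < |Z (τ i) n y|}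

lemma nu_Bad (τ : ℕ → Tr) (t p : ℕ → ℕ) (hp : StrictMono p)
    (ht : ∀ k, ∀ i < k, μ0 {x | ∃ n, t k ≤ n ∧ (1 / ((k : ℝ) + 1)) * n < |Z (τ i) n x|} ≤
      ENNReal.ofReal ((1 / 8) ^ k))
    (hpt : ∀ k, ∀ i < k, (τ i).1 ^ (t k + (τ i).2.1) ≤ 2 ^ p k) (k i : ℕ) (hi : i < k) :
    nu p (Bad τ t k i) ≤ 2 ^ (k + 2) * ENNReal.ofReal ((1 / 8) ^ k) := by
  set b := (τ i).1 with hb
  set l := (τ i).2.1 with hl
  set w := (τ i).2.2.1 with hw
  have hb2 : 2 ≤ b := (τ i).2.2.2.1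
  set m := t (k + 1) + l with hm
  have hbm : (0 : ℝ) < (b : ℝ) ^ m := by
    have : (0 : ℝ) < b := by exact_mod_cast (by omega : 0 < b)
    positivity
  set P : ℤ → Prop := fun a => ∃ y : ℝ, ⌊y * (b : ℝ) ^ m⌋ = a ∧ ∃ n, t k ≤ n ∧ n ≤ t (k + 1) ∧
    (1 / ((k : ℝ) + 1)) * n < |Zn b l w n y| with hP
  have hPiff : ∀ y : ℝ, P ⌊y * (b : ℝ) ^ m⌋ ↔ ∃ n, t k ≤ n ∧ n ≤ t (k + 1) ∧
      (1 / ((k : ℝ) + 1)) * n < |Zn b l w n y| := by
    intro y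
    constructor
    · rintro ⟨z, hz, n, h1, h2, h3⟩
      refine ⟨n, h1, h2, ?_⟩
      rwa [← Zn_congr hb2 l w (by omega : n + l ≤ m) hz]
    · intro h
      exact ⟨y, rfl, h⟩
  have hbad : Bad τ t k i = {y | y ∈ Set.Ico (0 : ℝ) 1 ∧ P ⌊y * (b : ℝ) ^ m⌋} := by
    ext y
    show (y ∈ Set.Ico (0 : ℝ) 1 ∧ ∃ n, t k ≤ n ∧ n ≤ t (k + 1) ∧
      (1 / ((k : ℝ) + 1)) * n < |Zn b l w n y|) ↔ (y ∈ Set.Ico (0 : ℝ) 1 ∧ P ⌊y * (b : ℝ) ^ m⌋)
    rw [hPiff]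
  rw [hbad]
  have hν : ∀ a : ℝ, nu p (Set.Icc a (a + 1 / (b : ℝ) ^ m)) ≤
      2 ^ (k + 2) * ENNReal.ofReal (1 / (b : ℝ) ^ m) := by
    intro a
    apply nu_Icc hp (k + 1) a
    have h1 : b ^ m ≤ 2 ^ p (k + 1) := hpt (k + 1) i (by omega)
    have h2 : (b : ℝ) ^ m ≤ 2 ^ p (k + 1) := by exact_mod_cast h1
    rw [one_div, one_div, inv_pow]
    exact inv_anti₀ hbm h2
  refine (cyl_compare (nu p) (2 ^ (k + 2)) hb2 hν P).trans ?_
  gcongr
  refine le_trans (measure_mono ?_) (ht k i hi)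
  intro y hy
  obtain ⟨n, h1, _, h3⟩ := (hPiff y).mp hy
  exact ⟨n, h1, h3⟩

lemma nu_BadU (τ : ℕ → Tr) (t p : ℕ → ℕ) (hp : StrictMono p)
    (ht : ∀ k, ∀ i < k, μ0 {x | ∃ n, t k ≤ n ∧ (1 / ((k : ℝ) + 1)) * n < |Z (τ i) n x|} ≤
      ENNReal.ofReal ((1 / 8) ^ k))
    (hpt : ∀ k, ∀ i < k, (τ i).1 ^ (t k + (τ i).2.1) ≤ 2 ^ p k) (k : ℕ) :
    nu p (⋃ i ∈ Finset.range k, Bad τ t k i) ≤ ENNReal.ofReal (4 * (1 / 2) ^ k) := by
  calc nu p (⋃ i ∈ Finset.range k, Bad τ t k i) ≤ ∑ i ∈ Finset.range k, nu p (Bad τ t k i) :=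
        measure_biUnion_finset_le _ _
    _ ≤ ∑ i ∈ Finset.range k, 2 ^ (k + 2) * ENNReal.ofReal ((1 / 8) ^ k) :=
        Finset.sum_le_sum fun i hi => nu_Bad τ t p hp ht hpt k i (Finset.mem_range.mp hi)
    _ = ENNReal.ofReal (k * (2 ^ (k + 2) * (1 / 8) ^ k)) := by
        rw [Finset.sum_const, nsmul_eq_mul, Finset.card_range, ENNReal.ofReal_mul (by positivity),
          ENNReal.ofReal_mul (by positivity), ENNReal.ofReal_natCast,
          ENNReal.ofReal_pow (by norm_num : (0 : ℝ) ≤ 2)]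
        norm_num
    _ ≤ ENNReal.ofReal (4 * (1 / 2) ^ k) := by
        apply ENNReal.ofReal_le_ofReal
        have h1 : (k : ℝ) ≤ 2 ^ k := by exact_mod_cast (Nat.lt_two_pow_self).le
        have h2 : (2 : ℝ) ^ k * (2 ^ (k + 2) * (1 / 8) ^ k) = 4 * (1 / 2) ^ k := by
          have : (2 : ℝ) ^ k * 2 ^ k * (1 / 8) ^ k = (1 / 2) ^ k := by
            rw [← mul_pow, ← mul_pow]
            norm_num
          rw [pow_add]
          linear_combination 4 * this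
        rw [← h2]
        gcongr

lemma ae_notBad (τ : ℕ → Tr) (t p : ℕ → ℕ) (hp : StrictMono p)
    (ht : ∀ k, ∀ i < k, μ0 {x | ∃ n, t k ≤ n ∧ (1 / ((k : ℝ) + 1)) * n < |Z (τ i) n x|} ≤
      ENNReal.ofReal ((1 / 8) ^ k))
    (hpt : ∀ k, ∀ i < k, (τ i).1 ^ (t k + (τ i).2.1) ≤ 2 ^ p k) :
    ∀ᵐ y ∂(nu p), ∀ᶠ k in atTop, y ∉ ⋃ i ∈ Finset.range k, Bad τ t k i := by
  apply ae_eventually_notMem
  have hs : Summable (fun k : ℕ => 4 * (1 / 2 : ℝ) ^ k) :=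
    (summable_geometric_of_lt_one (by norm_num) (by norm_num)).mul_left 4
  refine ne_top_of_le_ne_top ?_ (ENNReal.tsum_le_tsum fun k => nu_BadU τ t p hp ht hpt k)
  rw [← ENNReal.ofReal_tsum_of_nonneg (fun m => by positivity) hs]
  exact ENNReal.ofReal_ne_top

/-- the set of absolutely normal numbers in the frozen form -/
def Nor : Set ℝ := {x : ℝ | ∀ b : ℕ, 2 ≤ b → ∀ k : ℕ, ∀ w : Fin k → ℤ,
            (∀ j : Fin k, 0 ≤ w j ∧ w j < (b:ℤ)) →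
            Tendsto (fun N : ℕ =>
              ((((Finset.range N).filter (fun i : ℕ =>
                ∀ j : Fin k, ⌊x * (b:ℝ) ^ (i + j.val + 1)⌋ % (b:ℤ) = w j)).card : ℝ) / (N:ℝ)))
              atTop (𝓝 (1 / (b:ℝ) ^ k))}

lemma card_eq (b k : ℕ) (w : Fin k → ℤ) (x : ℝ) (N : ℕ) :
    ((((Finset.range N).filter (fun i : ℕ =>
      ∀ j : Fin k, ⌊x * (b:ℝ) ^ (i + j.val + 1)⌋ % (b:ℤ) = w j)).card : ℝ)) =
      Zn b k w N x + N * (1 / (b : ℝ)) ^ k := by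
  unfold Zn gi chi
  rw [Finset.sum_sub_distrib, Finset.sum_const, Finset.card_range, nsmul_eq_mul, sub_add_cancel,
    Finset.sum_boole]
  congr 2
  apply Finset.filter_congr
  intro i _
  unfold Bl
  apply forall_congr'
  intro j
  have : x * (b : ℝ) ^ i * (b : ℝ) ^ (j.val + 1) = x * (b : ℝ) ^ (i + j.val + 1) := by
    rw [mul_assoc, ← pow_add, add_assoc]
  rw [this]

lemma normal_of (τ : ℕ → Tr) (hτ : Function.Surjective τ) (t : ℕ → ℕ) (htm : StrictMono t)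
    (y : ℝ) (hy : y ∈ Set.Ico (0 : ℝ) 1)
    (h : ∀ᶠ k in atTop, y ∉ ⋃ i ∈ Finset.range k, Bad τ t k i) : y ∈ Nor := by
  intro b hb k w hw
  obtain ⟨i₀, hi₀⟩ := hτ ⟨b, k, ⟨w, hb, hw⟩⟩
  have hZ : ∀ n x, Z (τ i₀) n x = Zn b k w n x := by
    intro n x
    rw [hi₀]
    rfl
  have hlim : Tendsto (fun N : ℕ => Zn b k w N y / N) atTop (𝓝 0) := by
    rw [Metric.tendsto_atTop]
    intro ε hε
    obtain ⟨k₀, hk₀⟩ := eventually_atTop.mp h
    obtain ⟨k₁, hk₁⟩ := exists_nat_gt (1 / ε)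
    set K := max (max k₀ k₁) (i₀ + 1) with hK
    refine ⟨t K + 1, fun n hn => ?_⟩
    -- find the stage
    have hex : ∃ q, n < t (q + 1) := ⟨n, htm.le_apply.trans_lt' (Nat.lt_succ_self n)⟩
    classical
    set q := Nat.find hex with hq
    have hq1 : n < t (q + 1) := Nat.find_spec hex
    have hKq : K ≤ q := by
      by_contra hcon
      push Not at hcon
      have : t (q + 1) ≤ t K := htm.monotone (by omega)
      omega
    have hq2 : t q ≤ n := by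
      have hK1 : i₀ + 1 ≤ K := le_max_right _ _
      have hq0 : 0 < q := by omega
      have := Nat.find_min hex (m := q - 1) (by omega)
      rw [Nat.sub_add_cancel hq0] at this
      exact not_lt.mp this
    have hnb : y ∉ ⋃ i ∈ Finset.range q, Bad τ t q i :=
      hk₀ q (le_trans (le_trans (le_max_left _ _) (le_max_left _ _)) hKq)
    have h1 : y ∉ Bad τ t q i₀ := by
      intro hc
      apply hnb
      rw [Set.mem_iUnion₂]
      exact ⟨i₀, Finset.mem_range.mpr (by have : i₀ + 1 ≤ K := le_max_right _ _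
                                          omega), hc⟩
    have h2 : |Zn b k w n y| ≤ (1 / ((q : ℝ) + 1)) * n := by
      by_contra hcon
      push Not at hcon
      apply h1
      refine ⟨hy, n, hq2, hq1.le, ?_⟩
      rw [hZ]
      exact hcon
    have hn0 : (0 : ℝ) < n := by exact_mod_cast (by omega : 0 < n)
    rw [Real.dist_eq, sub_zero, abs_div, abs_of_pos hn0, div_lt_iff₀ hn0]
    have h3 : 1 / ((q : ℝ) + 1) < ε := by
      rw [div_lt_iff₀ (by positivity)]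
      have h4 : (k₁ : ℝ) ≤ q := by
        exact_mod_cast le_trans (le_trans (le_max_right _ _) (le_max_left _ _)) hKq
      rw [div_lt_iff₀ hε] at hk₁
      nlinarith
    calc |Zn b k w n y| ≤ (1 / ((q : ℝ) + 1)) * n := h2
      _ < ε * n := by gcongr
  have hfin : Tendsto (fun N : ℕ => Zn b k w N y / N + (1 / (b : ℝ)) ^ k) atTop
      (𝓝 (0 + (1 / (b : ℝ)) ^ k)) := hlim.add_const _
  rw [zero_add, one_div_pow] at hfin
  refine hfin.congr' ?_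
  filter_upwards [eventually_gt_atTop 0] with N hN
  have hN' : (N : ℝ) ≠ 0 := by exact_mod_cast hN.ne'
  rw [card_eq, one_div_pow]
  field_simp

end Pool.Agent.H747R3.V
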