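import Pool.Agent.H747R3.VD
import Pool.Agent.H747R3.UE

set_option autoImplicit false

open MeasureTheory Filter Topology
open scoped ENNReal

namespace Pool.Agent.H747R3.V

lemma set_sub_Icc (s : Set ℝ) (hne : s.Nonempty) (hd : Metric.ediam s ≠ ⊤) :
    s ⊆ Set.Icc (sInf s) (sInf s + (Metric.ediam s).toReal) := by
  have hdist : ∀ x ∈ s, ∀ y ∈ s, |x - y| ≤ (Metric.ediam s).toReal := by
    intro x hx y hy
    rw [← Real.dist_eq, dist_edist]
    exact ENNReal.toReal_mono hd (Metric.edist_le_ediam_of_mem hx hy)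
  obtain ⟨z, hz⟩ := hne
  have hbdd : BddBelow s := by
    refine ⟨z - (Metric.ediam s).toReal, fun y hy => ?_⟩
    have := (abs_le.mp (hdist z hz y hy)).2
    linarith
  intro x hx
  refine ⟨csInf_le hbdd hx, ?_⟩
  have h1 : x - (Metric.ediam s).toReal ≤ sInf s := by
    apply le_csInf ⟨z, hz⟩
    intro y hy
    have := (abs_le.mp (hdist x hx y hy)).2
    linarith
  linarith

lemma nu_gauge {p g : ℕ → ℕ} (hp : StrictMono p) (hp2 : ∀ n, 2 * n ≤ p n) (hgp : ∀ n, g n ≤ p n)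
    (φ : ℝ → ℝ) (h0 : φ 0 = 0)
    (hg : ∀ k, ∀ r : ℝ, 0 < r → r ≤ (1 / 2) ^ g k → 2 ^ (k + 2) * r ≤ φ r) (s : Set ℝ)
    (hs : Metric.ediam s ≤ ENNReal.ofReal ((1 / 2) ^ p 0)) :
    nu p s ≤ ENNReal.ofReal (φ (Metric.ediam s).toReal) := by
  have hd : Metric.ediam s ≠ ⊤ := ne_top_of_le_ne_top ENNReal.ofReal_ne_top hs
  rcases s.eq_empty_or_nonempty with rfl | hne
  · simp
  have hsub := set_sub_Icc s hne hd
  set d := (Metric.ediam s).toReal with hdd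
  have hd0 : 0 ≤ d := ENNReal.toReal_nonneg
  have hdle : d ≤ (1 / 2) ^ p 0 := by
    have := ENNReal.toReal_mono ENNReal.ofReal_ne_top hs
    rwa [ENNReal.toReal_ofReal (by positivity)] at this
  rcases hd0.eq_or_lt with hd1 | hd1
  · rw [← hd1, h0, ENNReal.ofReal_zero]
    have h1 : s ⊆ {sInf s} := by
      intro x hx
      have := hsub hx
      rw [← hd1, add_zero] at this
      exact le_antisymm this.2 this.1
    exact (measure_mono h1).trans (nu_singleton hp hp2 _).le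
  · have hex : ∃ n, ((1 : ℝ) / 2) ^ p n ≤ d := by
      obtain ⟨n, hn⟩ := exists_pow_lt_of_lt_one hd1 (by norm_num : (1 : ℝ) / 2 < 1)
      exact ⟨n, (pow_le_pow_of_le_one (by norm_num) (by norm_num) (p_ge hp n)).trans hn.le⟩
    classical
    set n := Nat.find hex with hn
    have hn1 : ((1 : ℝ) / 2) ^ p n ≤ d := Nat.find_spec hex
    have hφ : 2 ^ (n + 1) * d ≤ φ d := by
      rcases Nat.eq_zero_or_pos n with hn0 | hn0
      · rw [hn0]
        have h1 : d ≤ (1 / 2) ^ g 0 :=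
          hdle.trans (pow_le_pow_of_le_one (by norm_num) (by norm_num) (hgp 0))
        have h2 := hg 0 d hd1 h1
        norm_num at h2 ⊢
        linarith
      · have h1 : d < (1 / 2) ^ p (n - 1) := by
          have := Nat.find_min hex (m := n - 1) (by omega)
          exact not_le.mp this
        have h2 : d ≤ (1 / 2) ^ g (n - 1) :=
          h1.le.trans (pow_le_pow_of_le_one (by norm_num) (by norm_num) (hgp _))
        have h3 := hg (n - 1) d hd1 h2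
        have h4 : n - 1 + 2 = n + 1 := by omega
        rwa [h4] at h3
    calc nu p s ≤ nu p (Set.Icc (sInf s) (sInf s + d)) := measure_mono hsub
      _ ≤ 2 ^ (n + 1) * ENNReal.ofReal d := nu_Icc hp n _ _ hn1
      _ = ENNReal.ofReal (2 ^ (n + 1) * d) := by
          rw [ENNReal.ofReal_mul (by positivity), ENNReal.ofReal_pow (by norm_num)]
          norm_num
      _ ≤ ENNReal.ofReal (φ d) := ENNReal.ofReal_le_ofReal hφ

lemma UU_shift (Nk : ℕ → ℕ) (x : ℝ) (m : ℤ) (hx : x ∈ U.UU Nk) : x + m ∈ U.UU Nk := by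
  obtain ⟨k, hk⟩ := hx
  refine ⟨k, ?_⟩
  have h1 : 2 * Real.pi * ((Nk k : ℝ) * (x + m)) =
      2 * Real.pi * ((Nk k : ℝ) * x) + (((Nk k : ℤ) * m : ℤ) : ℝ) * (2 * Real.pi) := by
    push_cast
    ring
  rw [h1, Real.sin_add_int_mul_two_pi]
  exact hk

theorem main (φ : ℝ → ℝ) (h0 : φ 0 = 0) (hpos : ∀ r : ℝ, 0 < r → 0 < φ r)
    (hlim : Tendsto (fun r : ℝ => r / φ r) (𝓝[>] (0:ℝ)) (𝓝 0)) :
    ∃ K : Set ℝ, IsClosed K ∧ K ⊆ Set.Icc (0:ℝ) 1 ∧
        (∀ c : ℤ → ℂ,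
          (∀ x : ℝ, (∀ m : ℤ, x + (m:ℝ) ∉ K) →
            Tendsto (fun N : ℕ => ∑ n ∈ Finset.Icc (-(N:ℤ)) (N:ℤ),
              c n * Complex.exp (2 * (Real.pi:ℂ) * Complex.I * (n:ℂ) * (x:ℂ))) atTop (𝓝 0)) →
          ∀ n : ℤ, c n = 0) ∧
        0 < MeasureTheory.Measure.mkMetric (fun r : ℝ≥0∞ => ENNReal.ofReal (φ r.toReal))
          (K ∩ Nor) := by
  obtain ⟨τ, hτ⟩ := exists_enum
  obtain ⟨t, htm, ht⟩ := exists_t τ
  choose g hg using exists_gauge φ hpos hlim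
  obtain ⟨p, hp, hp2, hgp, hpt⟩ := exists_p τ t g
  set Nk : ℕ → ℕ := fun k => 2 ^ p k with hNk
  refine ⟨Set.Icc 0 1 ∩ (U.UU Nk)ᶜ, isClosed_Icc.inter (U.UU_open Nk).isClosed_compl,
    Set.inter_subset_left, ?_, ?_⟩
  · intro c hc
    apply U.uniqueness (Nk := Nk)
    · exact (tendsto_pow_atTop_atTop_of_one_lt (by norm_num : 1 < 2)).comp hp.tendsto_atTop
    · intro k; positivity
    · intro x hx
      apply hc x
      rintro m ⟨_, hm⟩
      exact hm (UU_shift Nk x m hx)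
  · have hle : nu p ≤ Measure.mkMetric (fun r : ℝ≥0∞ => ENNReal.ofReal (φ r.toReal)) := by
      apply Measure.le_mkMetric _ _ (ENNReal.ofReal ((1 / 2) ^ p 0))
        (by rw [ENNReal.ofReal_pos]; positivity)
      intro s hs
      exact nu_gauge hp hp2 hgp φ h0 hg s hs
    have hae : ∀ᵐ y ∂(nu p), y ∈ (Set.Icc 0 1 ∩ (U.UU Nk)ᶜ) ∩ Nor := by
      have h1 : ∀ᵐ y ∂(nu p), y ≠ 1 := by
        rw [ae_iff]
        have : {a : ℝ | ¬ a ≠ 1} = {1} := by ext a; simp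
        rw [this]
        exact nu_singleton hp hp2 1
      filter_upwards [nu_ae hp, h1, ae_notBad τ t p hp ht hpt] with y hy1 hy2 hy3
      refine ⟨⟨hy1.1, ?_⟩, ?_⟩
      · rintro ⟨k, hk⟩
        exact absurd (hy1.2 k) (not_le.mpr hk)
      · exact normal_of τ hτ t htm y ⟨hy1.1.1, lt_of_le_of_ne hy1.1.2 hy2⟩ hy3
    have h2 : nu p ((Set.Icc 0 1 ∩ (U.UU Nk)ᶜ) ∩ Nor)ᶜ = 0 := hae
    have h3 : nu p ((Set.Icc 0 1 ∩ (U.UU Nk)ᶜ) ∩ Nor) = 1 := by
      apply le_antisymm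
      · rw [← nu_univ hp]; exact measure_mono (Set.subset_univ _)
      · rw [← nu_univ hp, ← Set.union_compl_self ((Set.Icc 0 1 ∩ (U.UU Nk)ᶜ) ∩ Nor)]
        refine (measure_union_le _ _).trans ?_
        rw [h2, add_zero]
    calc (0 : ℝ≥0∞) < 1 := one_pos
      _ = nu p ((Set.Icc 0 1 ∩ (U.UU Nk)ᶜ) ∩ Nor) := h3.symm
      _ ≤ _ := hle _

end Pool.Agent.H747R3.V
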